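import Pool.Agent.G3.Z.CDefs

/-!
# G3 Z Sit: the data of Theorem LCT

`Crs`: the crossing statement at good hits, for arcs near a line.  `Sit`: all data.  `Arr`: the curves of Theorem LCT after translations by the lattice, with their limit.
-/

set_option autoImplicit false

open Topology Filter Metric

namespace Pool.Agent.G3

open Pool.Agent.H36.BP (EN fs wd Sub)
open Pool.Agent.H14.PP (IsCone CurveAt Tan)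
open Pool.Agent.H62.EF (MN pr)
open Pool.Agent.AD (Vd Chart Charts)
open Pool.Agent.TG (TMap Lat Geo Gd)

open Pool.Agent.TG (VForm JJ II Cst Fb TransAt)
open Pool.Agent.G3.C (HP)

variable {N k : ℕ}

/-- the crossing statement: at a transversal hit of `D` outside `B` the integral of a form along short paths from `F` to `G` extends holomorphically over the hit, for all arcs near the line -/
def Crs (X : Set (EN N)) (Λ : AddSubgroup (Vd (k + 1))) (u : EN N → Vd (k + 1)) (D B : Set (Vd (k + 1))) : Prop :=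
  ∀ q e : Vd (k + 1), q ∈ D → q ∉ B → TransAt D q e → ∃ s₁ : ℝ, 0 < s₁ ∧ ∀ η : ℝ, 0 < η → ∃ s₀ ρ₀ : ℝ, 0 < s₀ ∧ s₀ < η ∧ 2 * s₀ < s₁ ∧ 0 < ρ₀ ∧
    (∀ γ : ℂ → Vd (k + 1), DifferentiableOn ℂ γ (ball 0 s₁) → (∀ z ∈ ball (0 : ℂ) s₁, ‖γ z - (q + z • e)‖ ≤ ρ₀) →
      ∀ z ∈ ball (0 : ℂ) (2 * s₀), γ z ∈ D → ‖z‖ < s₀ / 4) ∧
    ∀ δ ε ε₀ : ℝ, Cst X Λ u D δ ε ε₀ → ∃ ε₁ : ℝ, 0 < ε₁ ∧ ε₁ ≤ ε₀ ∧ ∀ γ : ℂ → Vd (k + 1), DifferentiableOn ℂ γ (ball 0 s₁) →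
      (∀ z ∈ ball (0 : ℂ) s₁, ‖γ z - (q + z • e)‖ ≤ ρ₀) → (∀ z : ℂ, s₀ / 4 ≤ ‖z‖ → ‖z‖ ≤ s₀ → γ z ∈ Gd D δ) →
      ∀ (α : VForm X Λ u) (F G : ℂ → EN N), Cv X Λ u (ball 0 (2 * s₀)) F γ → Cv X Λ u (ball 0 (2 * s₀)) G γ →
        (∀ z : ℂ, s₀ / 4 ≤ ‖z‖ → ‖z‖ ≤ s₀ → dist (pr (F z)) (pr (G z)) ≤ ε₁) →
        ∃ K : ℂ → ℂ, DifferentiableOn ℂ K (ball 0 s₀) ∧ ∀ z : ℂ, s₀ / 4 < ‖z‖ → ‖z‖ < s₀ → K z = II α ε (γ z) (pr (F z)) (pr (G z))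

/-- the data of Theorem LCT -/
structure Sit (X : Set (EN N)) (Λ : AddSubgroup (Vd (1 + 1))) (u : EN N → Vd (1 + 1)) (D B : Set (Vd (1 + 1))) (p : EN N → EN N → ℝ) (m : ℕ) (C : ℝ) (Q : EN N → ℂ) (d : ℕ)
    (S : Set (Vd (1 + 1) → MN N)) {J : ℕ} (α : Fin J → VForm X Λ u) (c₀ : ℝ) : Prop where
  geo : Geo X Λ u D B
  simp : Simp Λ
  ldi : LDi D
  ps : PS X Λ u D p m C
  qd : QD X Λ u D Q d
  q_ne : ∀ x ∈ X, ∃ᶠ x' in 𝓝 x, x' ∈ X ∧ Q x' ≠ 0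
  csf : Csf X Λ u D S
  q_sec : ∀ Φ ∈ S, ∀ y ∉ D, ∀ x ∈ X, pr x = Φ y → Q x = 0
  jbd : JBd X Λ u D α c₀
  hpl : HPl D B
  crs : Crs X Λ u D B

/-- the curves of Theorem LCT with their limit, the section `Φ` over the line `b + ℂ a` -/
structure Arr (X : Set (EN N)) (Λ : AddSubgroup (Vd (k + 1))) (u : EN N → Vd (k + 1)) (D : Set (Vd (k + 1))) (Q : EN N → ℂ) (d : ℕ) (p : EN N → EN N → ℝ) (m : ℕ)
    (𝒰 : Ultrafilter ℕ) (F : ℕ → ℂ → EN N) (h : ℕ → ℂ → Vd (k + 1)) (E : ℕ → ℂ → ℂ) (a b : Vd (k + 1)) (Φ : Vd (k + 1) → MN N) : Prop where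
  lim : Lim X Λ u D 𝒰 F h a b Φ
  ok : ∀ᶠ n in (𝒰 : Filter ℕ), Ok Q p (F n) 0
  dh : ∀ r ε : ℝ, 0 < ε → ∀ᶠ n in (𝒰 : Filter ℕ), ∀ z ∈ ball (0 : ℂ) r, ‖deriv (h n) z - a‖ ≤ ε
  ex : ∀ r : ℝ, ∀ᶠ n in (𝒰 : Filter ℕ), DifferentiableOn ℂ (E n) (ball 0 r) ∧ (∀ z ∈ ball (0 : ℂ) r, E n z ≠ 0) ∧ E n 0 = 1
  star : ∀ r ε : ℝ, 0 < ε → ∀ᶠ n in (𝒰 : Filter ℕ), ∀ z ∈ ball (0 : ℂ) r, Ok Q p (F n) z →
    Lam Q d p m (F n) (h n) 0 + Real.log ‖E n z‖ - ε ≤ Lam Q d p m (F n) (h n) z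

/-- the integral of the form from the section to the curve -/
noncomputable def gg {X : Set (EN N)} {Λ : AddSubgroup (Vd (k + 1))} {u : EN N → Vd (k + 1)} (α : VForm X Λ u) (Φ : Vd (k + 1) → MN N) (F : ℂ → EN N) (h : ℂ → Vd (k + 1))
    (z : ℂ) : ℂ := JJ α (h z) (Φ (h z)) (pr (F z))

end Pool.Agent.G3
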