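import Pool.Agent.G3.CvA
import Pool.Agent.TG.JJ
import Pool.Agent.G3.C.LemmaU

/-!
# G3 Z CDefs: the finite set of the global sections, simple tori, the interface to the blocks (A) and (C)

`Csf X Λ u D S`: `S` is a finite set of sections of `u`, holomorphic outside `D`, meromorphic everywhere, and every entire curve over a line is one of them on this line.
`mer` is stated for every direction `a`: at every `y` there is an analytic lift `φ` which is not identically `0` on the line through `y` in the direction `a`.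
`Simp Λ`: the torus `ℂ² / Λ` contains no elliptic curve.
`JBd`: bounds for the integrals `JJ (α j)` of finitely many forms along short paths in the fibres.
`HPl`: every line has a half plane in which all hits of `D` are good: not in `B`, and transversal.
-/

set_option autoImplicit false

open Topology Filter Metric

namespace Pool.Agent.G3

open Pool.Agent.H36.BP (EN fs wd Sub)
open Pool.Agent.H14.PP (IsCone CurveAt Tan)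
open Pool.Agent.H62.EF (MN pr)
open Pool.Agent.AD (Vd Chart Charts)
open Pool.Agent.TG (TMap Lat Geo Gd)

open Pool.Agent.TG (VForm JJ Fb TransAt)
open Pool.Agent.G3.C (HP)

variable {N k : ℕ}

/-- the finite set of the global sections -/
structure Csf (X : Set (EN N)) (Λ : AddSubgroup (Vd (k + 1))) (u : EN N → Vd (k + 1)) (D : Set (Vd (k + 1))) (S : Set (Vd (k + 1) → MN N)) : Prop where
  fin : S.Finite
  hol : ∀ Φ ∈ S, ∀ y ∉ D, ∃ φ : Vd (k + 1) → EN N, AnalyticAt ℂ φ y ∧ ∀ᶠ z in 𝓝 y, φ z ∈ X ∧ Φ z = pr (φ z) ∧ u (φ z) - z ∈ Λ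
  mer : ∀ Φ ∈ S, ∀ a : Vd (k + 1), a ≠ 0 → ∀ y, ∃ φ : Vd (k + 1) → EN N, AnalyticAt ℂ φ y ∧ (∃ᶠ w in 𝓝 (0 : ℂ), φ (y + w • a) ≠ 0) ∧
    ∀ᶠ z in 𝓝 y, z ∉ D → φ z ≠ 0 → Φ z = pr (φ z)
  tr : ∀ Φ ∈ S, ∀ l ∈ Λ, ∃ Φ' ∈ S, ∀ y ∉ D, Φ' y = Φ (y + l)
  cls : ∀ a : Vd (k + 1), a ≠ 0 → ∀ (b : Vd (k + 1)) (G : ℂ → EN N), Cv X Λ u Set.univ G (fun z => z • a + b) →
    ∃ Φ ∈ S, ∀ z : ℂ, z • a + b ∉ D → pr (G z) = Φ (z • a + b)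

/-- the torus contains no elliptic curve -/
def Simp (Λ : AddSubgroup (Vd (k + 1))) : Prop :=
  ∀ a : Vd (k + 1), a ≠ 0 → ∀ ω₁ ω₂ : ℂ, ω₁ • a ∈ Λ → ω₂ • a ∈ Λ → ¬ LinearIndependent ℝ ![ω₁, ω₂]

/-- bounds for the integrals along short paths -/
structure JBd (X : Set (EN N)) (Λ : AddSubgroup (Vd (k + 1))) (u : EN N → Vd (k + 1)) (D : Set (Vd (k + 1))) {J : ℕ} (α : Fin J → VForm X Λ u) (c₀ : ℝ) : Prop where
  pos : 0 < c₀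
  ub : ∀ δ : ℝ, 0 < δ → ∃ ε₀ C : ℝ, 0 < ε₀ ∧ 0 < C ∧ ∀ j, ∀ y ∈ Gd D δ, ∀ n ∈ Fb X Λ u y, ∀ n' ∈ Fb X Λ u y, dist n n' ≤ ε₀ →
    ‖JJ (α j) y n n'‖ ≤ C * Real.exp (-c₀ * ‖y‖ ^ 2) * dist n n'
  lb : ∀ δ R : ℝ, 0 < δ → ∃ ε₀ c : ℝ, 0 < ε₀ ∧ 0 < c ∧ ∀ y ∈ Gd D δ, ‖y‖ ≤ R → ∀ n ∈ Fb X Λ u y, ∀ n' ∈ Fb X Λ u y, dist n n' ≤ ε₀ →
    ∃ j, c * dist n n' ≤ ‖JJ (α j) y n n'‖

/-- every line has a half plane in which all hits of `D` are good -/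
def HPl (D B : Set (Vd (k + 1))) : Prop :=
  ∀ a : Vd (k + 1), a ≠ 0 → ∀ b : Vd (k + 1), ∃ (ω : ℂ) (η : ℝ), ‖ω‖ = 1 ∧ ∀ z ∈ HP ω η, z • a + b ∈ D → z • a + b ∉ B ∧ TransAt D (z • a + b) a

/-- the points of `D` on a line are isolated -/
def LDi (D : Set (Vd (k + 1))) : Prop := ∀ a : Vd (k + 1), a ≠ 0 → ∀ (b : Vd (k + 1)) (z : ℂ), ∀ᶠ w in 𝓝[≠] z, w • a + b ∉ D

/-- the limit situation: the curves `F n` over `h n` converge to the section `Φ` on the line `b + ℂ a` -/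
structure Lim (X : Set (EN N)) (Λ : AddSubgroup (Vd (k + 1))) (u : EN N → Vd (k + 1)) (D : Set (Vd (k + 1))) (𝒰 : Ultrafilter ℕ) (F : ℕ → ℂ → EN N)
    (h : ℕ → ℂ → Vd (k + 1)) (a b : Vd (k + 1)) (Φ : Vd (k + 1) → MN N) : Prop where
  cv : ∀ r : ℝ, ∀ᶠ n in (𝒰 : Filter ℕ), Cv X Λ u (ball 0 r) (F n) (h n)
  a_ne : a ≠ 0
  hlim : ∀ r ε : ℝ, 0 < ε → ∀ᶠ n in (𝒰 : Filter ℕ), ∀ z ∈ closedBall (0 : ℂ) r, ‖h n z - (z • a + b)‖ < ε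
  flim : ∀ K : Set ℂ, IsCompact K → (∀ z ∈ K, z • a + b ∉ D) → ∀ ε : ℝ, 0 < ε → ∀ᶠ n in (𝒰 : Filter ℕ), ∀ z ∈ K, dist (pr (F n z)) (Φ (z • a + b)) < ε

/-- Theorem LCT: there are no curves over nearly affine arcs such that `Lam (z) ≥ Lam (0) + log |E z|` approximately, with `E` holomorphic without zeros -/
def LCT (X : Set (EN N)) (Λ : AddSubgroup (Vd (k + 1))) (u : EN N → Vd (k + 1)) (Q : EN N → ℂ) (d : ℕ) (p : EN N → EN N → ℝ) (m : ℕ) : Prop :=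
  ∀ (𝒰 : Ultrafilter ℕ) (a : Vd (k + 1)) (F : ℕ → ℂ → EN N) (h : ℕ → ℂ → Vd (k + 1)) (E : ℕ → ℂ → ℂ), a ≠ 0 →
    (∀ r : ℝ, ∀ᶠ n in (𝒰 : Filter ℕ), Cv X Λ u (ball 0 r) (F n) (h n)) → (∀ᶠ n in (𝒰 : Filter ℕ), Ok Q p (F n) 0) →
    (∀ r ε : ℝ, 0 < ε → ∀ᶠ n in (𝒰 : Filter ℕ), ∀ z ∈ ball (0 : ℂ) r, ‖deriv (h n) z - a‖ ≤ ε) →
    (∀ r : ℝ, ∀ᶠ n in (𝒰 : Filter ℕ), DifferentiableOn ℂ (E n) (ball 0 r) ∧ (∀ z ∈ ball (0 : ℂ) r, E n z ≠ 0) ∧ E n 0 = 1) →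
    (∀ r ε : ℝ, 0 < ε → ∀ᶠ n in (𝒰 : Filter ℕ), ∀ z ∈ ball (0 : ℂ) r, Ok Q p (F n) z →
      Lam Q d p m (F n) (h n) 0 + Real.log ‖E n z‖ - ε ≤ Lam Q d p m (F n) (h n) z) → False

end Pool.Agent.G3
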