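import Pool.Agent.G3.Z.CDefs
import Pool.Agent.G3.A.JB
import Pool.Agent.G3.A.JN
import Pool.Agent.G3.A.FrmA

/-!
# G3 Z Jbd: the bounds for the integrals

From `Frm.dec`, `jb`, `jn` (stubs in `G3/A`), `TG.exists_cst`, `TG.jj_eq_II`.  (`Gd D δ` is antitone in `δ`.)
-/

set_option autoImplicit false

open Topology Filter Metric

namespace Pool.Agent.G3

open Pool.Agent.H36.BP (EN fs wd Sub)
open Pool.Agent.H14.PP (IsCone CurveAt Tan)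
open Pool.Agent.H62.EF (MN pr)
open Pool.Agent.AD (Vd Chart Charts)
open Pool.Agent.TG (TMap Lat Geo Gd)

open Pool.Agent.TG (VForm)

variable {N k : ℕ}

theorem jbd_of_frm {X : Set (EN N)} {Λ : AddSubgroup (Vd (k + 1))} {u : EN N → Vd (k + 1)} {D B : Set (Vd (k + 1))} (G : Geo X Λ u D B) {Γ : AddSubgroup (Vd (k + 1))} {J r : ℕ}
    {W : Fin r → Vd (k + 1) →L[ℂ] ℂ} {α : Fin J → VForm X Λ u} (h : A.Frm X Λ u D Γ W α) : ∃ c₀ : ℝ, JBd X Λ u D α c₀ := by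
  obtain ⟨c₀, C₀, hc₀, hC₀, hdec⟩ := h.dec G
  refine ⟨c₀, hc₀, fun δ hδ => ?_, fun δ R hδ => ?_⟩
  · obtain ⟨ε, ε₀, -, -, hc⟩ := Pool.Agent.TG.exists_cst G hδ one_pos
    choose C hC0 hC using fun j => A.jb G (hdec j) hC₀ hc
    have hs : 0 ≤ ∑ j, C j := Finset.sum_nonneg fun j _ => (hC0 j).le
    refine ⟨ε₀, 1 + ∑ j, C j, hc.ε₀_pos, by linarith, fun j y hy n hn n' hn' hd => ?_⟩
    rw [Pool.Agent.TG.jj_eq_II G.cone G.tor G.lat hc hy hn hn' hd]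
    have h1 : C j ≤ 1 + ∑ j, C j := by
      have h2 := Finset.single_le_sum (f := fun j => C j) (fun j _ => (hC0 j).le) (Finset.mem_univ j)
      linarith
    have e : -c₀ * ‖y‖ ^ 2 = -(c₀ * ‖y‖ ^ 2) := neg_mul _ _
    rw [e]
    exact (hC j y hy n hn n' hn' hd).trans
      (mul_le_mul_of_nonneg_right (mul_le_mul_of_nonneg_right h1 (Real.exp_nonneg _)) dist_nonneg)
  · obtain ⟨ε, ε₀, -, -, hc⟩ := Pool.Agent.TG.exists_cst G hδ one_pos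
    obtain ⟨ε₁, c, hε₁, hle, hc0, hb⟩ := A.jn G h.sep hc R
    refine ⟨ε₁, c, hε₁, hc0, fun y hy hyR n hn n' hn' hd => ?_⟩
    obtain ⟨j, hj⟩ := hb y hy hyR n hn n' hn' hd
    refine ⟨j, ?_⟩
    rwa [Pool.Agent.TG.jj_eq_II G.cone G.tor G.lat hc hy hn hn' (hd.trans hle)]

end Pool.Agent.G3
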