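import Pool.Agent.G3.C.LemmaU
import Pool.Agent.G3.A.Ul
import Pool.Agent.G3.Defs

/-!
# G3 Z Abs: the analytic lemma of the last step

`HP ω η` is a half plane.  The functions `g n` are, for `𝒰`-many `n`, holomorphic near each point of the half plane off the closed discrete set `Sg`; near the points of `Sg` in the half plane they
agree on an annulus with a holomorphic function on the disc; on circles of radius between `r₁` and `r₂` around all points of the half plane they are bounded by `C exp (-c |z|²)`.  Then they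
converge to `0` on the compact subsets of the smaller half plane off `Sg`.

Plan.  Put `η' = η + r₂`.  (1) For `z₀ ∈ HP ω η'` let `r` be the radius from `hb`; the compact disc `closedBall z₀ r ⊆ HP ω η` is covered by finitely many of the balls of `h1`, `h2`;
for `𝒰`-many `n` the functions `g n` (off `Sg`) and the functions `J` (near `Sg`) glue to a holomorphic function `W` on a neighbourhood of `closedBall z₀ r` (choose the balls around the points of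
`Sg ∩ closedBall z₀ r` pairwise disjoint and small, the circle avoids them; `J = g n` on the annulus `ρ/4 < |z - z₁| < ρ`, so by the identity theorem/gluing: `W = J` on the ball around `z₁ ∈ Sg`, `W = g n`
outside the balls of radius `ρ/2`).  Maximum principle: `‖W‖ ≤ C exp (-c (max 0 (‖z₀‖ - r₂))²)` on the disc, so `‖g n z‖ ≤ C' exp (-(c/2) ‖z‖²)` for `z` near `z₀`, `z` off the balls around `Sg`;
`C'` depends only on `C, c, r₂`.  Taking the balls around `Sg` smaller and smaller: for every compact `K ⊆ HP ω η' \ Sg`, `𝒰`-many `n`, all `z ∈ K`: `‖g n z‖ ≤ C' exp (-(c/2) ‖z‖²)`.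
(2) The limit along `𝒰` (pointwise on `HP ω η' \ Sg`, locally uniform because `g n` is holomorphic and locally bounded) is holomorphic on `HP ω η' \ Sg` and bounded, so it extends to a holomorphic `P` on
`HP ω η'` (removable singularities), `‖P z‖ exp ((c/2) ‖z‖²) ≤ C'`; `hp_zero` (`G3/C/LemmaU`) with `L z = (c/2) ‖z‖²` (mean over a circle of radius `1`: `L z + c/2`) gives `P = 0`.
-/

set_option autoImplicit false

open Topology Filter Metric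

namespace Pool.Agent.G3

open Pool.Agent.H36.BP (EN fs wd Sub)
open Pool.Agent.H14.PP (IsCone CurveAt Tan)
open Pool.Agent.H62.EF (MN pr)
open Pool.Agent.AD (Vd Chart Charts)
open Pool.Agent.TG (TMap Lat Geo Gd)

open Pool.Agent.G3.C (HP)

/-- gluing at finitely many discs -/
private theorem abs_glue {T : Finset ℂ} {ρ : ℂ → ℝ} (hd : ∀ s ∈ T, ∀ t ∈ T, s ≠ t → ρ s + ρ t ≤ dist s t) {J : ℂ → ℂ → ℂ} {G : ℂ → ℂ}
    (hJ : ∀ s ∈ T, DifferentiableOn ℂ (J s) (ball s (ρ s))) (hJG : ∀ s ∈ T, ∀ z, ρ s / 4 < dist z s → dist z s < ρ s → J s z = G z)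
    (hρ : ∀ s ∈ T, 0 < ρ s) {D : Set ℂ} (hG : ∀ z ∈ D, (∀ s ∈ T, ρ s ≤ dist z s) → DifferentiableAt ℂ G z) :
    ∃ W : ℂ → ℂ, (∀ z ∈ D, DifferentiableAt ℂ W z) ∧ ∀ z, (∀ s ∈ T, ρ s / 4 < dist z s) → W z = G z := by
  classical
  set W : ℂ → ℂ := fun z => if h : ∃ s ∈ T, dist z s < ρ s then J h.choose z else G z with hW
  have hWJ : ∀ s ∈ T, ∀ z ∈ ball s (ρ s), W z = J s z := by
    intro s hs z hz
    have h : ∃ s ∈ T, dist z s < ρ s := ⟨s, hs, hz⟩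
    have h1 : h.choose = s := by
      by_contra hne
      have h2 := hd _ h.choose_spec.1 s hs hne
      have h3 := h.choose_spec.2
      have h4 : dist z s < ρ s := hz
      have h5 := dist_triangle_left h.choose s z
      linarith
    simp only [hW]
    rw [dif_pos h, h1]
  have hWG : ∀ z, (∀ s ∈ T, ρ s / 4 < dist z s) → W z = G z := by
    intro z hz
    by_cases h : ∃ s ∈ T, dist z s < ρ s
    · obtain ⟨s, hs, hzs⟩ := h
      rw [hWJ s hs z hzs]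
      exact hJG s hs z (hz s hs) hzs
    · simp only [hW]
      rw [dif_neg h]
  refine ⟨W, ?_, hWG⟩
  intro z hz
  by_cases h : ∃ s ∈ T, dist z s < ρ s
  · obtain ⟨s, hs, hzs⟩ := h
    have h1 : DifferentiableAt ℂ (J s) z := (hJ s hs).differentiableAt (isOpen_ball.mem_nhds hzs)
    refine h1.congr_of_eventuallyEq ?_
    filter_upwards [isOpen_ball.mem_nhds hzs] with w hw
    exact hWJ s hs w hw
  · push Not at h
    refine (hG z hz h).congr_of_eventuallyEq ?_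
    have h2 : ∀ᶠ w in 𝓝 z, ∀ s ∈ T, ρ s / 4 < dist w s := by
      rw [Filter.eventually_all_finset]
      intro s hs
      have h3 : ρ s / 4 < dist z s := by linarith [h s hs, hρ s hs]
      exact (isOpen_lt continuous_const (continuous_id.dist continuous_const)).mem_nhds h3
    filter_upwards [h2] with w hw
    exact hWG w hw

private theorem abs_fin {Sg : Set ℂ} (hSd : ∀ z, ∀ᶠ w in 𝓝[≠] z, w ∉ Sg) {K : Set ℂ} (hK : IsCompact K) : (Sg ∩ K).Finite := by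
  by_contra h
  obtain ⟨x, -, hx⟩ := Set.Infinite.exists_accPt_of_subset_isCompact h hK Set.inter_subset_right
  rw [accPt_iff_frequently] at hx
  have h1 := hSd x
  rw [eventually_nhdsWithin_iff] at h1
  obtain ⟨w, ⟨hw1, hw2⟩, hw3⟩ := (hx.and_eventually h1).exists
  exact hw3 hw1 hw2.1

/-- the local bound -/
private theorem abs_lb (𝒰 : Ultrafilter ℕ) {ω : ℂ} (hω : ‖ω‖ = 1) {η r₁ r₂ c C : ℝ} (hr₁ : 0 < r₁) (hc : 0 < c) {Sg : Set ℂ}
    (hSc : IsClosed Sg) (hSd : ∀ z, ∀ᶠ w in 𝓝[≠] z, w ∉ Sg) {g : ℕ → ℂ → ℂ}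
    (h1 : ∀ z₀ ∈ HP ω η, z₀ ∉ Sg → ∃ r : ℝ, 0 < r ∧ ∀ᶠ n in (𝒰 : Filter ℕ), DifferentiableOn ℂ (g n) (ball z₀ r))
    (h2 : ∀ z₀ ∈ HP ω η, z₀ ∈ Sg → ∀ ε : ℝ, 0 < ε → ∃ r : ℝ, 0 < r ∧ r < ε ∧
      ∀ᶠ n in (𝒰 : Filter ℕ), ∃ J : ℂ → ℂ, DifferentiableOn ℂ J (ball z₀ r) ∧ ∀ z, r / 4 < dist z z₀ → dist z z₀ < r → J z = g n z)
    (hb : ∀ z₀ ∈ HP ω (η + r₂), ∃ r ∈ Set.Icc r₁ r₂, (∀ z, dist z z₀ = r → z ∉ Sg) ∧
      ∀ᶠ n in (𝒰 : Filter ℕ), ∀ z, dist z z₀ = r → ‖g n z‖ ≤ C * Real.exp (-c * ‖z‖ ^ 2)) {z₀ : ℂ} (hz₀ : z₀ ∈ HP ω (η + r₂)) (hz₀S : z₀ ∉ Sg) :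
    ∃ δ : ℝ, 0 < δ ∧ ball z₀ δ ⊆ HP ω (η + r₂) \ Sg ∧ ∀ᶠ n in (𝒰 : Filter ℕ), DifferentiableOn ℂ (g n) (ball z₀ δ) ∧
      ∀ z ∈ ball z₀ δ, ‖g n z‖ ≤ |C| * Real.exp (-c * (max 0 (‖z₀‖ - r₂)) ^ 2) := by
  classical
  obtain ⟨r, ⟨hr1, hr2⟩, hcS, hcb⟩ := hb z₀ hz₀
  have hr0 : 0 < r := hr₁.trans_le hr1
  have hD : closedBall z₀ r ⊆ HP ω η := by
    intro z hz
    rw [mem_closedBall, dist_eq_norm] at hz
    have h3 := (Pool.Agent.G3.C.im_sub_le hω z z₀).trans hz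
    rw [abs_le] at h3
    have h4 : η + r₂ < ((starRingEnd ℂ) ω * z₀).im := hz₀
    show η < ((starRingEnd ℂ) ω * z).im
    linarith [h3.1]
  obtain ⟨r', hr', hdr'⟩ := h1 z₀ (hD (mem_closedBall_self hr0.le)) hz₀S
  have hopen : IsOpen (HP ω (η + r₂) \ Sg) := (Pool.Agent.G3.C.isOpen_HP ω _).sdiff hSc
  obtain ⟨δ₀, hδ₀, hδ₀s⟩ := Metric.isOpen_iff.1 hopen z₀ ⟨hz₀, hz₀S⟩
  obtain ⟨δ, hδ, hδa, hδb, hδc⟩ : ∃ δ : ℝ, 0 < δ ∧ δ ≤ δ₀ / 2 ∧ δ ≤ r' ∧ δ ≤ r₁ :=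
    ⟨min (δ₀ / 2) (min r' r₁), lt_min (by linarith) (lt_min hr' hr₁), min_le_left _ _, (min_le_right _ _).trans (min_le_left _ _),
      (min_le_right _ _).trans (min_le_right _ _)⟩
  have hfin : (Sg ∩ closedBall z₀ r).Finite := abs_fin hSd (isCompact_closedBall z₀ r)
  obtain ⟨T, hTmem⟩ : ∃ T : Finset ℂ, ∀ s, s ∈ T ↔ s ∈ Sg ∧ s ∈ closedBall z₀ r := ⟨hfin.toFinset, fun s => by rw [hfin.mem_toFinset]; rfl⟩
  have hTr : ∀ s ∈ T, dist s z₀ < r := by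
    intro s hs
    obtain ⟨hs1, hs2⟩ := (hTmem s).1 hs
    rcases (mem_closedBall.1 hs2).lt_or_eq with h | h
    · exact h
    · exact absurd hs1 (hcS s h)
  have hTδ : ∀ s ∈ T, δ₀ ≤ dist s z₀ := by
    intro s hs
    by_contra hlt
    push Not at hlt
    exact (hδ₀s (mem_ball.2 hlt)).2 ((hTmem s).1 hs).1
  obtain ⟨ε, hε0, hεT, hεr, hεδ⟩ : ∃ ε : ℝ, 0 < ε ∧ (∀ s ∈ T, ∀ t ∈ T, s ≠ t → 2 * ε ≤ dist s t) ∧ (∀ s ∈ T, ε ≤ r - dist s z₀) ∧ ε ≤ δ := by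
    have key : ∀ a : ℝ, 0 < a → ∀ᶠ ε in 𝓝[>] (0 : ℝ), ε ≤ a := fun a ha => by
      filter_upwards [Ioo_mem_nhdsGT ha] with ε hε using hε.2.le
    have e1 : ∀ᶠ ε in 𝓝[>] (0 : ℝ), ∀ s ∈ T, ∀ t ∈ T, s ≠ t → 2 * ε ≤ dist s t := by
      rw [Filter.eventually_all_finset]
      intro s hs
      rw [Filter.eventually_all_finset]
      intro t ht
      by_cases hst : s = t
      · exact Eventually.of_forall fun ε h => absurd hst h
      · filter_upwards [key (dist s t / 2) (by have := dist_pos.2 hst; positivity)] with ε hε _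
        linarith
    have e2 : ∀ᶠ ε in 𝓝[>] (0 : ℝ), ∀ s ∈ T, ε ≤ r - dist s z₀ := by
      rw [Filter.eventually_all_finset]
      intro s hs
      exact key _ (by linarith [hTr s hs])
    have e4 : ∀ᶠ ε in 𝓝[>] (0 : ℝ), 0 < ε := self_mem_nhdsWithin
    obtain ⟨ε, hε1, hε2, hε3, hε4⟩ := (e1.and (e2.and ((key δ hδ).and e4))).exists
    exact ⟨ε, hε4, hε1, hε2, hε3⟩
  have h3 : ∀ s, ∃ ρ : ℝ, s ∈ T → 0 < ρ ∧ ρ < ε ∧ ∀ᶠ n in (𝒰 : Filter ℕ), ∃ J : ℂ → ℂ, DifferentiableOn ℂ J (ball s ρ) ∧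
      ∀ z, ρ / 4 < dist z s → dist z s < ρ → J z = g n z := by
    intro s
    by_cases hs : s ∈ T
    · obtain ⟨ρ, h3⟩ := h2 s (hD ((hTmem s).1 hs).2) ((hTmem s).1 hs).1 ε hε0
      exact ⟨ρ, fun _ => h3⟩
    · exact ⟨0, fun h => absurd h hs⟩
  choose ρ hρ using h3
  have hJ : ∀ᶠ n in (𝒰 : Filter ℕ), ∀ s ∈ T, ∃ J : ℂ → ℂ, DifferentiableOn ℂ J (ball s (ρ s)) ∧
      ∀ z, ρ s / 4 < dist z s → dist z s < ρ s → J z = g n z := by
    rw [Filter.eventually_all_finset]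
    intro s hs
    exact (hρ s hs).2.2
  set Q : Set ℂ := closedBall z₀ r \ ⋃ s ∈ T, ball s (ρ s) with hQ
  have hQc : IsCompact Q := (isCompact_closedBall z₀ r).diff (isOpen_biUnion fun s _ => isOpen_ball)
  have hQS : ∀ z ∈ Q, z ∉ Sg := by
    intro z hz hzS
    have h4 : z ∈ T := (hTmem z).2 ⟨hzS, hz.1⟩
    apply hz.2
    rw [Set.mem_iUnion₂]
    exact ⟨z, h4, mem_ball_self (hρ z h4).1⟩
  have hQd : ∀ᶠ n in (𝒰 : Filter ℕ), ∀ z ∈ Q, DifferentiableAt ℂ (g n) z := by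
    refine hQc.induction_on (p := fun S => ∀ᶠ n in (𝒰 : Filter ℕ), ∀ z ∈ S, DifferentiableAt ℂ (g n) z) ?_ ?_ ?_ ?_
    · exact Eventually.of_forall fun n z hz => absurd hz (Set.notMem_empty z)
    · intro s t hst ht
      filter_upwards [ht] with n hn z hz
      exact hn z (hst hz)
    · intro s t hs ht
      filter_upwards [hs, ht] with n hn1 hn2 z hz
      rcases hz with hz | hz
      · exact hn1 z hz
      · exact hn2 z hz
    · intro x hx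
      obtain ⟨a, ha, h4⟩ := h1 x (hD hx.1) (hQS x hx)
      refine ⟨ball x a, mem_nhdsWithin_of_mem_nhds (ball_mem_nhds x ha), ?_⟩
      filter_upwards [h4] with n hn z hz
      exact hn.differentiableAt (isOpen_ball.mem_nhds hz)
  refine ⟨δ, hδ, (ball_subset_ball (by linarith)).trans hδ₀s, ?_⟩
  filter_upwards [hJ, hQd, hcb, hdr'] with n hn1 hn2 hn3 hn4
  refine ⟨hn4.mono (ball_subset_ball hδb), ?_⟩
  intro z hz
  choose! J hJ1 using hn1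
  obtain ⟨W, hW1, hW2⟩ := abs_glue (T := T) (ρ := ρ) (J := J) (G := g n) (D := closedBall z₀ r)
    (by
      intro s hs t ht hst
      have := hεT s hs t ht hst
      linarith [(hρ s hs).2.1, (hρ t ht).2.1])
    (fun s hs => (hJ1 s hs).1) (fun s hs => (hJ1 s hs).2) (fun s hs => (hρ s hs).1)
    (by
      intro w hw hws
      refine hn2 w ⟨hw, ?_⟩
      rw [Set.mem_iUnion₂]
      rintro ⟨s, hs, hws'⟩
      exact absurd (hws s hs) (not_le.2 hws'))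
  have hzr : z ∈ closedBall z₀ r := by
    rw [mem_ball] at hz
    rw [mem_closedBall]
    linarith
  have hWz : W z = g n z := by
    refine hW2 z fun s hs => ?_
    have h5 := hTδ s hs
    have h6 := dist_triangle_right s z₀ z
    rw [mem_ball] at hz
    have h7 := (hρ s hs).2.1
    have h8 := (hρ s hs).1
    rw [dist_comm s z, dist_comm z₀ z] at h6
    linarith
  rw [← hWz]
  have hWd : DiffContOnCl ℂ W (ball z₀ r) := by
    refine ⟨fun w hw => (hW1 w (ball_subset_closedBall hw)).differentiableWithinAt, ?_⟩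
    rw [closure_ball _ hr0.ne']
    exact fun w hw => (hW1 w hw).continuousAt.continuousWithinAt
  refine Complex.norm_le_of_forall_mem_frontier_norm_le isBounded_ball hWd ?_ (by rw [closure_ball _ hr0.ne']; exact hzr)
  intro w hw
  rw [frontier_ball _ hr0.ne', mem_sphere] at hw
  have hWw : W w = g n w := by
    refine hW2 w fun s hs => ?_
    have h5 := hεr s hs
    have h6 := dist_triangle_right w z₀ s
    have h7 := (hρ s hs).2.1
    have h8 := (hρ s hs).1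
    rw [hw, dist_comm z₀ s] at h6
    linarith
  rw [hWw]
  refine (hn3 w hw).trans ?_
  refine mul_le_mul (le_abs_self C) ?_ (Real.exp_pos _).le (abs_nonneg C)
  rw [Real.exp_le_exp]
  have h9 : max 0 (‖z₀‖ - r₂) ≤ ‖w‖ := by
    refine max_le (norm_nonneg _) ?_
    have h10 := norm_sub_norm_le z₀ w
    rw [← dist_eq_norm, dist_comm, hw] at h10
    linarith
  have h11 : (max 0 (‖z₀‖ - r₂)) ^ 2 ≤ ‖w‖ ^ 2 := pow_le_pow_left₀ (le_max_left _ _) h9 2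
  nlinarith

private theorem abs_circ (c : ℝ) (z : ℂ) : Real.circleAverage (fun w : ℂ => c / 2 * ‖w‖ ^ 2) z 1 = c / 2 * ‖z‖ ^ 2 + c / 2 := by
  set F : ℂ → ℂ := fun w => ((c / 2 * ‖z‖ ^ 2 + c / 2 : ℝ) : ℂ) + (c : ℂ) * ((starRingEnd ℂ) z * (w - z)) with hF
  have hFd : Differentiable ℂ F := by
    intro w
    simp only [hF]
    fun_prop
  have e1 : Real.circleAverage (fun w : ℂ => c / 2 * ‖w‖ ^ 2) z 1 = Real.circleAverage (Complex.reCLM ∘ F) z 1 := by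
    refine Real.circleAverage_congr_sphere ?_
    intro w hw
    rw [abs_one, mem_sphere, dist_eq_norm] at hw
    show c / 2 * ‖w‖ ^ 2 = (F w).re
    simp only [hF]
    rw [Complex.add_re, Complex.ofReal_re, Complex.re_ofReal_mul]
    have h1 : ‖w - z‖ ^ 2 = 1 := by rw [hw]; norm_num
    rw [Complex.sq_norm, Complex.normSq_apply] at h1
    rw [Complex.sq_norm, Complex.sq_norm, Complex.normSq_apply, Complex.normSq_apply]
    simp only [Complex.sub_re, Complex.sub_im] at h1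
    simp only [Complex.mul_re, Complex.sub_re, Complex.sub_im, Complex.conj_re, Complex.conj_im]
    linear_combination (c / 2) * h1
  rw [e1, ContinuousLinearMap.circleAverage_comp_comm]
  · rw [DiffContOnCl.circleAverage hFd.diffContOnCl]
    have h1 : F z = ((c / 2 * ‖z‖ ^ 2 + c / 2 : ℝ) : ℂ) := by
      simp only [hF, sub_self, mul_zero, add_zero]
    rw [h1]
    exact Complex.ofReal_re _
  · exact hFd.continuous.continuousOn.circleIntegrable'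

theorem abs_zero (𝒰 : Ultrafilter ℕ) {ω : ℂ} (hω : ‖ω‖ = 1) {η r₁ r₂ c C : ℝ} (hr₁ : 0 < r₁) (hr : r₁ ≤ r₂) (hc : 0 < c) {Sg : Set ℂ} (hSc : IsClosed Sg)
    (hSd : ∀ z, ∀ᶠ w in 𝓝[≠] z, w ∉ Sg) {g : ℕ → ℂ → ℂ}
    (h1 : ∀ z₀ ∈ HP ω η, z₀ ∉ Sg → ∃ r : ℝ, 0 < r ∧ ∀ᶠ n in (𝒰 : Filter ℕ), DifferentiableOn ℂ (g n) (ball z₀ r))
    (h2 : ∀ z₀ ∈ HP ω η, z₀ ∈ Sg → ∀ ε : ℝ, 0 < ε → ∃ r : ℝ, 0 < r ∧ r < ε ∧
      ∀ᶠ n in (𝒰 : Filter ℕ), ∃ J : ℂ → ℂ, DifferentiableOn ℂ J (ball z₀ r) ∧ ∀ z, r / 4 < dist z z₀ → dist z z₀ < r → J z = g n z)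
    (hb : ∀ z₀ ∈ HP ω (η + r₂), ∃ r ∈ Set.Icc r₁ r₂, (∀ z, dist z z₀ = r → z ∉ Sg) ∧
      ∀ᶠ n in (𝒰 : Filter ℕ), ∀ z, dist z z₀ = r → ‖g n z‖ ≤ C * Real.exp (-c * ‖z‖ ^ 2)) :
    ∀ K ⊆ HP ω (η + r₂) \ Sg, IsCompact K → ∀ ε : ℝ, 0 < ε → ∀ᶠ n in (𝒰 : Filter ℕ), ∀ z ∈ K, ‖g n z‖ < ε := by
  classical
  have hVo : IsOpen (HP ω (η + r₂) \ Sg) := (Pool.Agent.G3.C.isOpen_HP ω _).sdiff hSc
  have hlim : ∀ z₀, ∃ (δ : ℝ) (K : ℂ → ℂ), z₀ ∈ HP ω (η + r₂) \ Sg → 0 < δ ∧ ball z₀ δ ⊆ HP ω (η + r₂) \ Sg ∧ DifferentiableOn ℂ K (ball z₀ δ) ∧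
      (∀ z ∈ ball z₀ δ, ‖K z‖ ≤ |C| * Real.exp (-c * (max 0 (‖z₀‖ - r₂)) ^ 2)) ∧
      ∀ z ∈ ball z₀ δ, ∀ w : ℕ → ℂ, Tendsto w (𝒰 : Filter ℕ) (𝓝 z) → Tendsto (fun n => g n (w n)) (𝒰 : Filter ℕ) (𝓝 (K z)) := by
    intro z₀
    by_cases hz : z₀ ∈ HP ω (η + r₂) \ Sg
    · obtain ⟨δ, hδ, hδs, h⟩ := abs_lb 𝒰 hω hr₁ hc hSc hSd h1 h2 hb hz.1 hz.2
      obtain ⟨K, hK1, hK2, hK3⟩ := Pool.Agent.G3.A.ul_diff h
      exact ⟨δ, K, fun _ => ⟨hδ, hδs, hK1, hK2, hK3⟩⟩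
    · exact ⟨0, fun _ => 0, fun h => absurd h hz⟩
  choose δ K hK using hlim
  obtain ⟨P, hP⟩ : ∃ P : ℂ → ℂ, ∀ z, P z = K z z := ⟨fun z => K z z, fun z => rfl⟩
  have hPt : ∀ z ∈ HP ω (η + r₂) \ Sg, ∀ w : ℕ → ℂ, Tendsto w (𝒰 : Filter ℕ) (𝓝 z) → Tendsto (fun n => g n (w n)) (𝒰 : Filter ℕ) (𝓝 (P z)) := by
    intro z hz w hw
    rw [hP]
    exact (hK z hz).2.2.2.2 z (mem_ball_self (hK z hz).1) w hw
  have hPK : ∀ z₀ ∈ HP ω (η + r₂) \ Sg, ∀ z ∈ ball z₀ (δ z₀), P z = K z₀ z := by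
    intro z₀ hz₀ z hz
    have hzV := (hK z₀ hz₀).2.1 hz
    exact tendsto_nhds_unique (hPt z hzV (fun _ => z) tendsto_const_nhds) ((hK z₀ hz₀).2.2.2.2 z hz (fun _ => z) tendsto_const_nhds)
  have hPd : ∀ z ∈ HP ω (η + r₂) \ Sg, DifferentiableAt ℂ P z := by
    intro z₀ hz₀
    have h3 : DifferentiableAt ℂ (K z₀) z₀ := (hK z₀ hz₀).2.2.1.differentiableAt (ball_mem_nhds _ (hK z₀ hz₀).1)
    refine h3.congr_of_eventuallyEq ?_
    filter_upwards [ball_mem_nhds z₀ (hK z₀ hz₀).1] with z hz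
    exact hPK z₀ hz₀ z hz
  have hPb : ∀ z ∈ HP ω (η + r₂) \ Sg, ‖P z‖ ≤ |C| * Real.exp (-c * (max 0 (‖z‖ - r₂)) ^ 2) := by
    intro z hz
    rw [hP]
    exact (hK z hz).2.2.2.1 z (mem_ball_self (hK z hz).1)
  have hPb1 : ∀ z ∈ HP ω (η + r₂) \ Sg, ‖P z‖ ≤ |C| := by
    intro z hz
    refine (hPb z hz).trans (mul_le_of_le_one_right (abs_nonneg C) ?_)
    rw [Real.exp_le_one_iff]
    nlinarith [sq_nonneg (max 0 (‖z‖ - r₂))]
  -- extension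
  obtain ⟨Q, hQS, hQP⟩ : ∃ Q : ℂ → ℂ, (∀ z ∈ Sg, Q z = limUnder (𝓝[≠] z) P) ∧ ∀ z, z ∉ Sg → Q z = P z :=
    ⟨fun z => if z ∈ Sg then limUnder (𝓝[≠] z) P else P z, fun z hz => if_pos hz, fun z hz => if_neg hz⟩
  have hQd : ∀ z ∈ HP ω (η + r₂), DifferentiableAt ℂ Q z := by
    intro z hz
    by_cases hzS : z ∈ Sg
    · have h3 : ∀ᶠ w in 𝓝[≠] z, w ∉ Sg := hSd z
      rw [eventually_nhdsWithin_iff] at h3
      obtain ⟨a, ha, h4⟩ := Metric.eventually_nhds_iff_ball.1 (h3.and ((Pool.Agent.G3.C.isOpen_HP ω (η + r₂)).mem_nhds hz))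
      have h5 : DifferentiableOn ℂ (Function.update P z (limUnder (𝓝[≠] z) P)) (ball z a) := by
        refine Complex.differentiableOn_update_limUnder_of_bddAbove (ball_mem_nhds z ha) ?_ ?_
        · intro w hw
          exact (hPd w ⟨(h4 w hw.1).2, (h4 w hw.1).1 hw.2⟩).differentiableWithinAt
        · refine ⟨|C|, ?_⟩
          rintro _ ⟨w, hw, rfl⟩
          exact hPb1 w ⟨(h4 w hw.1).2, (h4 w hw.1).1 hw.2⟩
      refine (h5.differentiableAt (ball_mem_nhds z ha)).congr_of_eventuallyEq ?_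
      filter_upwards [ball_mem_nhds z ha] with w hw
      by_cases hwz : w = z
      · rw [hwz, Function.update_self]
        exact hQS z hzS
      · rw [Function.update_of_ne hwz]
        exact hQP w ((h4 w hw).1 hwz)
    · refine (hPd z ⟨hz, hzS⟩).congr_of_eventuallyEq ?_
      filter_upwards [hSc.isOpen_compl.mem_nhds hzS] with w hw
      exact hQP w hw
  have hexp : ∀ z : ℂ, Real.exp (-c * (max 0 (‖z‖ - r₂)) ^ 2) * Real.exp (c / 2 * ‖z‖ ^ 2) ≤ Real.exp (c * r₂ ^ 2) := by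
    intro z
    rw [← Real.exp_add, Real.exp_le_exp]
    rcases le_total 0 (‖z‖ - r₂) with h | h
    · rw [max_eq_right h]
      nlinarith [mul_nonneg hc.le (sq_nonneg (‖z‖ - 2 * r₂))]
    · rw [max_eq_left h]
      have h3 := norm_nonneg z
      have h4 : ‖z‖ ^ 2 ≤ r₂ ^ 2 := pow_le_pow_left₀ h3 (by linarith) 2
      nlinarith [sq_nonneg r₂]
  have hPe : ∀ z ∈ HP ω (η + r₂) \ Sg, ‖P z‖ * Real.exp (c / 2 * ‖z‖ ^ 2) ≤ |C| * Real.exp (c * r₂ ^ 2) := by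
    intro z hz
    calc ‖P z‖ * Real.exp (c / 2 * ‖z‖ ^ 2) ≤ |C| * Real.exp (-c * (max 0 (‖z‖ - r₂)) ^ 2) * Real.exp (c / 2 * ‖z‖ ^ 2) :=
          mul_le_mul_of_nonneg_right (hPb z hz) (Real.exp_pos _).le
      _ = |C| * (Real.exp (-c * (max 0 (‖z‖ - r₂)) ^ 2) * Real.exp (c / 2 * ‖z‖ ^ 2)) := by ring
      _ ≤ |C| * Real.exp (c * r₂ ^ 2) := mul_le_mul_of_nonneg_left (hexp z) (abs_nonneg C)
  have hQe : ∀ z ∈ HP ω (η + r₂), ‖Q z‖ * Real.exp (c / 2 * ‖z‖ ^ 2) ≤ |C| * Real.exp (c * r₂ ^ 2) := by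
    intro z hz
    by_cases hzS : z ∈ Sg
    · have hcont : ContinuousAt (fun w : ℂ => ‖Q w‖ * Real.exp (c / 2 * ‖w‖ ^ 2)) z := by
        refine (hQd z hz).continuousAt.norm.mul ?_
        fun_prop
      have ht : Tendsto (fun w : ℂ => ‖Q w‖ * Real.exp (c / 2 * ‖w‖ ^ 2)) (𝓝[≠] z) (𝓝 (‖Q z‖ * Real.exp (c / 2 * ‖z‖ ^ 2))) :=
        hcont.tendsto.mono_left nhdsWithin_le_nhds
      refine le_of_tendsto ht ?_
      filter_upwards [hSd z, mem_nhdsWithin_of_mem_nhds ((Pool.Agent.G3.C.isOpen_HP ω (η + r₂)).mem_nhds hz)] with w hw1 hw2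
      rw [hQP w hw1]
      exact hPe w ⟨hw2, hw1⟩
    · rw [hQP z hzS]
      exact hPe z ⟨hz, hzS⟩
  have hQ0 : ∀ z ∈ HP ω (η + r₂), Q z = 0 :=
    Pool.Agent.G3.C.hp_zero hω (L := fun z : ℂ => c / 2 * ‖z‖ ^ 2) (c := c / 2) (R₀ := 1) (fun z hz => (hQd z hz).differentiableWithinAt)
      (by fun_prop) (by positivity) one_pos hQe (fun z _ => (abs_circ c z).ge)
  -- conclusion
  intro K' hK' hK'c ε hε
  by_contra hcon
  rw [← Ultrafilter.eventually_not] at hcon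
  have h3 : ∀ n, ∃ z, (¬ ∀ z ∈ K', ‖g n z‖ < ε) → z ∈ K' ∧ ε ≤ ‖g n z‖ := by
    intro n
    by_cases h : ∀ z ∈ K', ‖g n z‖ < ε
    · exact ⟨0, fun h' => absurd h h'⟩
    · push Not at h
      obtain ⟨z, hz1, hz2⟩ := h
      exact ⟨z, fun _ => ⟨hz1, hz2⟩⟩
  choose w hw using h3
  obtain ⟨z, hzK, hz⟩ := hK'c.ultrafilter_le_nhds (𝒰.map w) (by
    rw [Ultrafilter.coe_map, le_principal_iff, mem_map]
    filter_upwards [hcon] with n hn
    exact (hw n hn).1)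
  have h5 := hPt z (hK' hzK) w hz
  have h6 : P z = 0 := by
    rw [← hQP z (hK' hzK).2]
    exact hQ0 z (hK' hzK).1
  rw [h6] at h5
  have h7 := h5.norm
  rw [norm_zero] at h7
  obtain ⟨n, h9, h10⟩ := ((h7.eventually (gt_mem_nhds hε)).and hcon).exists
  exact absurd h9 (not_lt.2 (hw n h10).2)

end Pool.Agent.G3
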