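import Pool.Agent.G3.Z.CDefs

/-!
# G3 Z Circ: circles on lines which avoid a periodic closed set

Plan.  For fixed `b` the set `{z : z • a + b ∈ S}` is closed and countable, so the set of its norms is countable and some radius `ρ ∈ (r₂/2, r₂)` is not in it; the circle is compact and `S` closed, so its
distance from `S` is positive, also for nearby `b'` (half of it).  Compactness modulo the lattice `Γ` (`Lat.cpt`; `S` is `Γ`-invariant): finitely many `b` suffice.  `r₁ = r₂ / 2`.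
-/

set_option autoImplicit false

open Topology Filter Metric

namespace Pool.Agent.G3

open Pool.Agent.H36.BP (EN fs wd Sub)
open Pool.Agent.H14.PP (IsCone CurveAt Tan)
open Pool.Agent.H62.EF (MN pr)
open Pool.Agent.AD (Vd Chart Charts)
open Pool.Agent.TG (TMap Lat Geo Gd)

variable {k : ℕ}

/-- the local statement: a uniform distance for all `b'` near `b` -/
private theorem circ_loc {A : Set (Vd (k + 1))} (hA : IsClosed A) {a : Vd (k + 1)} (b : Vd (k + 1))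
    (hc : Set.Countable {z : ℂ | z • a + b ∈ A}) {r₂ : ℝ} (hr₂ : 0 < r₂) :
    ∃ δ r : ℝ, 0 < δ ∧ r ∈ Set.Icc (r₂ / 2) r₂ ∧ ∀ b' ∈ ball b δ, ∀ z : ℂ, ‖z‖ = r → ∀ w ∈ A, δ ≤ ‖z • a + b' - w‖ := by
  have h1 : ((fun z : ℂ => ‖z‖) '' {z : ℂ | z • a + b ∈ A}).Countable := hc.image _
  have h2 : Dense ((fun z : ℂ => ‖z‖) '' {z : ℂ | z • a + b ∈ A})ᶜ := h1.dense_compl ℝ
  obtain ⟨r, hrI, hrn⟩ := h2.inter_open_nonempty (Set.Ioo (r₂ / 2) r₂) isOpen_Ioo (Set.nonempty_Ioo.2 (by linarith))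
  set K : Set (Vd (k + 1)) := (fun z : ℂ => z • a + b) '' sphere (0 : ℂ) r with hKd
  have hK : IsCompact K := (isCompact_sphere (0 : ℂ) r).image (by fun_prop)
  have hd : Disjoint K A := by
    rw [Set.disjoint_left]
    rintro x ⟨z, hz, rfl⟩ hx
    exact hrn ⟨z, hx, mem_sphere_zero_iff_norm.1 hz⟩
  obtain ⟨δ, hδ, hdis⟩ := hd.exists_thickenings hK hA
  refine ⟨δ / 2, r, by positivity, ⟨hrI.1.le, hrI.2.le⟩, ?_⟩
  intro b' hb' z hz w hw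
  have hzK : z • a + b ∈ K := ⟨z, mem_sphere_zero_iff_norm.2 hz, rfl⟩
  have h3 : δ ≤ ‖z • a + b - w‖ := by
    by_contra hlt
    rw [not_le] at hlt
    have h4 : w ∈ thickening δ K := by
      rw [mem_thickening_iff]
      exact ⟨z • a + b, hzK, by rw [dist_comm, dist_eq_norm]; exact hlt⟩
    exact Set.disjoint_left.1 hdis h4 (self_subset_thickening hδ A hw)
  have h5 : ‖b - b'‖ < δ / 2 := by
    rw [← dist_eq_norm, dist_comm]
    exact hb'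
  have h6 : ‖z • a + b - w‖ ≤ ‖z • a + b' - w‖ + ‖b - b'‖ := by
    have h7 : z • a + b - w = (z • a + b' - w) + (b - b') := by abel
    rw [h7]
    exact norm_add_le _ _
  linarith

theorem circ {A : Set (Vd (k + 1))} (hA : IsClosed A) {Γ : AddSubgroup (Vd (k + 1))} (hΓ : Lat Γ) (hinv : ∀ y ∈ A, ∀ l ∈ Γ, y + l ∈ A) {a : Vd (k + 1)}
    (hc : ∀ b : Vd (k + 1), Set.Countable {z : ℂ | z • a + b ∈ A}) {r₂ : ℝ} (hr₂ : 0 < r₂) :
    ∃ δ r₁ : ℝ, 0 < δ ∧ 0 < r₁ ∧ r₁ ≤ r₂ ∧ ∀ b : Vd (k + 1), ∃ r ∈ Set.Icc r₁ r₂, ∀ z : ℂ, ‖z‖ = r → ∀ w ∈ A, δ ≤ ‖z • a + b - w‖ := by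
  obtain ⟨R, -, hR⟩ := hΓ.cpt
  have key : ∃ δ : ℝ, 0 < δ ∧ ∀ b ∈ closedBall (0 : Vd (k + 1)) R, ∃ r ∈ Set.Icc (r₂ / 2) r₂, ∀ z : ℂ, ‖z‖ = r → ∀ w ∈ A, δ ≤ ‖z • a + b - w‖ := by
    refine (isCompact_closedBall (0 : Vd (k + 1)) R).induction_on
      (p := fun S => ∃ δ : ℝ, 0 < δ ∧ ∀ b ∈ S, ∃ r ∈ Set.Icc (r₂ / 2) r₂, ∀ z : ℂ, ‖z‖ = r → ∀ w ∈ A, δ ≤ ‖z • a + b - w‖) ?_ ?_ ?_ ?_
    · exact ⟨1, one_pos, fun b hb => absurd hb (Set.notMem_empty b)⟩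
    · rintro s t hst ⟨δ, hδ, h⟩
      exact ⟨δ, hδ, fun b hb => h b (hst hb)⟩
    · rintro s t ⟨δ, hδ, h⟩ ⟨δ', hδ', h'⟩
      refine ⟨min δ δ', lt_min hδ hδ', fun b hb => ?_⟩
      rcases hb with hb | hb
      · obtain ⟨r, hr, hz⟩ := h b hb
        exact ⟨r, hr, fun z hzr w hw => (min_le_left _ _).trans (hz z hzr w hw)⟩
      · obtain ⟨r, hr, hz⟩ := h' b hb
        exact ⟨r, hr, fun z hzr w hw => (min_le_right _ _).trans (hz z hzr w hw)⟩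
    · intro b _
      obtain ⟨δ, r, hδ, hr, h⟩ := circ_loc hA b (hc b) hr₂
      exact ⟨ball b δ, mem_nhdsWithin_of_mem_nhds (ball_mem_nhds b hδ), δ, hδ, fun b' hb' => ⟨r, hr, h b' hb'⟩⟩
  obtain ⟨δ, hδ, h⟩ := key
  refine ⟨δ, r₂ / 2, hδ, by linarith, by linarith, fun b => ?_⟩
  obtain ⟨l, hl, hbl⟩ := hR b
  obtain ⟨r, hr, hz⟩ := h (b - l) (mem_closedBall_zero_iff.2 hbl)
  refine ⟨r, hr, fun z hzr w hw => ?_⟩
  have h1 := hz z hzr (w + -l) (hinv w hw (-l) (Γ.neg_mem hl))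
  have h2 : z • a + (b - l) - (w + -l) = z • a + b - w := by abel
  rwa [h2] at h1

end Pool.Agent.G3
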