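import Pool.Agent.G3.P.Ahl

/-!
# G3 Z Mean: Jensen's inequality for the functional

`lq_mean`: `circleAverage (Lq (F ·)) 0 r ≤ Lq (F 0) + d TT F 0 r` (Jensen for the holomorphic function `Q ∘ F`; `Lq (F z) = d log ‖F z‖ - log ‖Q (F z)‖`), with circle integrability.

`mean_bd`: if `c₀ ≤ ‖h'‖ ≤ H` then `circleAverage Lam 0 r ≤ Lam 0 + K`.
Plan.  `p ≤ P₁ := (C₁ (1/(R-r) + H))^m` on the circle (`ahl`).  For `p > 0`: `Np = max 0 (m log ‖h'‖ - log p) ≤ m log ‖h'‖ - log p + max 0 (log P₁ - m log c₀) ≤ K₂ - log p`.  So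
`circleAverage Np ≤ K₂ - circleAverage (log p) ≤ K₂ - log p (0) - TT F 0 r + C H² r²` (`hP.jensen`; zeros of `p` on the circle: isolated, `hP.isol`, so almost everywhere `p > 0`) and
`- log p (0) ≤ Np (0) - m log ‖h' 0‖ ≤ Np (0) - m log c₀`.  Multiply by `d` and add `lq_mean`: the terms `d TT` cancel.
-/

set_option autoImplicit false

open Topology Filter Metric

namespace Pool.Agent.G3

open Pool.Agent.H36.BP (EN fs wd Sub)
open Pool.Agent.H14.PP (IsCone CurveAt Tan)
open Pool.Agent.H62.EF (MN pr)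
open Pool.Agent.AD (Vd Chart Charts)
open Pool.Agent.TG (TMap Lat Geo Gd)

variable {N k : ℕ} {X : Set (EN N)} {Λ : AddSubgroup (Vd (k + 1))} {u : EN N → Vd (k + 1)} {D B : Set (Vd (k + 1))} {p : EN N → EN N → ℝ} {m d : ℕ} {C : ℝ}
  {Q : EN N → ℂ} {S : Set (Vd (k + 1) → MN N)}

/-- Jensen's inequality for a function which is holomorphic on the closed disc -/
private theorem ZMean_jensen {P : ℂ → ℂ} {r : ℝ} (hr : 0 < r) (hana : AnalyticOnNhd ℂ P (closedBall 0 |r|)) (hc : P 0 ≠ 0) :
    Real.log ‖P 0‖ ≤ Real.circleAverage (fun z => Real.log ‖P z‖) 0 r := by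
  rw [AnalyticOnNhd.circleAverage_log_norm hr.ne' hana hc]
  have h1 : 0 ≤ ∑ᶠ u, (MeromorphicOn.divisor P (closedBall 0 |r|) u : ℝ) * Real.log (r * ‖0 - u‖⁻¹) := by
    apply finsum_nonneg
    intro u
    by_cases hu : u ∈ closedBall (0 : ℂ) |r|
    · apply mul_nonneg
      · have := MeromorphicOn.AnalyticOnNhd.divisor_nonneg hana u
        exact_mod_cast this
      · by_cases huc : u = 0
        · simp [huc]
        · apply Real.log_nonneg
          have h2 : 0 < ‖0 - u‖ := by
            rw [norm_pos_iff, sub_ne_zero]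
            exact fun h => huc h.symm
          have h3 : ‖0 - u‖ ≤ r := by
            rw [mem_closedBall, dist_eq_norm, abs_of_pos hr, norm_sub_rev] at hu
            exact hu
          rw [← div_eq_mul_inv, le_div_iff₀ h2]
          linarith
    · have : MeromorphicOn.divisor P (closedBall 0 |r|) u = 0 :=
        Function.locallyFinsuppWithin.apply_eq_zero_of_notMem _ hu
      simp [this]
  linarith

theorem lq_mean {U : Set ℂ} (hU : IsOpen U) {F : ℂ → EN N} {h : ℂ → Vd (k + 1)} (hX : IsCone X) (hF : Cv X Λ u U F h) (hQ : QD X Λ u D Q d) {r : ℝ} (hr : 0 < r)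
    (hc : closedBall 0 r ⊆ U) (h0 : Q (F 0) ≠ 0) :
    CircleIntegrable (fun w => Lq Q d (F w)) 0 r ∧ Real.circleAverage (fun w => Lq Q d (F w)) 0 r ≤ Lq Q d (F 0) + d * TT F 0 r := by
  have hFne : ∀ z ∈ U, F z ≠ 0 := fun z hz h1 => hX.zero_notMem (h1 ▸ hF.mem z hz)
  have hana : AnalyticOnNhd ℂ (fun z => Q (F z)) (closedBall 0 |r|) := by
    rw [abs_of_pos hr]
    intro z hz
    have h1 : DifferentiableOn ℂ (fun z => Q (F z)) U := hQ.diff.comp_differentiableOn hF.F_diff
    exact h1.analyticAt (hU.mem_nhds (hc hz))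
  have hs : sphere (0 : ℂ) r ⊆ U := sphere_subset_closedBall.trans hc
  have hcont : ContinuousOn (fun z => Real.log ‖F z‖) (sphere (0 : ℂ) r) :=
    ((hF.F_diff.continuousOn.mono hs).norm).log fun z hz => norm_ne_zero_iff.2 (hFne z (hs hz))
  have hi1 : CircleIntegrable (fun w => Real.log ‖F w‖) 0 r := hcont.circleIntegrable hr.le
  have hi2 : CircleIntegrable (fun w => Real.log ‖Q (F w)‖) 0 r := by
    apply MeromorphicOn.circleIntegrable_log_norm
    exact fun z hz => (hana z (sphere_subset_closedBall hz)).meromorphicAt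
  have hi3 : CircleIntegrable (fun w => (d : ℝ) • Real.log ‖F w‖) 0 r := hi1.const_smul
  have heq : (fun w => Lq Q d (F w)) = fun w => (d : ℝ) • Real.log ‖F w‖ - Real.log ‖Q (F w)‖ := by
    funext w
    simp [Lq]
  refine ⟨by rw [heq]; exact hi3.sub hi2, ?_⟩
  rw [heq, Real.circleAverage_fun_sub hi3 hi2, Real.circleAverage_fun_smul]
  have hj := ZMean_jensen hr hana h0
  simp only [Lq, TT, smul_eq_mul]
  linarith

private theorem ZMean_max {g : ℂ → ℝ} {r : ℝ} (hg : CircleIntegrable g 0 r) : CircleIntegrable (fun w => max 0 (g w)) 0 r := by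
  have h1 : (fun w => max 0 (g w)) = (1 / 2 : ℝ) • (g + |g|) := by
    funext w
    simp only [Pi.smul_apply, Pi.add_apply, Pi.abs_apply, smul_eq_mul]
    rcases le_total 0 (g w) with h | h
    · rw [max_eq_right h, abs_of_nonneg h]; ring
    · rw [max_eq_left h, abs_of_nonpos h]; ring
  rw [h1]
  exact (hg.add hg.abs).const_smul

theorem mean_bd (hX : IsCone X) (hP : PS X Λ u D p m C) (hQ : QD X Λ u D Q d) {c₀ H r R : ℝ} (hc₀ : 0 < c₀) (hr : 0 < r) (hR : r < R) :
    ∃ K : ℝ, ∀ (F : ℂ → EN N) (h : ℂ → Vd (k + 1)), Cv X Λ u (ball 0 R) F h → (∀ z ∈ ball (0 : ℂ) R, c₀ ≤ ‖deriv h z‖ ∧ ‖deriv h z‖ ≤ H) → Ok Q p F 0 →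
      CircleIntegrable (Lam Q d p m F h) 0 r ∧ Real.circleAverage (Lam Q d p m F h) 0 r ≤ Lam Q d p m F h 0 + K := by
  obtain ⟨C₁, hC₁, hahl⟩ := ahl hP
  set P₁ : ℝ := (C₁ * (1 / (R - r) + H)) ^ m with hP₁
  set κ : ℝ := Real.log P₁ - m * Real.log c₀ with hκ
  refine ⟨d * (m * Real.log H - m * Real.log c₀ + max 0 κ + C * (H * r) ^ 2), ?_⟩
  intro F h hF hb hOk
  have hC0 : 0 ≤ C := by linarith [hP.C_ge]
  have h0m : (0 : ℂ) ∈ ball (0 : ℂ) R := mem_ball_self (hr.trans hR)
  have hU : IsOpen (ball (0 : ℂ) R) := isOpen_ball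
  have hcb : closedBall (0 : ℂ) r ⊆ ball 0 R := closedBall_subset_ball hR
  have hs : sphere (0 : ℂ) r ⊆ ball 0 R := sphere_subset_closedBall.trans hcb
  have hH : c₀ ≤ H := (hb 0 h0m).1.trans (hb 0 h0m).2
  have hH0 : 0 < H := hc₀.trans_le hH
  have hRr : 0 < R - r := sub_pos.2 hR
  have hP₁0 : 0 < P₁ := by positivity
  have hr' : |r| = r := abs_of_pos hr
  obtain ⟨hQ0, hp0⟩ := hOk
  obtain ⟨hlq1, hlq2⟩ := lq_mean hU hX hF hQ hr hcb hQ0
  obtain ⟨hj1, hj2⟩ := hP.jensen _ F h hU hF 0 r hr hcb hp0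
  -- bounds on the circle
  have hup : ∀ w ∈ sphere (0 : ℂ) r, pf p F w ≤ P₁ := by
    intro w hw
    have hwn : ‖w‖ = r := by simpa using hw
    have hsub : ball w (R - r) ⊆ ball 0 R := by
      intro z hz
      rw [mem_ball, dist_eq_norm] at hz
      rw [mem_ball_zero_iff]
      calc ‖z‖ = ‖(z - w) + w‖ := by rw [sub_add_cancel]
        _ ≤ ‖z - w‖ + ‖w‖ := norm_add_le _ _
        _ < (R - r) + r := by rw [hwn]; linarith
        _ = R := by ring
    exact hahl F h w (R - r) H hRr hH0.le (hF.mono hsub) fun z hz => (hb z (hsub hz)).2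
  -- the derivative
  have hdh : DifferentiableOn ℂ (deriv h) (ball 0 R) := hF.h_diff.deriv hU
  have hvne : ∀ w ∈ ball (0 : ℂ) R, 0 < ‖deriv h w‖ := fun w hw => hc₀.trans_le (hb w hw).1
  have hvc : ContinuousOn (fun w => Real.log ‖deriv h w‖) (sphere (0 : ℂ) r) :=
    ((hdh.continuousOn.mono hs).norm).log fun z hz => (hvne z (hs hz)).ne'
  have hi1 : CircleIntegrable (fun w => Real.log ‖deriv h w‖) 0 r := hvc.circleIntegrable hr.le
  -- `g = m log |h'| - log p`
  set g : ℂ → ℝ := fun w => (m : ℝ) • Real.log ‖deriv h w‖ - Real.log (pf p F w) with hg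
  have hig : CircleIntegrable g 0 r := (hi1.const_smul (a := (m : ℝ))).sub hj1
  have hmax : CircleIntegrable (fun w => max 0 (g w)) 0 r := ZMean_max hig
  have hgNp : ∀ w ∈ ball (0 : ℂ) R, 0 < pf p F w → Np p m F h w = max 0 (g w) := by
    intro w hw hpw
    have h1 : Real.log (pf p F w / ‖deriv h w‖ ^ m) = Real.log (pf p F w) - m * Real.log ‖deriv h w‖ := by
      rw [Real.log_div hpw.ne' (pow_ne_zero _ (hvne w hw).ne'), Real.log_pow]
    simp only [Np, h1, hg, smul_eq_mul, neg_sub]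
  -- almost everywhere on the circle `p > 0`
  have hae : {w | 0 < pf p F w} ∈ codiscreteWithin (sphere (0 : ℂ) |r|) := by
    rw [mem_codiscreteWithin_iff_forall_mem_nhdsNE]
    intro z hz
    rw [hr'] at hz
    have h1 := hP.isol _ F h hU hF (convex_ball 0 R).isPreconnected ⟨0, h0m, hp0⟩ z (hs hz)
    filter_upwards [h1] with w hw
    exact Or.inl hw
  have hsp : sphere (0 : ℂ) |r| ∈ codiscreteWithin (sphere (0 : ℂ) |r|) := by
    rw [mem_codiscreteWithin_iff_forall_mem_nhdsNE]
    intro z _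
    simp
  have hEq : (fun w => max 0 (g w)) =ᶠ[codiscreteWithin (sphere (0 : ℂ) |r|)] Np p m F h := by
    filter_upwards [hae, hsp] with w hw hws
    rw [hr'] at hws
    exact (hgNp w (hs hws) hw).symm
  have hNp : CircleIntegrable (Np p m F h) 0 r := hmax.congr_codiscreteWithin hEq
  have hNpav : Real.circleAverage (Np p m F h) 0 r = Real.circleAverage (fun w => max 0 (g w)) 0 r :=
    (Real.circleAverage_congr_codiscreteWithin hEq hr.ne').symm
  -- bound for `max 0 g` (almost everywhere): use the function with the value of the bound at the zeros of `p`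
  set b : ℂ → ℝ := fun w => (m * Real.log H + max 0 κ) - Real.log (pf p F w) with hbdef
  have hib : CircleIntegrable b 0 r := (circleIntegrable_const _ 0 r).sub hj1
  have hbmax : Real.circleAverage (fun w => max 0 (g w)) 0 r ≤ Real.circleAverage b 0 r := by
    classical
    set g' : ℂ → ℝ := fun w => if 0 < pf p F w then max 0 (g w) else b w with hg'
    have hEq' : (fun w => max 0 (g w)) =ᶠ[codiscreteWithin (sphere (0 : ℂ) |r|)] g' := by
      filter_upwards [hae] with w hw
      simp only [hg']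
      rw [if_pos hw]
    rw [Real.circleAverage_congr_codiscreteWithin hEq' hr.ne']
    refine Real.circleAverage_mono (hmax.congr_codiscreteWithin hEq') hib ?_
    intro w hw
    rw [hr'] at hw
    simp only [hg']
    split_ifs with hpw
    · have hwb := hs hw
      have h1 : Real.log (pf p F w) ≤ Real.log P₁ := Real.log_le_log hpw (hup w hw)
      have h2 : Real.log c₀ ≤ Real.log ‖deriv h w‖ := Real.log_le_log hc₀ (hb w hwb).1
      have h3 : Real.log ‖deriv h w‖ ≤ Real.log H := Real.log_le_log (hvne w hwb) (hb w hwb).2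
      have hm0 : (0 : ℝ) ≤ m := Nat.cast_nonneg m
      have h4 : (m : ℝ) * Real.log c₀ ≤ m * Real.log ‖deriv h w‖ := mul_le_mul_of_nonneg_left h2 hm0
      have h5 : (m : ℝ) * Real.log ‖deriv h w‖ ≤ m * Real.log H := mul_le_mul_of_nonneg_left h3 hm0
      have h6 : κ ≤ max 0 κ := le_max_right _ _
      have h7 : 0 ≤ max 0 κ := le_max_left _ _
      apply max_le
      · simp only [hbdef]
        linarith
      · simp only [hbdef, hg, smul_eq_mul]
        linarith
    · exact le_rfl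
  have hbav : Real.circleAverage b 0 r = (m * Real.log H + max 0 κ) - Real.circleAverage (fun w => Real.log (pf p F w)) 0 r := by
    rw [hbdef, Real.circleAverage_fun_sub (circleIntegrable_const _ 0 r) hj1, Real.circleAverage_const]
  -- the quadratic term
  have hquad : Real.circleAverage (fun w => ‖h w - h 0‖ ^ 2) 0 r ≤ (H * r) ^ 2 := by
    apply Real.circleAverage_mono_on_of_le_circle
    · apply ContinuousOn.circleIntegrable hr.le
      exact (((hF.h_diff.continuousOn.mono hs).sub continuousOn_const).norm).pow 2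
    · intro w hw
      rw [hr'] at hw
      have hwn : ‖w‖ = r := by simpa using hw
      have h1 : ‖h w - h 0‖ ≤ H * ‖w - 0‖ :=
        (convex_ball (0 : ℂ) R).norm_image_sub_le_of_norm_deriv_le (fun z hz => hF.h_diff.differentiableAt (hU.mem_nhds hz)) (fun z hz => (hb z hz).2) h0m (hs hw)
      rw [sub_zero, hwn] at h1
      exact pow_le_pow_left₀ (norm_nonneg _) h1 2
  -- the centre
  have hcen : -Real.log (pf p F 0) ≤ Np p m F h 0 - m * Real.log c₀ := by
    rw [hgNp 0 h0m hp0]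
    have h1 : g 0 ≤ max 0 (g 0) := le_max_right _ _
    have h2 : Real.log c₀ ≤ Real.log ‖deriv h 0‖ := Real.log_le_log hc₀ (hb 0 h0m).1
    have h4 : (m : ℝ) * Real.log c₀ ≤ m * Real.log ‖deriv h 0‖ := mul_le_mul_of_nonneg_left h2 (Nat.cast_nonneg m)
    simp only [hg, smul_eq_mul] at h1 ⊢
    linarith
  have hNpfin : Real.circleAverage (Np p m F h) 0 r ≤ Np p m F h 0 + (m * Real.log H - m * Real.log c₀ + max 0 κ + C * (H * r) ^ 2) - TT F 0 r := by
    rw [hNpav]
    have h1 : C * Real.circleAverage (fun w => ‖h w - h 0‖ ^ 2) 0 r ≤ C * (H * r) ^ 2 := mul_le_mul_of_nonneg_left hquad hC0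
    linarith [hbmax, hbav]
  have heq : Lam Q d p m F h = fun w => Lq Q d (F w) + (d : ℝ) • Np p m F h w := by
    funext w
    simp [Lam]
  have hiN : CircleIntegrable (fun w => (d : ℝ) • Np p m F h w) 0 r := hNp.const_smul
  refine ⟨by rw [heq]; exact hlq1.add hiN, ?_⟩
  rw [heq, Real.circleAverage_fun_add hlq1 hiN, Real.circleAverage_fun_smul]
  simp only [smul_eq_mul]
  have hd0 : (0 : ℝ) ≤ d := Nat.cast_nonneg d
  have h1 := mul_le_mul_of_nonneg_left hNpfin hd0
  nlinarith [h1, hlq2]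

end Pool.Agent.G3
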