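import Pool.Agent.G3.Z.Mean

/-!
# G3 Z Mk: good points on a circle

Let `V = Lam - Lam (0) - log |E|` on the circle `‖z‖ = r` (`E` holomorphic without zeros on `ball 0 R`, `E 0 = 1`, so `circleAverage (log |E|) 0 r = 0`).  If `V ≥ -1` at the `Ok` points of the circle (all but finitely many
points: `Q ∘ F` and `p` have isolated zeros, `hP.isol`) and `circleAverage Lam ≤ Lam (0) + K`, then on every arc `A` (given by a nonempty open set `O` which meets the circle) there is an `Ok` point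
with `V ≤ K'`, where `K'` depends only on `K`, `r`, `O`.
Plan: `circleAverage V ≤ K`, `V + 1 ≥ 0` almost everywhere; the set of angles `θ ∈ [0, 2π]` with `r e^{iθ} ∈ O` has measure `κ > 0`; if `V > K'` on all `Ok` points of it then
`2π (K + 1) ≥ κ (K' + 1)`.
-/

set_option autoImplicit false

open Topology Filter Metric

namespace Pool.Agent.G3

open Pool.Agent.H36.BP (EN fs wd Sub)
open Pool.Agent.H14.PP (IsCone CurveAt Tan)
open Pool.Agent.H62.EF (MN pr)
open Pool.Agent.AD (Vd Chart Charts)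
open Pool.Agent.TG (TMap Lat Geo Gd)

variable {N k : ℕ} {X : Set (EN N)} {Λ : AddSubgroup (Vd (k + 1))} {u : EN N → Vd (k + 1)} {D B : Set (Vd (k + 1))} {p : EN N → EN N → ℝ} {m d : ℕ} {C : ℝ}
  {Q : EN N → ℂ} {S : Set (Vd (k + 1) → MN N)}


/-- the mean of a continuous bump function near a point of the circle is positive -/
private theorem ZMk_bump {r : ℝ} (hr : 0 < r) {O : Set ℂ} (hO : IsOpen O) (hOr : ∃ z ∈ O, ‖z‖ = r) :
    ∃ φ : ℂ → ℝ, Continuous φ ∧ (∀ z, 0 ≤ φ z) ∧ (∀ z, φ z ≤ 1) ∧ (∀ z, z ∉ O → φ z = 0) ∧ 0 < Real.circleAverage φ 0 r := by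
  obtain ⟨z₀, hz₀, hn⟩ := hOr
  obtain ⟨ε, hε, hb⟩ := Metric.isOpen_iff.1 hO z₀ hz₀
  set φ : ℂ → ℝ := fun z => max 0 (1 - dist z z₀ / ε) with hφ
  have hφc : Continuous φ := by
    simp only [hφ]
    fun_prop
  have hφ0 : ∀ z, 0 ≤ φ z := fun z => le_max_left _ _
  refine ⟨φ, hφc, hφ0, ?_, ?_, ?_⟩
  · intro z
    simp only [hφ]
    apply max_le zero_le_one
    have : 0 ≤ dist z z₀ / ε := by positivity
    linarith
  · intro z hz
    simp only [hφ]
    apply max_eq_left
    have h1 : ε ≤ dist z z₀ := by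
      by_contra h2
      exact hz (hb (mem_ball.2 (not_le.1 h2)))
    have h2 : 1 ≤ dist z z₀ / ε := (one_le_div hε).2 h1
    linarith
  · rw [Real.circleAverage_def, smul_eq_mul]
    apply mul_pos (by positivity)
    apply intervalIntegral.integral_pos (by positivity)
    · exact (hφc.comp (continuous_circleMap 0 r)).continuousOn
    · intro θ _
      exact hφ0 _
    · have h1 : z₀ ∈ sphere (0 : ℂ) |r| := by
        rw [abs_of_pos hr]
        simpa using hn
      rw [← image_circleMap_Ioc] at h1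
      obtain ⟨θ, hθ, hθz⟩ := h1
      refine ⟨θ, Set.Ioc_subset_Icc_self hθ, ?_⟩
      rw [hθz]
      simp [hφ]

/-- the mean of `log |E|` for a function without zeros -/
private theorem ZMk_mean {r R : ℝ} (hr : 0 < r) (hR : r < R) {E : ℂ → ℂ} (hE : DifferentiableOn ℂ E (ball 0 R)) (hE0 : ∀ z ∈ ball (0 : ℂ) R, E z ≠ 0)
    (h1 : E 0 = 1) : CircleIntegrable (fun z => Real.log ‖E z‖) 0 r ∧ Real.circleAverage (fun z => Real.log ‖E z‖) 0 r = 0 := by
  have hs : sphere (0 : ℂ) r ⊆ ball 0 R := sphere_subset_closedBall.trans (closedBall_subset_ball hR)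
  refine ⟨?_, ?_⟩
  · apply ContinuousOn.circleIntegrable hr.le
    exact ((hE.continuousOn.mono hs).norm).log fun z hz => norm_ne_zero_iff.2 (hE0 z (hs hz))
  · rw [InnerProductSpace.HarmonicOnNhd.circleAverage_eq]
    · simp [h1]
    · intro z hz
      rw [abs_of_pos hr] at hz
      have hzb : z ∈ ball (0 : ℂ) R := closedBall_subset_ball hR hz
      exact AnalyticAt.harmonicAt_log_norm (hE.analyticAt (isOpen_ball.mem_nhds hzb)) (hE0 z hzb)

/-- all points of a circle but finitely many are `Ok` -/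
private theorem ZMk_ok (hP : PS X Λ u D p m C) (hQ : QD X Λ u D Q d) {r R : ℝ} (hr : 0 < r) (hR : r < R) {F : ℂ → EN N} {h : ℂ → Vd (k + 1)}
    (hF : Cv X Λ u (ball 0 R) F h) (hOk : Ok Q p F 0) : {w | Ok Q p F w} ∈ codiscreteWithin (sphere (0 : ℂ) |r|) := by
  have h0m : (0 : ℂ) ∈ ball (0 : ℂ) R := mem_ball_self (hr.trans hR)
  have hs : sphere (0 : ℂ) r ⊆ ball 0 R := sphere_subset_closedBall.trans (closedBall_subset_ball hR)
  obtain ⟨hQ0, hp0⟩ := hOk
  have hana : AnalyticOnNhd ℂ (fun z => Q (F z)) (ball 0 R) := by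
    intro z hz
    have h1 : DifferentiableOn ℂ (fun z => Q (F z)) (ball 0 R) := hQ.diff.comp_differentiableOn hF.F_diff
    exact h1.analyticAt (isOpen_ball.mem_nhds hz)
  rw [mem_codiscreteWithin_iff_forall_mem_nhdsNE]
  intro z hz
  rw [abs_of_pos hr] at hz
  have h1 := hP.isol _ F h isOpen_ball hF (convex_ball 0 R).isPreconnected ⟨0, h0m, hp0⟩ z (hs hz)
  have h2 : ∀ᶠ w in 𝓝[≠] z, Q (F w) ≠ 0 := by
    rcases (hana z (hs hz)).eventually_eq_zero_or_eventually_ne_zero with h3 | h3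
    · exfalso
      apply hQ0
      exact hana.eqOn_zero_of_preconnected_of_eventuallyEq_zero (convex_ball 0 R).isPreconnected (hs hz) h3 h0m
    · exact h3
  filter_upwards [h1, h2] with w hw hw2
  exact Or.inl ⟨hw2, hw⟩

theorem exists_good (hX : IsCone X) (hP : PS X Λ u D p m C) (hQ : QD X Λ u D Q d) {r R K : ℝ} (hr : 0 < r) (hR : r < R) {O : Set ℂ} (hO : IsOpen O) (hOr : ∃ z ∈ O, ‖z‖ = r) :
    ∃ K' : ℝ, ∀ (F : ℂ → EN N) (h : ℂ → Vd (k + 1)) (E : ℂ → ℂ), Cv X Λ u (ball 0 R) F h → Ok Q p F 0 → DifferentiableOn ℂ E (ball 0 R) → (∀ z ∈ ball (0 : ℂ) R, E z ≠ 0) → E 0 = 1 →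
      CircleIntegrable (Lam Q d p m F h) 0 r → Real.circleAverage (Lam Q d p m F h) 0 r ≤ Lam Q d p m F h 0 + K →
      (∀ z, ‖z‖ = r → Ok Q p F z → Lam Q d p m F h 0 + Real.log ‖E z‖ - 1 ≤ Lam Q d p m F h z) →
      ∃ z ∈ O, ‖z‖ = r ∧ Ok Q p F z ∧ Lam Q d p m F h z ≤ Lam Q d p m F h 0 + Real.log ‖E z‖ + K' := by
  classical
  obtain ⟨φ, hφc, hφ0, hφ1, hφO, hφa⟩ := ZMk_bump hr hO hOr
  set κ : ℝ := Real.circleAverage φ 0 r with hκ
  refine ⟨(|K| + 2) / κ, ?_⟩
  intro F h E hF hOk hE hE0 hE1 hint hav hlow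
  by_contra hcon
  push Not at hcon
  have hr' : |r| = r := abs_of_pos hr
  set K' : ℝ := (|K| + 2) / κ with hK'
  have hK'0 : 0 ≤ K' := by positivity
  obtain ⟨hEi, hEa⟩ := ZMk_mean hr hR hE hE0 hE1
  set L : ℝ := Lam Q d p m F h 0 with hL
  -- the function `V`
  set V : ℂ → ℝ := fun z => Lam Q d p m F h z - Real.log ‖E z‖ with hV
  have hVi : CircleIntegrable V 0 r := hint.sub hEi
  have hVa : Real.circleAverage V 0 r ≤ L + K := by
    rw [hV, Real.circleAverage_fun_sub hint hEi, hEa]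
    linarith
  have hφi : CircleIntegrable φ 0 r := hφc.continuousOn.circleIntegrable hr.le
  set W : ℂ → ℝ := fun z => (L - 1) + (K' + 1) • φ z with hW
  have hWi : CircleIntegrable W 0 r := (circleIntegrable_const _ 0 r).add hφi.const_smul
  have hWa : Real.circleAverage W 0 r = (L - 1) + (K' + 1) * κ := by
    have hφs : CircleIntegrable (fun z => (K' + 1) • φ z) 0 r := hφi.const_smul
    rw [hW, Real.circleAverage_fun_add (circleIntegrable_const _ 0 r) hφs, Real.circleAverage_const, Real.circleAverage_fun_smul, smul_eq_mul]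
  have hae := ZMk_ok hP hQ hr hR hF hOk
  have hle : Real.circleAverage W 0 r ≤ Real.circleAverage V 0 r := by
    set V' : ℂ → ℝ := fun z => if Ok Q p F z then V z else W z with hV'
    have hEq : V =ᶠ[codiscreteWithin (sphere (0 : ℂ) |r|)] V' := by
      filter_upwards [hae] with w hw
      simp only [hV']
      rw [if_pos hw]
    rw [Real.circleAverage_congr_codiscreteWithin hEq hr.ne']
    refine Real.circleAverage_mono hWi (hVi.congr_codiscreteWithin hEq) ?_
    intro w hw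
    rw [hr'] at hw
    have hwn : ‖w‖ = r := by simpa using hw
    simp only [hV']
    split_ifs with hok
    · have h1 := hlow w hwn hok
      by_cases hwO : w ∈ O
      · have h2 := hcon w hwO hwn hok
        have h3 : (K' + 1) * φ w ≤ (K' + 1) * 1 := mul_le_mul_of_nonneg_left (hφ1 w) (by linarith)
        simp only [hW, hV, smul_eq_mul]
        linarith
      · simp only [hW, hV, smul_eq_mul, hφO w hwO, mul_zero]
        linarith
    · exact le_rfl
  rw [hWa] at hle
  have h5 : K' * κ = |K| + 2 := div_mul_cancel₀ _ hφa.ne'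
  have h6 : K ≤ |K| := le_abs_self K
  nlinarith [hφa]

end Pool.Agent.G3
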