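import Pool.Agent.G3.Z.LctB
import Pool.Agent.G3.Z.LctC
import Pool.Agent.G3.Z.Abs
import Pool.Agent.G3.Z.Circ

/-!
# G3 Z LctD: Theorem LCT

Plan.  `arr_false`: `μ, Z, M` from `ordQ`, `HPl` gives the half plane `HP ω η`; `Γ` = the lattice `M Λ` (`AddSubgroup.map` of `nsmul M`; `Lat`: cocompact, discrete), `circ` with the set `D ∪ Z` (closed by
`ordQ_bounds`), the direction `a` and `r₂ = 1` gives `δ, r₁`.  For every `j` the functions `g n z = gg (α j) Φ (F n) (h n) z ^ μ * E n z * exp (Lam (0))` satisfy the hypotheses of `abs_zero` with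
`Sg = {z | z • a + b ∈ D}` (closed, discrete by `LDi`): `h1` from `gg_off`, `h2` from `gg_hit` and `HPl`, `hb` from `circ` (applied to `z₀ • a + b`) and `gg_up` with `K` the circle.
`gg_lo` with `U = HP ω (η + 1)` gives the contradiction (finitely many `j`).
`lct`: `lct_lim` and the invariance of `Lam`, `deriv` under the translations of `h n` by `l n`; `arr_false`.
-/

set_option autoImplicit false

open Topology Filter Metric

namespace Pool.Agent.G3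

open Pool.Agent.H36.BP (EN fs wd Sub)
open Pool.Agent.H14.PP (IsCone CurveAt Tan)
open Pool.Agent.H62.EF (MN pr)
open Pool.Agent.AD (Vd Chart Charts)
open Pool.Agent.TG (TMap Lat Geo Gd)

open Pool.Agent.TG (VForm JJ II Cst Fb TransAt)
open Pool.Agent.G3.C (HP)

variable {N : ℕ} {X : Set (EN N)} {Λ : AddSubgroup (Vd (1 + 1))} {u : EN N → Vd (1 + 1)} {D B : Set (Vd (1 + 1))} {p : EN N → EN N → ℝ} {m d : ℕ} {C c₀ : ℝ}
  {Q : EN N → ℂ} {S : Set (Vd (1 + 1) → MN N)} {J : ℕ} {α : Fin J → VForm X Λ u} {𝒰 : Ultrafilter ℕ} {F : ℕ → ℂ → EN N} {h : ℕ → ℂ → Vd (1 + 1)} {E : ℕ → ℂ → ℂ}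
  {a b : Vd (1 + 1)} {Φ : Vd (1 + 1) → MN N}

/-- the multiples of the elements of a lattice form a lattice -/
private theorem LctD_lat {Γ : AddSubgroup (Vd (1 + 1))} (hΓ : Lat Γ) {M : ℕ} (hM : 1 ≤ M) : Lat (Γ.map (nsmulAddMonoidHom M)) := by
  have hM1 : (1 : ℝ) ≤ M := by exact_mod_cast hM
  have hM0 : (0 : ℝ) < M := by linarith
  obtain ⟨δ, hδ, hd⟩ := hΓ.disc
  obtain ⟨R, hR, hc⟩ := hΓ.cpt
  refine ⟨⟨δ, hδ, ?_⟩, ⟨M * R, by positivity, ?_⟩⟩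
  · rintro _ ⟨l, hl, rfl⟩ hn
    have h1 : (nsmulAddMonoidHom M : Vd (1 + 1) →+ Vd (1 + 1)) l = (M : ℝ) • l := by
      rw [nsmulAddMonoidHom_apply, Nat.cast_smul_eq_nsmul]
    rw [h1, norm_smul, Real.norm_of_nonneg hM0.le] at hn
    have h2 : ‖l‖ < δ := by
      have h3 : ‖l‖ ≤ M * ‖l‖ := le_mul_of_one_le_left (norm_nonneg _) hM1
      linarith
    rw [hd l hl h2, map_zero]
  · intro y
    obtain ⟨l, hl, hyl⟩ := hc ((M : ℝ)⁻¹ • y)
    refine ⟨(nsmulAddMonoidHom M : Vd (1 + 1) →+ Vd (1 + 1)) l, ⟨l, hl, rfl⟩, ?_⟩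
    have h1 : (nsmulAddMonoidHom M : Vd (1 + 1) →+ Vd (1 + 1)) l = (M : ℝ) • l := by
      rw [nsmulAddMonoidHom_apply, Nat.cast_smul_eq_nsmul]
    have h2 : y - (M : ℝ) • l = (M : ℝ) • ((M : ℝ)⁻¹ • y - l) := by
      rw [smul_sub, smul_smul, mul_inv_cancel₀ hM0.ne', one_smul]
    rw [h1, h2, norm_smul, Real.norm_of_nonneg hM0.le]
    exact mul_le_mul_of_nonneg_left hyl hM0.le

private theorem LctD_HP_nonempty {ω : ℂ} (hω : ‖ω‖ = 1) (η : ℝ) : (HP ω η).Nonempty := by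
  refine ⟨ω * (((η + 1 : ℝ) : ℂ) * Complex.I), ?_⟩
  show η < ((starRingEnd ℂ) ω * (ω * (((η + 1 : ℝ) : ℂ) * Complex.I))).im
  have h1 : (starRingEnd ℂ) ω * (ω * (((η + 1 : ℝ) : ℂ) * Complex.I)) = (((‖ω‖ ^ 2 * (η + 1) : ℝ) : ℂ)) * Complex.I := by
    rw [← mul_assoc, ← mul_assoc, mul_comm ((starRingEnd ℂ) ω) ω, Complex.mul_conj, Complex.normSq_eq_norm_sq]
    push_cast
    ring
  rw [h1, hω, Complex.mul_im, Complex.ofReal_re, Complex.ofReal_im, Complex.I_re, Complex.I_im]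
  linarith

theorem arr_false (H : Sit X Λ u D B p m C Q d S α c₀) (hΦ : Φ ∈ S) (A : Arr X Λ u D Q d p m 𝒰 F h E a b Φ) : False := by
  have ha : a ≠ 0 := A.lim.a_ne
  obtain ⟨μ, Z, hμ, hZ, ⟨M, hM, hp⟩, hcount⟩ := ordQ H.geo H.simp H.ldi H.csf H.qd H.q_ne hΦ (H.q_sec Φ hΦ)
  obtain ⟨hAc, -⟩ := ordQ_bounds H.geo H.csf H.qd hΦ hμ hM hZ hp
  obtain ⟨ω, η, hω, hgood⟩ := H.hpl a ha b
  -- circles avoiding `D ∪ Z`
  have hinv : ∀ y ∈ D ∪ Z, ∀ l ∈ Λ.map (nsmulAddMonoidHom M), y + l ∈ D ∪ Z := by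
    rintro y hy _ ⟨l, hl, rfl⟩
    rw [nsmulAddMonoidHom_apply]
    rcases hy with hy | hy
    · exact Or.inl (H.geo.D_inv y hy _ (Λ.nsmul_mem hl M))
    · exact Or.inr (hp y hy l hl)
  obtain ⟨δ, r₁, hδ, hr₁, hr₁₂, hcirc⟩ := circ hAc (LctD_lat H.geo.lat hM) hinv (a := a) (hcount a ha) (r₂ := 1) one_pos
  obtain ⟨c, hc, hup⟩ := gg_up H hΦ A hμ hM hZ hp
  obtain ⟨C', hC'⟩ := hup δ hδ
  set Sg : Set ℂ := {z | z • a + b ∈ D} with hSg
  have hSc : IsClosed Sg := H.geo.D_closed.preimage (by fun_prop)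
  have hSd : ∀ z, ∀ᶠ w in 𝓝[≠] z, w ∉ Sg := fun z => H.ldi a ha b z
  have hlift : ∀ z z₀ : ℂ, z • a + b = (z - z₀) • a + (z₀ • a + b) := by
    intro z z₀
    rw [sub_smul]
    abel
  -- the functions
  set G : Fin J → ℕ → ℂ → ℂ := fun j n z => gg (α j) Φ (F n) (h n) z ^ μ * E n z * ((Real.exp (Lam Q d p m (F n) (h n) 0) : ℝ) : ℂ) with hG
  have hGn : ∀ j n z, ‖G j n z‖ = ‖gg (α j) Φ (F n) (h n) z‖ ^ μ * ‖E n z‖ * Real.exp (Lam Q d p m (F n) (h n) 0) := by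
    intro j n z
    simp only [hG]
    rw [norm_mul, norm_mul, norm_pow, Complex.norm_real, Real.norm_of_nonneg (Real.exp_pos _).le]
  have hEd : ∀ (z₀ : ℂ) (r : ℝ), ∀ᶠ n in (𝒰 : Filter ℕ), DifferentiableOn ℂ (E n) (ball z₀ r) := by
    intro z₀ r
    filter_upwards [A.ex (‖z₀‖ + r)] with n hn
    refine hn.1.mono fun z hz => ?_
    rw [mem_ball, dist_eq_norm] at hz
    rw [mem_ball, dist_zero_right]
    calc ‖z‖ = ‖(z - z₀) + z₀‖ := by rw [sub_add_cancel]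
      _ ≤ ‖z - z₀‖ + ‖z₀‖ := norm_add_le _ _
      _ < ‖z₀‖ + r := by linarith
  have key : ∀ j, ∀ K ⊆ HP ω (η + 1) \ Sg, IsCompact K → ∀ ε : ℝ, 0 < ε → ∀ᶠ n in (𝒰 : Filter ℕ), ∀ z ∈ K, ‖G j n z‖ < ε := by
    intro j
    refine abs_zero 𝒰 hω hr₁ hr₁₂ hc (C := C') hSc hSd ?_ ?_ ?_
    · intro z₀ _ hz₀S
      obtain ⟨r, hr, hn⟩ := gg_off H hΦ A (α j) hz₀S
      refine ⟨r, hr, ?_⟩
      filter_upwards [hn, hEd z₀ r] with n h1 h2
      exact ((h1.pow μ).mul h2).mul_const _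
    · intro z₀ hz₀ hz₀S ε hε
      obtain ⟨hB, ht⟩ := hgood z₀ hz₀ hz₀S
      obtain ⟨r, hr, hrε, hn⟩ := gg_hit H hΦ A (α j) hz₀S hB ht hε
      refine ⟨r, hr, hrε, ?_⟩
      filter_upwards [hn, hEd z₀ r] with n h1 h2
      obtain ⟨K, hK, hKe⟩ := h1
      refine ⟨fun z => K z ^ μ * E n z * ((Real.exp (Lam Q d p m (F n) (h n) 0) : ℝ) : ℂ), ((hK.pow μ).mul h2).mul_const _, ?_⟩
      intro z hz1 hz2
      simp only [hG]
      rw [hKe z hz1 hz2]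
    · intro z₀ _
      obtain ⟨r, hr, hrd⟩ := hcirc (z₀ • a + b)
      have hdist : ∀ z : ℂ, dist z z₀ = r → ∀ w ∈ D ∪ Z, δ ≤ ‖z • a + b - w‖ := by
        intro z hz w hw
        rw [hlift z z₀]
        refine hrd (z - z₀) ?_ w hw
        rw [← dist_eq_norm]
        exact hz
      refine ⟨r, hr, ?_, ?_⟩
      · intro z hz hzS
        have h1 := hdist z hz (z • a + b) (Or.inl hzS)
        rw [sub_self, norm_zero] at h1
        linarith
      · filter_upwards [hC' (sphere z₀ r) (isCompact_sphere z₀ r) fun z hz => hdist z (mem_sphere.1 hz)] with n hn z hz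
        rw [hGn]
        exact hn z (mem_sphere.2 hz) j
  obtain ⟨K, c', hK, hKU, hKD, hc', hlo⟩ := gg_lo H hΦ A hμ hM hZ hp (hcount a ha b) (Pool.Agent.G3.C.isOpen_HP ω (η + 1)) (LctD_HP_nonempty hω (η + 1))
  have hall : ∀ᶠ n in (𝒰 : Filter ℕ), ∀ j, ∀ z ∈ K, ‖G j n z‖ < c' := by
    rw [Filter.eventually_all]
    intro j
    exact key j K (fun z hz => ⟨hKU hz, hKD z hz⟩) hK c' hc'
  obtain ⟨n, h1, z, hz, j, h2⟩ := (hall.and hlo).exists
  have h3 := h1 j z hz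
  rw [hGn] at h3
  linarith

theorem lct (H : Sit X Λ u D B p m C Q d S α c₀) : LCT X Λ u Q d p m := by
  intro 𝒰 a F h E ha hF hok hd hE hstar
  obtain ⟨l, b, Φ, -, hΦ, hLim⟩ := lct_lim H.geo.cone H.geo.tor H.geo.lat H.geo.D_closed H.ldi H.ps H.csf ha hF hd
  have hder : ∀ n, deriv (fun z => h n z + l n) = deriv (h n) := by
    intro n
    funext z
    exact deriv_add_const _
  have hLam : ∀ n z, Lam Q d p m (F n) (fun z => h n z + l n) z = Lam Q d p m (F n) (h n) z := by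
    intro n z
    simp only [Lam, Np, hder]
  refine arr_false H hΦ (𝒰 := 𝒰) (F := F) (h := fun n z => h n z + l n) (E := E) (a := a) (b := b) ⟨hLim, hok, ?_, hE, ?_⟩
  · intro r ε hε
    filter_upwards [hd r ε hε] with n hn z hz
    rw [hder]
    exact hn z hz
  · intro r ε hε
    filter_upwards [hstar r ε hε] with n hn z hz hO
    rw [hLam, hLam]
    exact hn z hz hO

end Pool.Agent.G3
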