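import Pool.Agent.G3.Z.CDefs
import Pool.Agent.G3.P.LimM

/-!
# G3 Z Arc: sections over arcs near a line

Plan.  Let `φ` be the analytic lift of `Csf.mer` at `y₀` in the direction `a`; choose `r₀` so small that `φ` is analytic, and `Φ z = pr (φ z)` for `z ∉ D`, `φ z ≠ 0`, on a ball which contains the points `y₀ + z a`,
`‖z‖ ≤ 3 r₀`, and `φ (y₀ + z a) ≠ 0` for `0 < ‖z‖ ≤ 3 r₀`.  Given `r < r₀` the value `φ (y₀ + z₁ a)` at `z₁ = 3 r / 2` is not `0`, so for `ρ` small (depending on `r`) `φ (γ z₁) ≠ 0` for all `γ` with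
`‖γ z - (y₀ + z a)‖ ≤ ρ`.  The vector function `φ ∘ γ` is holomorphic on `ball 0 (2 r)`, not identically `0`; divide by the common zeros in `closedBall 0 r` (finitely many): `G` without zeros on `ball 0 r`.
`pr (G z) = Φ (γ z)` if `γ z ∉ D` and `φ (γ z) ≠ 0`; for `γ z ∉ D`, `φ (γ z) = 0` use continuity (`Csf.hol`: `Φ` is continuous off `D`; the zeros of `φ ∘ γ` are isolated, `{z : γ z ∈ D}` is closed).
`G z ∈ X` and `u (G z) - γ z ∈ Λ`: off `D` from `Csf.hol` (`pr x = pr x'`, `x' ∈ X` implies `x ∈ X`), and at the points over `D` by `lim_mem` (the hypothesis `hd`: these points are isolated).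
-/

set_option autoImplicit false

open Topology Filter Metric

namespace Pool.Agent.G3

open Pool.Agent.H36.BP (EN fs wd Sub)
open Pool.Agent.H14.PP (IsCone CurveAt Tan)
open Pool.Agent.H62.EF (MN pr)
open Pool.Agent.AD (Vd Chart Charts)
open Pool.Agent.TG (TMap Lat Geo Gd)

variable {N k : ℕ} {X : Set (EN N)} {Λ : AddSubgroup (Vd (k + 1))} {u : EN N → Vd (k + 1)} {D B : Set (Vd (k + 1))} {p : EN N → EN N → ℝ} {m d : ℕ} {C : ℝ}
  {Q : EN N → ℂ} {S : Set (Vd (k + 1) → MN N)}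

/-- division by the common zeros in a disc: the quotient `G` is proportional to `H` near every point of the disc -/
private theorem arc_div {H : ℂ → EN N} {r R : ℝ} (hr : r < R) (hH : DifferentiableOn ℂ H (ball 0 R)) {z₁ : ℂ} (hz₁ : z₁ ∈ ball (0 : ℂ) R) (hn : H z₁ ≠ 0) :
    ∃ G : ℂ → EN N, (∀ z ∈ closedBall (0 : ℂ) r, AnalyticAt ℂ G z ∧ G z ≠ 0) ∧ ∀ z ∈ ball (0 : ℂ) r, ∀ᶠ w in 𝓝[≠] z, H w ≠ 0 ∧ G w ≠ 0 ∧ pr (G w) = pr (H w) := by
  have hHa : AnalyticOnNhd ℂ H (ball 0 R) := hH.analyticOnNhd isOpen_ball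
  have hiso : ∀ z ∈ ball (0 : ℂ) R, ∀ᶠ w in 𝓝[≠] z, H w ≠ 0 := by
    intro z hz
    rcases (hHa z hz).eventually_eq_zero_or_eventually_ne_zero with h | h
    · exfalso
      exact hn (hHa.eqOn_zero_of_preconnected_of_eventuallyEq_zero (convex_ball 0 R).isPreconnected hz h hz₁)
    · exact h
  have hsub : closedBall (0 : ℂ) r ⊆ ball 0 R := closedBall_subset_ball hr
  have hHm : MeromorphicOn H (closedBall 0 r) := fun z hz => (hHa z (hsub hz)).meromorphicAt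
  have hord : ∀ z : closedBall (0 : ℂ) r, meromorphicOrderAt H z ≠ ⊤ := by
    rintro ⟨z, hz⟩ h
    rw [meromorphicOrderAt_eq_top_iff] at h
    obtain ⟨w, h1, h2⟩ := (h.and (hiso z (hsub hz))).exists
    exact h2 h1
  obtain ⟨G, hGa, hG0, hGe⟩ := hHm.extract_zeros_poles hord ((MeromorphicOn.divisor H (closedBall 0 r)).finiteSupport (isCompact_closedBall 0 r))
  have hsub' : ball (0 : ℂ) r ⊆ closedBall 0 r := ball_subset_closedBall
  refine ⟨G, fun z hz => ⟨hGa z hz, hG0 ⟨z, hz⟩⟩, fun z hz => ?_⟩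
  have hzr : z ∈ ball (0 : ℂ) R := hsub (hsub' hz)
  have h1 : ∀ᶠ w in 𝓝[≠] z, w ∈ closedBall (0 : ℂ) r := nhdsWithin_le_nhds (Filter.mem_of_superset (isOpen_ball.mem_nhds hz) hsub')
  have h3 : ∀ᶠ w in 𝓝[≠] z, w ∈ closedBall (0 : ℂ) r → H w = ((∏ᶠ u, (· - u) ^ MeromorphicOn.divisor H (closedBall 0 r) u) • G) w := by
    have h4 := mem_codiscreteWithin.1 hGe z (hsub' hz)
    rw [disjoint_principal_right] at h4
    filter_upwards [h4] with w hw hwm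
    by_contra h5
    exact hw ⟨hwm, h5⟩
  filter_upwards [h1, h3, hiso z hzr] with w w1 w3 w4
  refine ⟨w4, hG0 ⟨w, w1⟩, ?_⟩
  have h6 := w3 w1
  rw [Pi.smul_apply'] at h6
  rw [h6]
  refine (Pool.Agent.H62.EF.pr_smul _ fun h7 => ?_).symm
  rw [h7, zero_smul] at h6
  exact w4 h6

theorem sec_arc (hX : IsCone X) (hu : TMap X Λ u) (hΛ : Lat Λ) (hDc : IsClosed D) (hS : Csf X Λ u D S) {Φ : Vd (k + 1) → MN N} (hΦ : Φ ∈ S) {a : Vd (k + 1)} (ha : a ≠ 0)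
    (y₀ : Vd (k + 1)) :
    ∃ r₀ : ℝ, 0 < r₀ ∧ ∀ r : ℝ, 0 < r → r < r₀ → ∃ ρ : ℝ, 0 < ρ ∧ ∀ γ : ℂ → Vd (k + 1), DifferentiableOn ℂ γ (ball 0 (2 * r)) →
      (∀ z ∈ ball (0 : ℂ) (2 * r), ‖γ z - (y₀ + z • a)‖ ≤ ρ) → (∀ z ∈ ball (0 : ℂ) (2 * r), ∀ᶠ w in 𝓝[≠] z, γ w ∉ D) →
      ∃ G : ℂ → EN N, Cv X Λ u (ball 0 r) G γ ∧ ∀ z ∈ ball (0 : ℂ) r, γ z ∉ D → pr (G z) = Φ (γ z) := by
  obtain ⟨φ, hφa, hφf, hφe⟩ := hS.mer Φ hΦ a ha y₀
  obtain ⟨t, ht, hball⟩ := Metric.eventually_nhds_iff_ball.1 (hφa.eventually_analyticAt.and hφe)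
  -- the function on the line has isolated zeros
  have hline : AnalyticAt ℂ (fun w : ℂ => y₀ + w • a) 0 := analyticAt_const.add (analyticAt_id.smul analyticAt_const)
  have hψ : AnalyticAt ℂ (fun w : ℂ => φ (y₀ + w • a)) 0 := hφa.comp_of_eq hline (by simp)
  have hψ0 : ∀ᶠ w in 𝓝[≠] (0 : ℂ), φ (y₀ + w • a) ≠ 0 := by
    rcases hψ.eventually_eq_zero_or_eventually_ne_zero with h | h
    · obtain ⟨w, h1, h2⟩ := (hφf.and_eventually h).exists
      exact absurd h2 h1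
    · exact h
  obtain ⟨s, hs, hsψ⟩ := Metric.mem_nhdsWithin_iff.1 hψ0
  have ha1 : 0 < ‖a‖ + 1 := by positivity
  refine ⟨min (s / 2) (t / (4 * (‖a‖ + 1))), lt_min (by positivity) (by positivity), fun r hr hr₀ => ?_⟩
  have hr1 : r < s / 2 := lt_of_lt_of_le hr₀ (min_le_left _ _)
  have hr2 : r < t / (4 * (‖a‖ + 1)) := lt_of_lt_of_le hr₀ (min_le_right _ _)
  have hr3 : 2 * r * ‖a‖ < t / 2 := by
    rw [lt_div_iff₀ (by positivity)] at hr2
    have h1 : 0 ≤ ‖a‖ := norm_nonneg a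
    nlinarith
  set z₁ : ℂ := ((3 / 2 * r : ℝ) : ℂ) with hz₁
  have hz₁n : ‖z₁‖ = 3 / 2 * r := by
    rw [hz₁, Complex.norm_real, Real.norm_of_nonneg (by positivity)]
  have hz₁b : z₁ ∈ ball (0 : ℂ) (2 * r) := by
    rw [mem_ball_zero_iff, hz₁n]
    linarith
  have hz₁0 : φ (y₀ + z₁ • a) ≠ 0 := by
    refine hsψ ⟨?_, ?_⟩
    · rw [mem_ball_zero_iff, hz₁n]
      linarith
    · intro h
      rw [Set.mem_singleton_iff] at h
      rw [h, norm_zero] at hz₁n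
      linarith
  have hin : ∀ z ∈ ball (0 : ℂ) (2 * r), ∀ y : Vd (k + 1), ‖y - (y₀ + z • a)‖ ≤ t / 2 → y ∈ ball y₀ t := by
    intro z hz y hy
    rw [mem_ball_zero_iff] at hz
    rw [mem_ball_iff_norm]
    have h1 : y - y₀ = (y - (y₀ + z • a)) + z • a := by abel
    have h2 : ‖z • a‖ ≤ 2 * r * ‖a‖ := by
      rw [norm_smul]
      exact mul_le_mul_of_nonneg_right hz.le (norm_nonneg a)
    calc ‖y - y₀‖ ≤ ‖y - (y₀ + z • a)‖ + ‖z • a‖ := by rw [h1]; exact norm_add_le _ _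
      _ < t := by linarith
  have hy₁ : y₀ + z₁ • a ∈ ball y₀ t := hin z₁ hz₁b _ (by rw [sub_self, norm_zero]; positivity)
  obtain ⟨ρ₁, hρ₁, hρφ⟩ := Metric.eventually_nhds_iff_ball.1 ((hball _ hy₁).1.continuousAt.eventually_ne hz₁0)
  refine ⟨min (ρ₁ / 2) (t / 2), lt_min (by positivity) (by positivity), fun γ hγ hγρ hγD => ?_⟩
  have hmaps : ∀ z ∈ ball (0 : ℂ) (2 * r), γ z ∈ ball y₀ t := fun z hz => hin z hz _ ((hγρ z hz).trans (min_le_right _ _))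
  have hHd : DifferentiableOn ℂ (fun z => φ (γ z)) (ball 0 (2 * r)) := by
    intro z hz
    exact ((hball _ (hmaps z hz)).1.differentiableAt.comp_differentiableWithinAt z (hγ z hz))
  have hHn : φ (γ z₁) ≠ 0 := by
    refine hρφ _ ?_
    rw [mem_ball_iff_norm]
    have h1 := (hγρ z₁ hz₁b).trans (min_le_left _ _)
    linarith
  obtain ⟨G, hG, hGe⟩ := arc_div (r := r) (R := 2 * r) (by linarith) hHd hz₁b hHn
  have hsub' : ball (0 : ℂ) r ⊆ closedBall 0 r := ball_subset_closedBall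
  have hsub2 : ball (0 : ℂ) r ⊆ ball 0 (2 * r) := ball_subset_ball (by linarith)
  have hγc : ∀ z ∈ ball (0 : ℂ) r, ContinuousAt γ z := fun z hz => (hγ.differentiableAt (isOpen_ball.mem_nhds (hsub2 hz))).continuousAt
  -- the points near `z`
  have hev : ∀ z ∈ ball (0 : ℂ) r, ∀ᶠ w in 𝓝[≠] z, G w ≠ 0 ∧ γ w ∉ D ∧ pr (G w) = Φ (γ w) := by
    intro z hz
    have h1 : ∀ᶠ w in 𝓝[≠] z, w ∈ ball (0 : ℂ) r := nhdsWithin_le_nhds (isOpen_ball.mem_nhds hz)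
    filter_upwards [hGe z hz, hγD z (hsub2 hz), h1] with w w1 w2 w3
    exact ⟨w1.2.1, w2, by rw [w1.2.2, (hball _ (hmaps w (hsub2 w3))).2 w2 w1.1]⟩
  have hmem : ∀ z ∈ ball (0 : ℂ) r, G z ∈ X ∧ u (G z) - γ z ∈ Λ := by
    intro z hz
    have hprc : ContinuousAt (fun w => pr (G w)) z :=
      ContinuousAt.comp (g := fun x : EN N => pr x) (Pool.Agent.H62.EF.continuousAt_pr (hG z (hsub' hz)).2) (hG z (hsub' hz)).1.continuousAt
    refine lim_mem (l := 𝓝[≠] z) hX hu hΛ (x := G) (y := γ) ?_ (hG z (hsub' hz)).2 (hprc.tendsto.mono_left nhdsWithin_le_nhds)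
      ((hγc z hz).tendsto.mono_left nhdsWithin_le_nhds)
    filter_upwards [hev z hz] with w hw
    obtain ⟨φ', -, hφ'⟩ := hS.hol Φ hΦ (γ w) hw.2.1
    obtain ⟨h1, h2, h3⟩ := hφ'.self_of_nhds
    have h4 : pr (G w) = pr (φ' (γ w)) := hw.2.2.trans h2
    obtain ⟨c, hc, hcx⟩ := (Pool.Agent.H62.EF.pr_eq_iff hw.1 (Pool.Agent.TG.ne_zero hX h1)).1 h4
    have hGX : G w ∈ X := by
      rw [hcx]
      exact hX.smul_mem _ h1 c hc
    exact ⟨hGX, Pool.Agent.TG.fb_lift hX hu (Pool.Agent.TG.mem_fb h1 h3) hGX h4⟩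
  refine ⟨G, ⟨fun z hz => (hG z (hsub' hz)).1.differentiableAt.differentiableWithinAt, hγ.mono hsub2, fun z hz => (hmem z hz).1, fun z hz => (hmem z hz).2⟩, fun z hz hzD => ?_⟩
  obtain ⟨φ', hφ'a, hφ'⟩ := hS.hol Φ hΦ (γ z) hzD
  have h0 : φ' (γ z) ≠ 0 := Pool.Agent.TG.ne_zero hX hφ'.self_of_nhds.1
  have hc1 : ContinuousAt (fun w => pr (φ' (γ w))) z :=
    ContinuousAt.comp (g := fun x : EN N => pr x) (Pool.Agent.H62.EF.continuousAt_pr h0) (ContinuousAt.comp (g := φ') hφ'a.continuousAt (hγc z hz))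
  have hc2 : ContinuousAt (fun w => pr (G w)) z :=
    ContinuousAt.comp (g := fun x : EN N => pr x) (Pool.Agent.H62.EF.continuousAt_pr (hG z (hsub' hz)).2) (hG z (hsub' hz)).1.continuousAt
  have hee : ∀ᶠ w in 𝓝[≠] z, pr (φ' (γ w)) = pr (G w) := by
    filter_upwards [hev z hz, ((hγc z hz).eventually hφ').filter_mono nhdsWithin_le_nhds] with w w1 w2
    rw [w1.2.2, w2.2.1]
  have t1 : Tendsto (fun w => pr (φ' (γ w))) (𝓝[≠] z) (𝓝 (pr (φ' (γ z)))) := hc1.tendsto.mono_left nhdsWithin_le_nhds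
  have t2 : Tendsto (fun w => pr (G w)) (𝓝[≠] z) (𝓝 (pr (G z))) := hc2.tendsto.mono_left nhdsWithin_le_nhds
  rw [hφ'.self_of_nhds.2.1]
  exact (tendsto_nhds_unique (t1.congr' hee) t2).symm

end Pool.Agent.G3
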