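import Pool.Agent.G3.Z.CDefs
import Mathlib.Algebra.Module.ZLattice.Basic

/-!
# G3 Z Dens: the lattice accumulates at every line (simple tori)

Proof.  If the claim is false for `ε`, the values `π l`, `l ∈ Λ` (`π` a linear form with kernel `ℂ a`), are `0` or of norm `≥ ε'`; so `π Λ` is a discrete subgroup of `ℂ`, of rank `≤ 2`.
`Λ` has rank `4`, so the kernel `Λ ∩ ℂ a` has rank `≥ 2` and it is discrete in `ℂ a`: two `ℝ`-linearly independent elements, contradiction to `Simp`.
-/

set_option autoImplicit false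

open Topology Filter Metric

namespace Pool.Agent.G3

open Pool.Agent.H36.BP (EN fs wd Sub)
open Pool.Agent.H14.PP (IsCone CurveAt Tan)
open Pool.Agent.H62.EF (MN pr)
open Pool.Agent.AD (Vd Chart Charts)
open Pool.Agent.TG (TMap Lat Geo Gd)

private theorem disc_of {E : Type*} [NormedAddCommGroup E] (L : Submodule ℤ E)
    {δ : ℝ} (hδ : 0 < δ) (h : ∀ l ∈ L, ‖l‖ < δ → l = 0) : DiscreteTopology L := by
  apply discreteTopology_of_isOpen_singleton_zero
  rw [Metric.isOpen_singleton_iff]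
  refine ⟨δ, hδ, fun y hy => ?_⟩
  have h1 : (y : E) = 0 := by
    apply h y.1 y.2
    rw [dist_zero_right] at hy
    exact hy
  exact Subtype.ext h1

private theorem rk {E : Type*} [NormedAddCommGroup E] [NormedSpace ℝ E] [FiniteDimensional ℝ E]
    (L : Submodule ℤ E) (hL : DiscreteTopology L) :
    Module.finrank ℝ (Submodule.span ℝ (L : Set E)) = Module.finrank ℤ L := by
  have h := Real.finrank_eq_int_finrank_of_discrete (s := (L : Set E)) (by rwa [Submodule.span_eq])
  rw [Set.finrank, Set.finrank, Submodule.span_eq] at h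
  exact h

private theorem span_top_of {n : ℕ} {Λ : AddSubgroup (Vd n)} {R : ℝ} (h : ∀ y : Vd n, ∃ l ∈ Λ, ‖y - l‖ ≤ R) :
    Submodule.span ℝ (Λ : Set (Vd n)) = ⊤ := by
  by_contra hne
  obtain ⟨f, hf, hle⟩ := Submodule.exists_le_ker_of_lt_top _ (lt_top_iff_ne_top.2 hne)
  obtain ⟨y, hy⟩ : ∃ y, f y ≠ 0 := by
    by_contra hcon
    push Not at hcon
    exact hf (LinearMap.ext hcon)
  set g := LinearMap.toContinuousLinearMap f with hg
  obtain ⟨l, hl, hyl⟩ := h (((‖g‖ * R + 1) / f y) • y)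
  have h1 : f l = 0 := hle (Submodule.subset_span hl)
  have h2 : f (((‖g‖ * R + 1) / f y) • y - l) = ‖g‖ * R + 1 := by
    rw [map_sub, h1, map_smul, smul_eq_mul, sub_zero, div_mul_cancel₀ _ hy]
  have h3 : ‖g (((‖g‖ * R + 1) / f y) • y - l)‖ ≤ ‖g‖ * R :=
    (g.le_opNorm _).trans (mul_le_mul_of_nonneg_left hyl (norm_nonneg _))
  have h4 : g (((‖g‖ * R + 1) / f y) • y - l) = ‖g‖ * R + 1 := h2
  rw [h4] at h3
  have h5 := (le_abs_self (‖g‖ * R + 1)).trans h3
  linarith

private theorem pair_of {E : Type*} [AddCommGroup E] [Module ℝ E] {B : Set E} (hB : LinearIndependent ℝ ((↑) : B → E)) {v w : B} (h : v ≠ w) :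
    LinearIndependent ℝ ![v.1, w.1] := by
  have h1 : Function.Injective ![v, w] := by
    intro i j hij
    fin_cases i <;> fin_cases j
    · rfl
    · exact absurd hij h
    · exact absurd hij.symm h
    · rfl
  have h2 := hB.comp _ h1
  have h3 : ![v.1, w.1] = (((↑) : B → E) ∘ ![v, w]) := by
    funext i
    fin_cases i <;> rfl
  rw [h3]
  exact h2

theorem dens {Λ : AddSubgroup (Vd (1 + 1))} (hΛ : Lat Λ) (hs : Simp Λ) {a : Vd (1 + 1)} (ha : a ≠ 0) {ε : ℝ} (hε : 0 < ε) :
    ∃ l ∈ Λ, (∀ c : ℂ, l ≠ c • a) ∧ ∃ c : ℂ, ‖l - c • a‖ < ε := by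
  by_contra hcon
  push Not at hcon
  -- the linear form and a complement
  obtain ⟨π, hπ0, hπa, b, hb⟩ : ∃ π : Vd (1 + 1) →ₗ[ℂ] ℂ, π a = 0 ∧ (∀ y, π y = 0 → ∃ c : ℂ, y = c • a) ∧ ∃ b, π b = 1 := by
    set S : Submodule ℂ (Vd (1 + 1)) := Submodule.span ℂ {a} with hS
    have hfS : Module.finrank ℂ S = 1 := finrank_span_singleton ha
    have hlt : S < ⊤ := by
      rw [lt_top_iff_ne_top]
      intro h
      rw [h, finrank_top, Module.finrank_fintype_fun_eq_card, Fintype.card_fin] at hfS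
      omega
    obtain ⟨f, hf, hle⟩ := Submodule.exists_le_ker_of_lt_top _ hlt
    have hker : LinearMap.ker f = S := by
      refine (Submodule.eq_of_le_of_finrank_le hle ?_).symm
      have h1 := LinearMap.finrank_range_add_finrank_ker f
      rw [Module.finrank_fintype_fun_eq_card, Fintype.card_fin] at h1
      have h2 : 1 ≤ Module.finrank ℂ (LinearMap.range f) := by
        rw [Nat.one_le_iff_ne_zero]
        intro h0
        rw [Submodule.finrank_eq_zero, LinearMap.range_eq_bot] at h0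
        exact hf h0
      omega
    obtain ⟨y, hy⟩ : ∃ y, f y ≠ 0 := by
      by_contra hc
      push Not at hc
      exact hf (LinearMap.ext hc)
    refine ⟨f, ?_, fun z hz => ?_, (f y)⁻¹ • y, by rw [map_smul, smul_eq_mul, inv_mul_cancel₀ hy]⟩
    · exact hle (Submodule.mem_span_singleton_self a)
    have h3 : z ∈ S := by
      rw [← hker]
      exact hz
    obtain ⟨c, hc⟩ := Submodule.mem_span_singleton.1 h3
    exact ⟨c, hc.symm⟩
  have hb0 : 0 < ‖b‖ := by
    rw [norm_pos_iff]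
    rintro rfl
    rw [map_zero] at hb
    exact zero_ne_one hb
  obtain ⟨δ, hδ, hdisc⟩ := hΛ.disc
  obtain ⟨R, hR, hcpt⟩ := hΛ.cpt
  set L : Submodule ℤ (Vd (1 + 1)) := AddSubgroup.toIntSubmodule Λ with hL
  have hLd : DiscreteTopology L := disc_of L hδ hdisc
  have hspan : Submodule.span ℝ (L : Set (Vd (1 + 1))) = ⊤ := span_top_of hcpt
  have hL4 : Module.finrank ℤ L = 4 := by
    rw [← rk L hLd, hspan, finrank_top]
    rw [finrank_real_of_complex, Module.finrank_fintype_fun_eq_card, Fintype.card_fin]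
  have : IsZLattice ℝ L := ⟨hspan⟩
  have : Module.Finite ℤ L := ZLattice.module_finite ℝ L
  -- the map to `ℂ`
  set f : L →ₗ[ℤ] ℂ := (π.restrictScalars ℤ).comp L.subtype with hf
  have hfa : ∀ l : L, f l = π l.1 := fun l => rfl
  have hrk : Module.finrank ℤ (LinearMap.range f) + Module.finrank ℤ (LinearMap.ker f) = Module.finrank ℤ L := by
    rw [← f.quotKerEquivRange.finrank_eq]
    exact Submodule.finrank_quotient_add_finrank _
  have hLr : DiscreteTopology (LinearMap.range f) := by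
    refine disc_of _ (δ := ε / ‖b‖) (by positivity) ?_
    rintro _ ⟨l, rfl⟩ hl
    rw [hfa] at hl ⊢
    by_contra hne
    have h1 : ∀ c : ℂ, l.1 ≠ c • a := by
      intro c hc
      rw [hc, map_smul, hπ0, smul_zero] at hne
      exact hne rfl
    have h2 := hcon l.1 l.2 h1
    obtain ⟨c, hc⟩ := hπa (l.1 - π l.1 • b) (by rw [map_sub, map_smul, hb, smul_eq_mul, mul_one, sub_self])
    have h3 := h2 c
    rw [← hc, sub_sub_cancel, norm_smul] at h3
    rw [lt_div_iff₀ hb0] at hl
    linarith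
  have hr2 : Module.finrank ℤ (LinearMap.range f) ≤ 2 := by
    rw [← rk _ hLr]
    refine (Submodule.finrank_le _).trans ?_
    rw [Complex.finrank_real_complex]
  set K : Submodule ℤ (Vd (1 + 1)) := (LinearMap.ker f).map L.subtype with hK
  have hKf : Module.finrank ℤ K = Module.finrank ℤ (LinearMap.ker f) :=
    (LinearEquiv.finrank_eq (Submodule.equivMapOfInjective L.subtype L.injective_subtype (LinearMap.ker f))).symm
  have hKL : ∀ l ∈ K, l ∈ Λ ∧ ∃ c : ℂ, l = c • a := by
    rintro _ ⟨l, hl, rfl⟩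
    exact ⟨l.2, hπa l.1 hl⟩
  have hKd : DiscreteTopology K := disc_of K hδ fun l hl hn => hdisc l (hKL l hl).1 hn
  have hK2 : 2 ≤ Module.finrank ℝ (Submodule.span ℝ (K : Set (Vd (1 + 1)))) := by
    rw [rk K hKd, hKf]
    omega
  obtain ⟨B, hBK, hBs, hBl⟩ := exists_linearIndependent ℝ (K : Set (Vd (1 + 1)))
  have hBfin : B.Finite := hBl.setFinite
  have : Fintype B := hBfin.fintype
  rw [← hBs] at hK2
  have hcard : 2 ≤ Fintype.card B := by
    have h1 := finrank_span_set_eq_card hBl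
    rw [h1, Set.toFinset_card] at hK2
    exact hK2
  obtain ⟨v, w, hvw⟩ := Fintype.exists_pair_of_one_lt_card hcard
  have hli : LinearIndependent ℝ ![v.1, w.1] := pair_of hBl hvw
  obtain ⟨hv, ω₁, h1⟩ := hKL v.1 (hBK v.2)
  obtain ⟨hw, ω₂, h2⟩ := hKL w.1 (hBK w.2)
  rw [h1] at hv hli
  rw [h2] at hw hli
  refine hs a ha ω₁ ω₂ hv hw ?_
  rw [LinearIndependent.pair_iff] at hli ⊢
  intro s t hst
  refine hli s t ?_
  rw [← smul_assoc, ← smul_assoc, ← add_smul, hst, zero_smul]

end Pool.Agent.G3
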