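import Pool.Agent.G3.Z.CDefs
import Pool.Agent.TG.Cp

/-!
# G3 Z JAn: the integral along short paths is holomorphic on arcs

Let `F`, `G` be curves in `X` over the arc `γ` near `z₀`, `γ z₀ ∈ Gd D δ` off `D` and the distance of `pr (F z)`, `pr (G z)` at most `ε₀` near `z₀`, where `Cst X Λ u D δ' ε ε₀` (`TG/Defs`, `TG/Cp`).  Then
`z ↦ JJ α (γ z) (pr (F z)) (pr (G z))` is analytic at `z₀`.  See `II_analytic` (`TG/Jan`, for sections over open subsets of `ℂ^(k+1)`) and `jj_eq_II` (`TG/JJ`): same proof with the curves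
`q (F z)`, `q (G z)` in a straight chart with `Cap` around `pr (F z₀)`: `II = (A (q (G z)) - A (q (F z))) / ρ^(k+1)` (`IRel.eq_cap`, `II_eq` in `TG/Un`), `A` a primitive (`exists_prim`), analytic.
-/

set_option autoImplicit false

open Topology Filter Metric

namespace Pool.Agent.G3

open Pool.Agent.H36.BP (EN fs wd Sub)
open Pool.Agent.H14.PP (IsCone CurveAt Tan)
open Pool.Agent.H62.EF (MN pr)
open Pool.Agent.AD (Vd Chart Charts)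
open Pool.Agent.TG (TMap Lat Geo Gd)

open Pool.Agent.TG (VForm JJ Fb TransAt)
open Pool.Agent.G3.C (HP)

variable {N k : ℕ} {X : Set (EN N)} {Λ : AddSubgroup (Vd (k + 1))} {u : EN N → Vd (k + 1)} {D B : Set (Vd (k + 1))} {p : EN N → EN N → ℝ} {m d : ℕ} {C : ℝ}
  {Q : EN N → ℂ} {S : Set (Vd (k + 1) → MN N)}

theorem jj_an (G₀ : Geo X Λ u D B) {δ ε ε₀ : ℝ} (hc : Pool.Agent.TG.Cst X Λ u D δ ε ε₀) (α : VForm X Λ u) {F G : ℂ → EN N} {γ : ℂ → Vd (k + 1)} {z₀ : ℂ} {r : ℝ} (hr : 0 < r)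
    (hF : Cv X Λ u (ball z₀ r) F γ) (hG : Cv X Λ u (ball z₀ r) G γ) (hγ : ∀ z ∈ ball z₀ r, γ z ∈ Gd D δ) (hd : ∀ z ∈ ball z₀ r, dist (pr (F z)) (pr (G z)) ≤ ε₀) :
    DifferentiableOn ℂ (fun z => JJ α (γ z) (pr (F z)) (pr (G z))) (ball z₀ r) := by
  intro z₁ hz₁
  have hX := G₀.cone
  have hε := hc.ε_pos
  have hfF : ∀ z ∈ ball z₀ r, pr (F z) ∈ Fb X Λ u (γ z) := fun z hz => Pool.Agent.TG.mem_fb (hF.mem z hz) (hF.lift z hz)
  have hfG : ∀ z ∈ ball z₀ r, pr (G z) ∈ Fb X Λ u (γ z) := fun z hz => Pool.Agent.TG.mem_fb (hG.mem z hz) (hG.lift z hz)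
  have hrel : ∀ z ∈ ball z₀ r, ∃ v, Pool.Agent.TG.IRel α ε (γ z) (pr (F z)) (pr (G z)) v := fun z hz =>
    hc.rel (γ z) (hγ z hz) (pr (F z)) (hfF z hz) (pr (G z)) (hfG z hz) (hd z hz) α
  obtain ⟨χ, c, ρ, hcap⟩ := hc.cap (γ z₁) (hγ z₁ hz₁) (pr (F z₁)) (hfF z₁ hz₁)
  obtain ⟨A, hA⟩ := Pool.Agent.TG.exists_prim α χ hcap.str
  have hUz : ball z₀ r ∈ 𝓝 z₁ := isOpen_ball.mem_nhds hz₁
  have hFa : AnalyticAt ℂ F z₁ := hF.F_diff.analyticAt hUz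
  have hGa : AnalyticAt ℂ G z₁ := hG.F_diff.analyticAt hUz
  have hγa : AnalyticAt ℂ γ z₁ := hF.h_diff.analyticAt hUz
  have hsub : closedBall (0 : Vd (k + 2)) 1 ⊆ ball (0 : Vd (k + 2)) 2 := closedBall_subset_ball (by norm_num)
  have hy₁ : γ z₁ ∈ closedBall (γ z₁) (3 * ε) := mem_closedBall_self (by linarith)
  obtain ⟨v₁, hv₁⟩ := hrel z₁ hz₁
  obtain ⟨-, -, hFG⟩ := hv₁.mem
  obtain ⟨hφU, hφq, -⟩ := hcap.cap (γ z₁) hy₁ (F z₁) (hF.mem z₁ hz₁) (hF.lift z₁ hz₁) (by rw [dist_self]; linarith)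
  obtain ⟨hψU, hψq, -⟩ := hcap.cap (γ z₁) hy₁ (G z₁) (hG.mem z₁ hz₁) (hG.lift z₁ hz₁) (hFG.trans (by linarith))
  have a1 : AnalyticAt ℂ (fun z => A (χ.q (F z))) z₁ :=
    AnalyticAt.comp (f := fun z => χ.q (F z)) (g := A) (hA.an _ (hsub hφq)) (AnalyticAt.comp (f := F) (g := χ.q) (χ.q_an _ hφU) hFa)
  have a2 : AnalyticAt ℂ (fun z => A (χ.q (G z))) z₁ :=
    AnalyticAt.comp (f := fun z => χ.q (G z)) (g := A) (hA.an _ (hsub hψq)) (AnalyticAt.comp (f := G) (g := χ.q) (χ.q_an _ hψU) hGa)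
  have hρ : (ρ : ℂ) ^ (k + 1) ≠ 0 := by
    have h1 := hcap.str.pos
    exact pow_ne_zero _ (by exact_mod_cast h1.ne')
  have a3 : AnalyticAt ℂ (fun z => (A (χ.q (G z)) - A (χ.q (F z))) / (ρ : ℂ) ^ (k + 1)) z₁ := (a2.sub a1).div analyticAt_const hρ
  have e3 : ∀ᶠ z in 𝓝 z₁, γ z ∈ closedBall (γ z₁) (3 * ε) := hγa.continuousAt.eventually (closedBall_mem_nhds _ (by linarith))
  have e4 : ∀ᶠ z in 𝓝 z₁, dist (pr (F z)) (pr (F z₁)) < ε := by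
    have h1 : ContinuousAt (fun z => pr (F z)) z₁ := ContinuousAt.comp (f := F) (g := pr)
      (Pool.Agent.H62.EF.continuousAt_pr (Pool.Agent.TG.ne_zero hX (hF.mem z₁ hz₁))) hFa.continuousAt
    exact h1.eventually (ball_mem_nhds _ hε)
  have a4 : AnalyticAt ℂ (fun z => JJ α (γ z) (pr (F z)) (pr (G z))) z₁ := by
    refine a3.congr ?_
    filter_upwards [hUz, e3, e4] with z h1 h3 h4
    rw [Pool.Agent.TG.jj_eq_II hX G₀.tor G₀.lat hc (hγ z h1) (hfF z h1) (hfG z h1) (hd z h1)]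
    exact (Pool.Agent.TG.II_eq hX G₀.tor G₀.lat (hrel z h1) hcap hA h3 (by linarith) (hF.mem z h1) (hG.mem z h1) rfl rfl).symm
  exact a4.differentiableAt.differentiableWithinAt

end Pool.Agent.G3
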