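import Pool.Agent.G3.Z.Sit
import Pool.Agent.G3.P.Cls

/-!
# G3 Z LctA: the limit of the curves of Theorem LCT

`lct_lim`: choose `l n ∈ Λ` with `‖h n 0 + l n‖ ≤ R` (`Lat.cpt`), `b` the limit of `h n 0 + l n` along `𝒰`; `h n z + l n → z • a + b` locally uniformly (mean value inequality on balls, from `hd`).
`closed_arcs` with `H z = z • a + b` (`LDi` gives `hS`), `Cv.add`; `Csf.cls` gives `Φ ∈ S` with `pr (G z) = Φ (z • a + b)` off `D`.
`lct_isol`: if `h n w ∈ D` then `Q (F n w) = 0` (`QD.zero`, `Cv.lift`); `Q ∘ F n` is holomorphic on the disc and not `0` at `0`.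
`lct_sec`: `Φ` is continuous at the points off `D` (`Csf.hol`), uniformly on compact sets of the line; so `dist (Φ (h n z)) (Φ (z • a + b)) → 0` uniformly on `K`, and with `Lim.flim` the claim.
-/

set_option autoImplicit false

open Topology Filter Metric

namespace Pool.Agent.G3

open Pool.Agent.H36.BP (EN fs wd Sub)
open Pool.Agent.H14.PP (IsCone CurveAt Tan)
open Pool.Agent.H62.EF (MN pr)
open Pool.Agent.AD (Vd Chart Charts)
open Pool.Agent.TG (TMap Lat Geo Gd)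

open Pool.Agent.TG (VForm JJ II Cst Fb TransAt)
open Pool.Agent.G3.C (HP)

variable {N k : ℕ} {X : Set (EN N)} {Λ : AddSubgroup (Vd (k + 1))} {u : EN N → Vd (k + 1)} {D B : Set (Vd (k + 1))} {p : EN N → EN N → ℝ} {m d : ℕ} {C : ℝ}
  {Q : EN N → ℂ} {S : Set (Vd (k + 1) → MN N)} {𝒰 : Ultrafilter ℕ} {F : ℕ → ℂ → EN N} {h : ℕ → ℂ → Vd (k + 1)} {E : ℕ → ℂ → ℂ} {a b : Vd (k + 1)} {Φ : Vd (k + 1) → MN N}

/-- the mean value inequality -/
private theorem LctA_hlim {r : ℝ} (hr : 0 < r) {g : ℂ → Vd (k + 1)} {l a b : Vd (k + 1)} {ε δ : ℝ}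
    (hg : DifferentiableOn ℂ g (ball 0 r)) (hd : ∀ z ∈ ball (0 : ℂ) r, ‖deriv g z - a‖ ≤ δ)
    (h0 : ‖g 0 + l - b‖ < ε) {z : ℂ} (hz : z ∈ ball (0 : ℂ) r) : ‖g z + l - (z • a + b)‖ < ε + δ * r := by
  have hdiff : ∀ x ∈ ball (0 : ℂ) r, DifferentiableAt ℂ (fun w => g w - w • a) x := fun x hx =>
    (hg.differentiableAt (isOpen_ball.mem_nhds hx)).sub ((differentiableAt_id).smul_const a)
  have hder : ∀ x ∈ ball (0 : ℂ) r, ‖deriv (fun w => g w - w • a) x‖ ≤ δ := by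
    intro x hx
    have h1 : deriv (fun w => g w - w • a) x = deriv g x - a := by
      have h2 : HasDerivAt (fun w : ℂ => w • a) ((1 : ℂ) • a) x := (hasDerivAt_id x).smul_const a
      have h3 := (hg.differentiableAt (isOpen_ball.mem_nhds hx)).hasDerivAt.sub h2
      rw [one_smul] at h3
      exact h3.deriv
    rw [h1]
    exact hd x hx
  have h0m : (0 : ℂ) ∈ ball (0 : ℂ) r := mem_ball_self hr
  have h1 := (convex_ball (0 : ℂ) r).norm_image_sub_le_of_norm_deriv_le hdiff hder h0m hz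
  have hδ : 0 ≤ δ := (norm_nonneg _).trans (hd 0 h0m)
  have hzr : ‖z‖ < r := by rwa [mem_ball_zero_iff] at hz
  have h2 : δ * ‖z - 0‖ ≤ δ * r := by
    rw [sub_zero]
    exact mul_le_mul_of_nonneg_left hzr.le hδ
  have h3 : g z + l - (z • a + b) = ((g z - z • a) - (g 0 - (0 : ℂ) • a)) + (g 0 + l - b) := by
    rw [zero_smul]
    abel
  rw [h3]
  have h4 := norm_add_le ((g z - z • a) - (g 0 - (0 : ℂ) • a)) (g 0 + l - b)
  linarith

theorem lct_lim (hX : IsCone X) (hu : TMap X Λ u) (hΛ : Lat Λ) (hDc : IsClosed D) (hL : LDi D) (hP : PS X Λ u D p m C) (hS : Csf X Λ u D S) (ha : a ≠ 0)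
    (hF : ∀ r : ℝ, ∀ᶠ n in (𝒰 : Filter ℕ), Cv X Λ u (ball 0 r) (F n) (h n))
    (hd : ∀ r ε : ℝ, 0 < ε → ∀ᶠ n in (𝒰 : Filter ℕ), ∀ z ∈ ball (0 : ℂ) r, ‖deriv (h n) z - a‖ ≤ ε) :
    ∃ (l : ℕ → Vd (k + 1)) (b : Vd (k + 1)) (Φ : Vd (k + 1) → MN N), (∀ n, l n ∈ Λ) ∧ Φ ∈ S ∧ Lim X Λ u D 𝒰 F (fun n z => h n z + l n) a b Φ := by
  obtain ⟨R, hR, hcpt⟩ := hΛ.cpt
  choose l' hl' hl'R using fun n => hcpt (h n 0)
  -- the limit of the base points
  obtain ⟨b, -, hb⟩ := (isCompact_closedBall (0 : Vd (k + 1)) R).ultrafilter_le_nhds (𝒰.map fun n => h n 0 + -l' n) (by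
    rw [le_principal_iff, Ultrafilter.mem_coe, Ultrafilter.mem_map]
    refine Filter.univ_mem' fun n => ?_
    simp only [Set.mem_preimage, mem_closedBall, dist_zero_right]
    rw [← sub_eq_add_neg]
    exact hl'R n)
  have hb' : Tendsto (fun n => h n 0 + -l' n) (𝒰 : Filter ℕ) (𝓝 b) := hb
  have hlim : ∀ r ε : ℝ, 0 < ε → ∀ᶠ n in (𝒰 : Filter ℕ), ∀ z ∈ closedBall (0 : ℂ) r, ‖h n z + -l' n - (z • a + b)‖ < ε := by
    intro r ε hε
    have hr : 0 < |r| + 1 := by positivity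
    have h1 : ∀ᶠ n in (𝒰 : Filter ℕ), ‖h n 0 + -l' n - b‖ < ε / 2 := by
      have h2 := Metric.tendsto_nhds.mp hb' (ε / 2) (by positivity)
      filter_upwards [h2] with n hn
      rwa [dist_eq_norm] at hn
    filter_upwards [h1, hF (|r| + 1), hd (|r| + 1) (ε / 2 / (|r| + 1)) (by positivity)] with n h2 h3 h4 z hz
    have hz' : z ∈ ball (0 : ℂ) (|r| + 1) := by
      rw [mem_closedBall, dist_zero_right] at hz
      rw [mem_ball, dist_zero_right]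
      have := le_abs_self r
      linarith
    have h5 := LctA_hlim hr h3.h_diff h4 h2 hz'
    have h6 : ε / 2 / (|r| + 1) * (|r| + 1) = ε / 2 := by field_simp
    rw [h6] at h5
    linarith
  have hF' : ∀ r : ℝ, ∀ᶠ n in (𝒰 : Filter ℕ), Cv X Λ u (ball 0 r) (F n) (fun z => h n z + -l' n) := by
    intro r
    filter_upwards [hF r] with n hn
    exact hn.add (Λ.neg_mem (hl' n))
  have hder : ∀ z : ℂ, HasDerivAt (fun w : ℂ => w • a + b) a z := by
    intro z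
    have h2 : HasDerivAt (fun w : ℂ => w • a) ((1 : ℂ) • a) z := (hasDerivAt_id z).smul_const a
    rw [one_smul] at h2
    exact h2.add_const b
  obtain ⟨G, hG, hGc⟩ := closed_arcs hX hu hΛ hDc hP 𝒰 (F := F) (h := fun n z => h n z + -l' n) (H := fun z => z • a + b) hF'
    (fun z => (hder z).differentiableAt) hlim (fun z => hL a ha b z) ⟨0, by rw [(hder 0).deriv]; exact ha⟩
  obtain ⟨Φ, hΦ, hΦG⟩ := hS.cls a ha b G hG
  refine ⟨fun n => -l' n, b, Φ, fun n => Λ.neg_mem (hl' n), hΦ, ⟨hF', ha, hlim, fun K hK hKD ε hε => ?_⟩⟩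
  filter_upwards [hGc K hK hKD ε hε] with n hn z hz
  rw [← hΦG z (hKD z hz)]
  exact hn z hz

theorem lct_isol (hQ : QD X Λ u D Q d) {F : ℂ → EN N} {h : ℂ → Vd (k + 1)} {r : ℝ} (hr : 0 < r) (hF : Cv X Λ u (ball 0 r) F h) (h0 : Q (F 0) ≠ 0) :
    ∀ z ∈ ball (0 : ℂ) r, ∀ᶠ w in 𝓝[≠] z, h w ∉ D := by
  intro z hz
  by_contra hcon
  have hfr : ∃ᶠ w in 𝓝[≠] z, h w ∈ D := fun hev => hcon (hev.mono fun w hw => hw)
  have hmem : ∀ᶠ w in 𝓝[≠] z, w ∈ ball (0 : ℂ) r := mem_nhdsWithin_of_mem_nhds (isOpen_ball.mem_nhds hz)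
  have hfr2 : ∃ᶠ w in 𝓝[≠] z, Q (F w) = 0 := (hfr.and_eventually hmem).mono fun w hw =>
    hQ.zero (F w) (hF.mem w hw.2) (h w) hw.1 (hF.lift w hw.2)
  have hdiff : DifferentiableOn ℂ (fun w => Q (F w)) (ball 0 r) := hQ.diff.comp_differentiableOn hF.F_diff
  have han : AnalyticOnNhd ℂ (fun w => Q (F w)) (ball 0 r) := hdiff.analyticOnNhd isOpen_ball
  have hz0 := han.eqOn_zero_of_preconnected_of_frequently_eq_zero (convex_ball (0 : ℂ) r).isPreconnected hz hfr2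
  exact h0 (hz0 (mem_ball_self hr))

/-- the section is continuous off `D`, with values in the fibre -/
private theorem LctA_cont (hX : IsCone X) (hS : Csf X Λ u D S) (hΦ : Φ ∈ S) {y : Vd (k + 1)} (hy : y ∉ D) :
    ContinuousAt Φ y ∧ ∀ᶠ z in 𝓝 y, Φ z ∈ Fb X Λ u z := by
  obtain ⟨φ, hφ, hev⟩ := hS.hol Φ hΦ y hy
  have hy0 := hev.self_of_nhds
  have h1 : ContinuousAt (fun z => pr (φ z)) y :=
    ContinuousAt.comp (g := fun x : EN N => pr x) (Pool.Agent.H62.EF.continuousAt_pr (Pool.Agent.TG.ne_zero hX hy0.1)) hφ.continuousAt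
  refine ⟨h1.congr (hev.mono fun z hz => hz.2.1.symm), hev.mono fun z hz => ⟨φ z, hz.1, hz.2.1.symm, hz.2.2⟩⟩

theorem lct_sec (hX : IsCone X) (hDc : IsClosed D) (hS : Csf X Λ u D S) (hΦ : Φ ∈ S) (hl : Lim X Λ u D 𝒰 F h a b Φ) {K : Set ℂ} (hK : IsCompact K) (hKD : ∀ z ∈ K, z • a + b ∉ D) {ε : ℝ} (hε : 0 < ε) :
    ∀ᶠ n in (𝒰 : Filter ℕ), ∀ z ∈ K, h n z ∉ D ∧ Φ (h n z) ∈ Fb X Λ u (h n z) ∧ pr (F n z) ∈ Fb X Λ u (h n z) ∧ dist (Φ (h n z)) (pr (F n z)) < ε := by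
  have hHc : Continuous (fun z : ℂ => z • a + b) := (continuous_id.smul continuous_const).add continuous_const
  -- local statement
  have hloc : ∀ z ∈ K, ∃ t ∈ 𝓝 z, ∃ δ : ℝ, 0 < δ ∧ ∀ w ∈ t, ∀ y : Vd (k + 1), ‖y - (w • a + b)‖ < δ →
      y ∉ D ∧ Φ y ∈ Fb X Λ u y ∧ dist (Φ y) (Φ (w • a + b)) < ε / 2 := by
    intro z hz
    obtain ⟨hc, hev⟩ := LctA_cont hX hS hΦ (hKD z hz)
    have hD : ∀ᶠ y in 𝓝 (z • a + b), y ∉ D := hDc.isOpen_compl.mem_nhds (hKD z hz)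
    have hc2 : ∀ᶠ y in 𝓝 (z • a + b), dist (Φ y) (Φ (z • a + b)) < ε / 4 := Metric.tendsto_nhds.mp hc (ε / 4) (by positivity)
    obtain ⟨δ, hδ, hball⟩ := Metric.eventually_nhds_iff.mp ((hev.and hD).and hc2)
    refine ⟨(fun w : ℂ => w • a + b) ⁻¹' ball (z • a + b) (δ / 2), hHc.continuousAt.preimage_mem_nhds (ball_mem_nhds _ (by positivity)), δ / 2,
      by positivity, fun w hw y hy => ?_⟩
    have hw1 : dist (w • a + b) (z • a + b) < δ / 2 := hw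
    have hy1 : dist y (z • a + b) < δ := by
      have h1 := dist_triangle y (w • a + b) (z • a + b)
      rw [dist_eq_norm y (w • a + b)] at h1
      linarith
    have h2 := hball hy1
    have h3 := hball (hw1.trans (by linarith))
    refine ⟨h2.1.2, h2.1.1, ?_⟩
    have h4 := dist_triangle_right (Φ y) (Φ (w • a + b)) (Φ (z • a + b))
    have h5 := h2.2
    have h6 := h3.2
    linarith
  choose! t ht δ hδ hδt using hloc
  obtain ⟨I, hIK, hIc⟩ := hK.elim_nhds_subcover t fun z hz => ht z hz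
  have hbd : ∃ r : ℝ, ∀ z ∈ K, z ∈ closedBall (0 : ℂ) r := by
    obtain ⟨r, hr⟩ := hK.isBounded.subset_closedBall (0 : ℂ)
    exact ⟨r, fun z hz => hr hz⟩
  obtain ⟨r, hr⟩ := hbd
  -- a common radius
  obtain ⟨η, hη, hηI⟩ : ∃ η : ℝ, 0 < η ∧ ∀ i ∈ I, η ≤ δ i := by
    rcases I.eq_empty_or_nonempty with h0 | h0
    · exact ⟨1, one_pos, fun i hi => by rw [h0] at hi; exact absurd hi (Finset.notMem_empty i)⟩
    · obtain ⟨i₀, hi₀, hmin⟩ := I.exists_min_image δ h0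
      exact ⟨δ i₀, hδ i₀ (hIK i₀ hi₀), hmin⟩
  filter_upwards [hl.hlim r η hη, hl.flim K hK hKD (ε / 2) (by positivity), hl.cv (|r| + 1)] with n h1 h2 h3 z hz
  obtain ⟨i, hi, hzi⟩ := Set.mem_iUnion₂.mp (hIc hz)
  have h4 := hδt i (hIK i hi) z hzi (h n z) ((h1 z (hr z hz)).trans_le (hηI i hi))
  have hzb : z ∈ ball (0 : ℂ) (|r| + 1) := by
    have h5 := hr z hz
    rw [mem_closedBall, dist_zero_right] at h5
    rw [mem_ball, dist_zero_right]
    have := le_abs_self r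
    linarith
  refine ⟨h4.1, h4.2.1, ⟨F n z, h3.mem z hzb, rfl, h3.lift z hzb⟩, ?_⟩
  have h5 := h2 z hz
  have h6 := dist_triangle (Φ (h n z)) (Φ (z • a + b)) (pr (F n z))
  rw [dist_comm (Φ (z • a + b))] at h6
  have h7 := h4.2.2
  linarith

end Pool.Agent.G3
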