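import Pool.Agent.G3.Z.CDefs
import Pool.Agent.G3.Z.Dens
import Pool.Agent.TG.Cp
import Pool.Agent.TG.Nr
import Pool.Agent.TG.IsoA
import Pool.Agent.TG.Cn
import Pool.Agent.TN.Osg

/-!
# G3 Z LocA: the order of `Q` along a section

For `y ∉ D` the section `Φ` passes through a point at which `u` is a submersion.  `OG j y`: for every curve `γ` in `X` over `y` with `pr (γ 0) = Φ y` one has `Q (γ t) = O(t^j)`.
This definition does not use charts; in a straight chart `χ` with `Φ y = pr (χ.σ q)`, `ms c ρ q = y`, it means `Q (χ.σ (q + t e₀)) = O(t^j)` (`og_iff`).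

`ordQ`: there are `μ ≥ 1` and a set `Z` with the following properties: (i) at every `y₀ ∉ D`: in a straight chart near `Φ y₀` the function `Q ∘ χ.σ` is `(p₀ - φ (tl p))^μ * b p` near the point, `φ` the first
coordinate of the section, `b` analytic, and for `y` near `y₀`: `y ∈ Z ↔ b (point of the section over y) = 0`; (ii) `Z` is `Λ`-invariant up to a finite index; (iii) every line meets `D ∪ Z` in a countable set.

Proof.  `local_data`: near `y₀ ∉ D` the section is `cons (φ y) (ρ⁻¹ (y - y₀))` in a straight chart, and `K p = Q (χ.σ (cons (φ (ms y₀ ρ p) + p 0) (tl p)))` is analytic on a ball; `OG j (y₀ + ρ v)` means `K (cons t v) = O(t^j)`.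
`ord_finite`: if `OG j y` held for all `j`, `y ∉ D` then `K = 0` and `Q = 0` near a point of `X`.  `μ + 1` is the smallest `j` such that `OG j y` is false for some `y ∉ D`, `Z = {y ∉ D | OG (μ + 1) y}`.
`div_pow`, `div_iff`: `K = (p 0)^μ b`, `b (cons 0 v) = 0` iff `K (cons t v) = O(t^(μ + 1))`.  `period`: the finite set `S` gives a common period `M = |S|!`.
`lines_count`: if a line meets `Z` in a set with an accumulation point outside `D` then the whole line is in `Z` outside `D` (its part outside `D` is connected), also the parallel lines translated by `M Λ`, which accumulate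
(`dens`); so the local equation of `Z` vanishes near a point, and by `compl_conn` `Z = Dᶜ`: contradiction.
-/

set_option autoImplicit false

open Topology Filter Metric

namespace Pool.Agent.G3

open Pool.Agent.H36.BP (EN fs wd Sub)
open Pool.Agent.H14.PP (IsCone CurveAt Tan)
open Pool.Agent.H62.EF (MN pr)
open Pool.Agent.AD (Vd Chart Charts)
open Pool.Agent.TG (TMap Lat Geo Gd)

open Pool.Agent.TG (VForm JJ Fb TransAt)
open Pool.Agent.G3.C (HP)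

variable {N k : ℕ}

/-- in a straight chart near the section `Φ` the form `Q` is `(p₀ - φ)^μ b`, and `Z` is the set of the zeros of `b` on the section -/
def OrdAt (X : Set (EN N)) (Λ : AddSubgroup (Vd (k + 1))) (u : EN N → Vd (k + 1)) (Q : EN N → ℂ) (Φ : Vd (k + 1) → MN N) (μ : ℕ) (Z : Set (Vd (k + 1))) (y₀ : Vd (k + 1)) : Prop :=
  ∃ (χ : Chart (k + 2) X) (c : Vd (k + 1)) (ρ : ℝ) (q₀ : Vd (k + 2)) (φ : Vd (k + 1) → ℂ) (b : Vd (k + 2) → ℂ), Pool.Agent.TG.Str Λ u χ c ρ ∧ q₀ ∈ ball (0 : Vd (k + 2)) 2 ∧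
    Pool.Agent.TG.ms c ρ q₀ = y₀ ∧ AnalyticAt ℂ φ y₀ ∧ φ y₀ = q₀ 0 ∧ AnalyticAt ℂ b q₀ ∧
    (∀ᶠ y in 𝓝 y₀, Φ y = pr (χ.σ (Fin.cons (α := fun _ => ℂ) (φ y) ((ρ : ℂ)⁻¹ • (y - c))))) ∧
    (∀ᶠ q in 𝓝 q₀, Q (χ.σ q) = (q 0 - φ (Pool.Agent.TG.ms c ρ q)) ^ μ * b q) ∧
    ∀ᶠ y in 𝓝 y₀, (y ∈ Z ↔ b (Fin.cons (α := fun _ => ℂ) (φ y) ((ρ : ℂ)⁻¹ • (y - c))) = 0)

/-- the order of `Q` at `Φ y` along the fibre over `y` is at least `j` -/
private def OG (X : Set (EN N)) (Λ : AddSubgroup (Vd (k + 1))) (u : EN N → Vd (k + 1)) (Q : EN N → ℂ) (Φ : Vd (k + 1) → MN N) (j : ℕ) (y : Vd (k + 1)) : Prop :=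
  ∀ γ : ℂ → EN N, AnalyticAt ℂ γ 0 → (∀ᶠ t in 𝓝 (0 : ℂ), γ t ∈ X ∧ u (γ t) - y ∈ Λ) → pr (γ 0) = Φ y →
    (fun t => Q (γ t)) =O[𝓝 (0 : ℂ)] (fun t : ℂ => t ^ j)

private theorem disc_zero {Λ : AddSubgroup (Vd (k + 1))} (hΛ : Lat Λ) {T : Type*} [TopologicalSpace T] {f : T → Vd (k + 1)} {x₀ : T}
    (hf : ContinuousAt f x₀) (h0 : f x₀ = 0) (h : ∀ᶠ x in 𝓝 x₀, f x ∈ Λ) : ∀ᶠ x in 𝓝 x₀, f x = 0 := by
  obtain ⟨δ, hδ, hd⟩ := hΛ.disc
  have h1 : ∀ᶠ x in 𝓝 x₀, ‖f x‖ < δ := by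
    refine hf.norm.eventually_lt_const ?_
    simp only [h0, norm_zero]
    exact hδ
  filter_upwards [h, h1] with x hx hx'
  exact hd _ hx hx'

private theorem ms_mem {X : Set (EN N)} {Λ : AddSubgroup (Vd (k + 1))} {u : EN N → Vd (k + 1)} (hu : TMap X Λ u) {χ : Chart (k + 2) X} {c : Vd (k + 1)} {ρ : ℝ}
    (hm : Pool.Agent.TG.Str Λ u χ c ρ) {x : EN N} (hx : x ∈ X) (hU : x ∈ χ.U) {y : Vd (k + 1)} (h : u x - y ∈ Λ) :
    Pool.Agent.TG.ms c ρ (χ.q x) - y ∈ Λ := by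
  obtain ⟨hb, a, ha, e⟩ := χ.surj x hx hU
  have h1 : u x - u (χ.σ (χ.q x)) ∈ Λ := by
    have h3 := hu.smul _ (χ.σ_mem _ hb).1 a ha
    rw [← e] at h3
    exact h3
  have h2 := hm.lift _ hb
  have h3 := Λ.sub_mem (Λ.sub_mem h h1) h2
  convert h3 using 1
  abel

private theorem eq_cons {c y : Vd (k + 1)} {ρ : ℝ} (hρ : 0 < ρ) {q : Vd (k + 2)} (h : Pool.Agent.TG.ms c ρ q = y) :
    q = Fin.cons (α := fun _ => ℂ) (q 0) ((ρ : ℂ)⁻¹ • (y - c)) := by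
  have hρ' : (ρ : ℂ) ≠ 0 := by exact_mod_cast hρ.ne'
  have h1 : (ρ : ℂ)⁻¹ • (y - c) = Pool.Agent.TG.tl q := by
    rw [← h]
    unfold Pool.Agent.TG.ms
    rw [add_sub_cancel_left, smul_smul, inv_mul_cancel₀ hρ', one_smul]
  rw [h1]
  funext i
  refine Fin.cases ?_ (fun j => ?_) i
  · rfl
  · rfl

private theorem og_iff {X : Set (EN N)} {Λ : AddSubgroup (Vd (k + 1))} {u : EN N → Vd (k + 1)} {Q : EN N → ℂ} {Φ : Vd (k + 1) → MN N} {d : ℕ}
    (hX : IsCone X) (hu : TMap X Λ u) (hΛ : Lat Λ) (hQh : ∀ (c : ℂ) (x : EN N), Q (c • x) = c ^ d * Q x)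
    {χ : Chart (k + 2) X} {c : Vd (k + 1)} {ρ : ℝ} (hm : Pool.Agent.TG.Str Λ u χ c ρ) {q : Vd (k + 2)} (hq : q ∈ ball (0 : Vd (k + 2)) 2)
    {y : Vd (k + 1)} (hy : Pool.Agent.TG.ms c ρ q = y) (hΦ : pr (χ.σ q) = Φ y) (j : ℕ) :
    OG X Λ u Q Φ j y ↔ (fun t : ℂ => Q (χ.σ (q + t • (Pi.single 0 1 : Vd (k + 2))))) =O[𝓝 (0 : ℂ)] (fun t : ℂ => t ^ j) := by
  have hline : ∀ t : ℂ, Pool.Agent.TG.ms c ρ (q + t • (Pi.single 0 1 : Vd (k + 2))) = y := by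
    intro t
    rw [← hy]
    unfold Pool.Agent.TG.ms
    congr 2
    rw [Pool.Agent.TG.tl_add, Pool.Agent.TG.tl_smul]
    have : Pool.Agent.TG.tl (Pi.single 0 1 : Vd (k + 2)) = 0 := by
      funext i
      unfold Pool.Agent.TG.tl
      rw [Pi.single_apply, if_neg (Fin.succ_ne_zero i)]
      rfl
    rw [this, smul_zero, add_zero]
  have e0 : q + (0 : ℂ) • (Pi.single 0 1 : Vd (k + 2)) = q := by rw [zero_smul, add_zero]
  have hla : AnalyticAt ℂ (fun t : ℂ => q + t • (Pi.single 0 1 : Vd (k + 2))) 0 := by fun_prop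
  constructor
  · intro h
    refine h (fun t => χ.σ (q + t • (Pi.single 0 1 : Vd (k + 2)))) ?_ ?_ ?_
    · refine AnalyticAt.fun_comp (g := χ.σ) (f := fun t : ℂ => q + t • (Pi.single 0 1 : Vd (k + 2))) ?_ hla
      simp only [e0]
      exact χ.σ_an q hq
    · have h1 : ∀ᶠ t in 𝓝 (0 : ℂ), q + t • (Pi.single 0 1 : Vd (k + 2)) ∈ ball (0 : Vd (k + 2)) 2 := by
        refine hla.continuousAt.eventually_mem ?_
        simp only [e0]
        exact isOpen_ball.mem_nhds hq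
      filter_upwards [h1] with t ht
      refine ⟨(χ.σ_mem _ ht).1, ?_⟩
      have h2 := hm.lift _ ht
      rwa [hline] at h2
    · simp only [e0]
      exact hΦ
  · intro h γ hγ hγX hγ0
    have hx0 := (hγX.self_of_nhds).1
    have hσX := (χ.σ_mem q hq)
    obtain ⟨a, ha, hae⟩ := (Pool.Agent.H62.EF.pr_eq_iff (Pool.Agent.TG.ne_zero hX hx0) (Pool.Agent.TG.ne_zero hX hσX.1)).1 (hγ0.trans hΦ.symm)
    have hU0 : γ 0 ∈ χ.U := by
      rw [hae]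
      exact χ.smul_U _ hσX.2.1 _ ha
    have hq0 : χ.q (γ 0) = q := by
      rw [hae, χ.q_smul _ hσX.2.1 _ ha, hσX.2.2]
    have hqa : AnalyticAt ℂ (fun t => χ.q (γ t)) 0 := AnalyticAt.fun_comp (g := χ.q) (f := γ) (χ.q_an _ hU0) hγ
    have hU : ∀ᶠ t in 𝓝 (0 : ℂ), γ t ∈ χ.U := hγ.continuousAt.eventually_mem (χ.isOpen_U.mem_nhds hU0)
    have hms : ∀ᶠ t in 𝓝 (0 : ℂ), Pool.Agent.TG.ms c ρ (χ.q (γ t)) - y = 0 := by
      refine disc_zero hΛ ?_ ?_ ?_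
      · have h1 : ContinuousAt (Pool.Agent.TG.ms c ρ) (χ.q (γ 0)) := (Pool.Agent.TG.ms_an c ρ _).continuousAt
        exact (ContinuousAt.comp (g := Pool.Agent.TG.ms c ρ) (f := fun t => χ.q (γ t)) h1 hqa.continuousAt).sub continuousAt_const
      · rw [hq0, hy, sub_self]
      · filter_upwards [hU, hγX] with t h1 h2
        exact ms_mem hu hm h2.1 h1 h2.2
    -- the parameter
    set s : ℂ → ℂ := fun t => χ.q (γ t) 0 - q 0 with hs
    have hsa : DifferentiableAt ℂ s 0 := by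
      have h1 := differentiableAt_pi.1 hqa.differentiableAt 0
      exact h1.sub_const _
    have hs0 : s 0 = 0 := by
      simp only [hs]
      rw [hq0, sub_self]
    have hqs : ∀ᶠ t in 𝓝 (0 : ℂ), χ.q (γ t) = q + s t • (Pi.single 0 1 : Vd (k + 2)) := by
      filter_upwards [hms] with t ht
      have h1 := eq_cons hm.pos (sub_eq_zero.1 ht)
      have h2 := eq_cons hm.pos hy
      funext i
      refine Fin.cases ?_ (fun i => ?_) i
      · simp [hs]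
      · have h3 := congrFun h1 i.succ
        have h4 := congrFun h2 i.succ
        simp only [Fin.cons_succ] at h3 h4
        rw [h3]
        simp only [Pi.add_apply, Pi.smul_apply, Pi.single_apply, if_neg (Fin.succ_ne_zero i), smul_zero, add_zero]
        exact h4.symm
    have hsO : s =O[𝓝 (0 : ℂ)] (fun t : ℂ => t) := by
      have h1 := hsa.hasFDerivAt.isBigO_sub
      simpa [hs0] using h1
    have hst : Tendsto s (𝓝 0) (𝓝 0) := by
      have h1 := hsa.continuousAt.tendsto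
      rwa [hs0] at h1
    have h1 := (h.comp_tendsto hst)
    have h2 : ((fun t : ℂ => t ^ j) ∘ s) =O[𝓝 (0 : ℂ)] (fun t : ℂ => t ^ j) := by
      exact hsO.pow j
    have h3 := h1.trans h2
    -- the factor
    have hf : ∀ᶠ t in 𝓝 (0 : ℂ), ‖Q (γ t)‖ ≤ ((‖γ 0‖ + 1) / (‖χ.σ q‖ / 2)) ^ d * ‖Q (χ.σ (q + s t • (Pi.single 0 1 : Vd (k + 2))))‖ := by
      have hσ0 : 0 < ‖χ.σ q‖ := norm_pos_iff.2 (Pool.Agent.TG.ne_zero hX hσX.1)
      have g1 : ∀ᶠ t in 𝓝 (0 : ℂ), ‖γ t‖ < ‖γ 0‖ + 1 := hγ.continuousAt.norm.eventually_lt_const (by linarith)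
      have g2 : ∀ᶠ t in 𝓝 (0 : ℂ), ‖χ.σ q‖ / 2 < ‖χ.σ (χ.q (γ t))‖ := by
        have h4 : ContinuousAt χ.σ (χ.q (γ 0)) := by
          rw [hq0]
          exact (χ.σ_an q hq).continuousAt
        have h5 : ContinuousAt (fun t => χ.σ (χ.q (γ t))) 0 := ContinuousAt.comp (g := χ.σ) (f := fun t => χ.q (γ t)) h4 hqa.continuousAt
        refine h5.norm.eventually_const_lt ?_
        simp only [hq0]
        linarith
      filter_upwards [hqs, hU, hγX, g1, g2] with t e1 e2 e3 e4 e5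
      obtain ⟨hb, b, hb0, hbe⟩ := χ.surj _ e3.1 e2
      have e6 : ‖γ t‖ = ‖b‖ * ‖χ.σ (χ.q (γ t))‖ := by
        conv_lhs => rw [hbe]
        rw [norm_smul]
      have e7 : ‖b‖ ≤ (‖γ 0‖ + 1) / (‖χ.σ q‖ / 2) := by
        rw [le_div_iff₀ (by positivity)]
        calc ‖b‖ * (‖χ.σ q‖ / 2) ≤ ‖b‖ * ‖χ.σ (χ.q (γ t))‖ := mul_le_mul_of_nonneg_left e5.le (norm_nonneg _)
          _ = ‖γ t‖ := e6.symm
          _ ≤ _ := e4.le
      have e8 : Q (γ t) = b ^ d * Q (χ.σ (χ.q (γ t))) := by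
        conv_lhs => rw [hbe]
        rw [hQh]
      rw [e8, norm_mul, norm_pow, ← e1]
      exact mul_le_mul_of_nonneg_right (pow_le_pow_left₀ (norm_nonneg _) e7 d) (norm_nonneg _)
    have h4 : (fun t => Q (γ t)) =O[𝓝 (0 : ℂ)] ((fun t : ℂ => Q (χ.σ (q + t • (Pi.single 0 1 : Vd (k + 2))))) ∘ s) :=
      Asymptotics.IsBigO.of_bound _ hf
    exact h4.trans h3

private theorem O_zero {g : ℂ → ℂ} (hg : ContinuousAt g 0) {μ : ℕ} (h : (fun t : ℂ => t ^ μ * g t) =O[𝓝 (0 : ℂ)] (fun t : ℂ => t ^ (μ + 1))) : g 0 = 0 := by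
  obtain ⟨C, hC⟩ := h.bound
  have h1 : ∀ᶠ t in 𝓝[≠] (0 : ℂ), ‖g t‖ ≤ C * ‖t‖ := by
    have h2 : ∀ᶠ t in 𝓝[≠] (0 : ℂ), t ≠ 0 := eventually_mem_nhdsWithin
    filter_upwards [hC.filter_mono nhdsWithin_le_nhds, h2] with t ht h0
    have h3 : 0 < ‖t‖ ^ μ := pow_pos (norm_pos_iff.2 h0) μ
    rw [norm_mul, norm_pow, norm_pow, pow_succ] at ht
    refine le_of_mul_le_mul_left ?_ h3
    linarith
  have h2 : Tendsto (fun t => ‖g t‖) (𝓝[≠] (0 : ℂ)) (𝓝 ‖g 0‖) := hg.norm.tendsto.mono_left nhdsWithin_le_nhds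
  have h3 : Tendsto (fun t : ℂ => C * ‖t‖) (𝓝[≠] (0 : ℂ)) (𝓝 0) := by
    have h4 : Continuous fun t : ℂ => C * ‖t‖ := by fun_prop
    have h5 := (h4.tendsto 0).mono_left (nhdsWithin_le_nhds (s := {(0 : ℂ)}ᶜ))
    simpa using h5
  have h4 := le_of_tendsto_of_tendsto h2 h3 h1
  exact norm_le_zero_iff.1 h4

private theorem O_of {g : ℂ → ℂ} (hg : DifferentiableAt ℂ g 0) (h0 : g 0 = 0) (μ : ℕ) : (fun t : ℂ => t ^ μ * g t) =O[𝓝 (0 : ℂ)] (fun t : ℂ => t ^ (μ + 1)) := by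
  have h1 : g =O[𝓝 (0 : ℂ)] (fun t : ℂ => t) := by
    have h2 := hg.hasFDerivAt.isBigO_sub
    simpa [h0] using h2
  exact (Asymptotics.isBigO_refl (fun t : ℂ => t ^ μ) (𝓝 (0 : ℂ))).mul h1

private theorem flat {g : ℂ → ℂ} (hg : AnalyticAt ℂ g 0) (h : ∀ j : ℕ, g =O[𝓝 (0 : ℂ)] (fun t : ℂ => t ^ j)) : ∀ᶠ t in 𝓝 (0 : ℂ), g t = 0 := by
  rw [← analyticOrderAt_eq_top]
  by_contra hne
  obtain ⟨n, hn⟩ := ENat.ne_top_iff_exists.1 hne
  obtain ⟨f, hf, hf0, hfg⟩ := (hg.analyticOrderAt_eq_natCast (n := n)).1 hn.symm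
  refine hf0 (O_zero (μ := n) hf.continuousAt ?_)
  refine Asymptotics.IsBigO.congr' (h (n + 1)) ?_ (EventuallyEq.refl _ _)
  filter_upwards [hfg] with t ht
  rw [ht, sub_zero, smul_eq_mul]

private theorem cons_mem {m : ℕ} {R : ℝ} {t : ℂ} {v : Vd m} (ht : ‖t‖ < R) (hv : ‖v‖ < R) : (Fin.cons (α := fun _ => ℂ) t v : Vd (m + 1)) ∈ ball (0 : Vd (m + 1)) R := by
  have hR : 0 < R := (norm_nonneg _).trans_lt ht
  rw [mem_ball_zero_iff, pi_norm_lt_iff hR]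
  intro i
  refine Fin.cases ?_ (fun j => ?_) i
  · simpa using ht
  · simpa using (norm_le_pi_norm v j).trans_lt hv

private theorem cons_line {m : ℕ} (t : ℂ) (v : Vd m) : (Fin.cons (α := fun _ => ℂ) t v : Vd (m + 1)) = (Fin.cons (α := fun _ => ℂ) 0 v : Vd (m + 1)) + t • (Pi.single 0 1 : Vd (m + 1)) := by
  funext i
  refine Fin.cases ?_ (fun j => ?_) i
  · simp
  · simp

private theorem cons_diff {m : ℕ} (v : Vd m) (t : ℂ) : AnalyticAt ℂ (fun t : ℂ => (Fin.cons (α := fun _ => ℂ) t v : Vd (m + 1))) t := by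
  have h : (fun t : ℂ => (Fin.cons (α := fun _ => ℂ) t v : Vd (m + 1))) = fun t : ℂ => (Fin.cons (α := fun _ => ℂ) 0 v : Vd (m + 1)) + t • (Pi.single 0 1 : Vd (m + 1)) := by
    funext t
    exact cons_line t v
  rw [h]
  fun_prop

private theorem cons_an {m : ℕ} {E : Type*} [NormedAddCommGroup E] [NormedSpace ℂ E] {f : E → ℂ} {g : E → Vd m} {x : E} (hf : AnalyticAt ℂ f x) (hg : AnalyticAt ℂ g x) :
    AnalyticAt ℂ (fun x => (Fin.cons (α := fun _ => ℂ) (f x) (g x) : Vd (m + 1))) x := by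
  rw [analyticAt_pi_iff]
  intro i
  refine Fin.cases ?_ (fun j => ?_) i
  · simpa using hf
  · simpa using (analyticAt_pi_iff.1 hg) j

private theorem div_pow {m : ℕ} {R : ℝ} {K : Vd (m + 1) → ℂ} (hK : ∀ p ∈ ball (0 : Vd (m + 1)) R, AnalyticAt ℂ K p) (μ : ℕ)
    (h : ∀ v : Vd m, ‖v‖ < R → (fun t : ℂ => K (Fin.cons (α := fun _ => ℂ) t v)) =O[𝓝 (0 : ℂ)] (fun t : ℂ => t ^ μ)) :
    ∃ b : Vd (m + 1) → ℂ, (∀ p ∈ ball (0 : Vd (m + 1)) R, AnalyticAt ℂ b p) ∧ ∀ p ∈ ball (0 : Vd (m + 1)) R, K p = p 0 ^ μ * b p := by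
  induction μ with
  | zero => exact ⟨K, hK, fun p _ => by rw [pow_zero, one_mul]⟩
  | succ μ ih =>
    have hle : (fun t : ℂ => t ^ (μ + 1)) =O[𝓝 (0 : ℂ)] (fun t : ℂ => t ^ μ) := by
      have h1 : (fun t : ℂ => t) =O[𝓝 (0 : ℂ)] (fun _ : ℂ => (1 : ℂ)) := continuousAt_id.isBigO_one ℂ
      have h2 := (Asymptotics.isBigO_refl (fun t : ℂ => t ^ μ) (𝓝 (0 : ℂ))).mul h1
      simpa [pow_succ] using h2
    obtain ⟨b, hb, hKb⟩ := ih fun v hv => (h v hv).trans hle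
    have h0 : ∀ p ∈ ball (0 : Vd (m + 1)) R, p 0 = 0 → b p = 0 := by
      intro p hp hp0
      have hpR : ‖p‖ < R := by simpa using hp
      have hR : 0 < R := (norm_nonneg _).trans_lt hpR
      set v : Vd m := fun i => p i.succ with hv
      have hvR : ‖v‖ < R := by
        rw [pi_norm_lt_iff hR]
        intro i
        exact (norm_le_pi_norm p i.succ).trans_lt hpR
      have hpv : p = Fin.cons (α := fun _ => ℂ) 0 v := by
        funext i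
        refine Fin.cases ?_ (fun j => ?_) i
        · simpa using hp0
        · rfl
      have hcont : ContinuousAt (fun t : ℂ => b (Fin.cons (α := fun _ => ℂ) t v)) 0 := by
        refine ContinuousAt.comp (g := b) (f := fun t : ℂ => (Fin.cons (α := fun _ => ℂ) t v : Vd (m + 1))) ?_ (cons_diff v 0).continuousAt
        rw [← hpv]
        exact (hb p hp).continuousAt
      have h1 := O_zero (μ := μ) hcont ?_
      · rw [hpv]
        exact h1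
      · refine Asymptotics.IsBigO.congr' (h v hvR) ?_ (EventuallyEq.refl _ _)
        have h2 : ∀ᶠ t in 𝓝 (0 : ℂ), ‖t‖ < R := by
          have h3 := ball_mem_nhds (0 : ℂ) hR
          filter_upwards [h3] with t ht
          simpa using ht
        filter_upwards [h2] with t ht
        have h3 := hKb _ (cons_mem ht hvR)
        simpa using h3
    obtain ⟨H, hH, hbH⟩ := Pool.Agent.TG.exists_div_zero hb h0
    refine ⟨H, hH, fun p hp => ?_⟩
    rw [hKb p hp, hbH p hp]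
    ring

private theorem div_iff {m : ℕ} {R : ℝ} {K b : Vd (m + 1) → ℂ} {μ : ℕ} (hb : ∀ p ∈ ball (0 : Vd (m + 1)) R, AnalyticAt ℂ b p)
    (hKb : ∀ p ∈ ball (0 : Vd (m + 1)) R, K p = p 0 ^ μ * b p) {v : Vd m} (hv : ‖v‖ < R) :
    (fun t : ℂ => K (Fin.cons (α := fun _ => ℂ) t v)) =O[𝓝 (0 : ℂ)] (fun t : ℂ => t ^ (μ + 1)) ↔ b (Fin.cons (α := fun _ => ℂ) 0 v) = 0 := by
  have hR : 0 < R := (norm_nonneg _).trans_lt hv
  have h0 : (Fin.cons (α := fun _ => ℂ) 0 v : Vd (m + 1)) ∈ ball (0 : Vd (m + 1)) R := cons_mem (by simpa using hR) hv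
  have han : AnalyticAt ℂ (fun t : ℂ => b (Fin.cons (α := fun _ => ℂ) t v)) 0 :=
    AnalyticAt.fun_comp (g := b) (f := fun t : ℂ => (Fin.cons (α := fun _ => ℂ) t v : Vd (m + 1))) (hb _ h0) (cons_diff v 0)
  have h2 : ∀ᶠ t in 𝓝 (0 : ℂ), K (Fin.cons (α := fun _ => ℂ) t v) = t ^ μ * b (Fin.cons (α := fun _ => ℂ) t v) := by
    have h3 := ball_mem_nhds (0 : ℂ) hR
    filter_upwards [h3] with t ht
    have h4 := hKb _ (cons_mem (by simpa using ht) hv)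
    simpa using h4
  constructor
  · intro h
    exact O_zero (μ := μ) han.continuousAt (Asymptotics.IsBigO.congr' h h2 (EventuallyEq.refl _ _))
  · intro h
    exact Asymptotics.IsBigO.congr' (O_of han.differentiableAt h μ) (h2.mono fun t ht => ht.symm) (EventuallyEq.refl _ _)

private theorem an_of_diff {Q : EN N → ℂ} (hQ : Differentiable ℂ Q) (x : EN N) : AnalyticAt ℂ Q x := by
  set e : EN N ≃L[ℂ] (Fin (N + 1) → ℂ) := EuclideanSpace.equiv (Fin (N + 1)) ℂ with he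
  have hf : Differentiable ℂ fun y : Fin (N + 1) → ℂ => Q (e.symm y) := hQ.comp e.symm.differentiable
  have h1 : AnalyticAt ℂ (fun y : Fin (N + 1) → ℂ => Q (e.symm y)) (e x) := by
    have h2 : ∀ᶠ y in 𝓝 (e x), ‖Q (e.symm y)‖ < ‖Q (e.symm (e x))‖ + 1 := (hf.continuous.norm.continuousAt).eventually_lt_const (by linarith)
    obtain ⟨r, hr, hb⟩ := Metric.eventually_nhds_iff_ball.1 h2
    refine Pool.Agent.TN.osgood_pi hr (M := ‖Q (e.symm (e x))‖ + 1) (fun y hy => (hb y hy).le) fun y _ l => ?_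
    have h3 : Differentiable ℂ fun t : ℂ => y + t • (Pi.single l 1 : Fin (N + 1) → ℂ) := by fun_prop
    exact (hf.comp h3) 0
  have h2 : AnalyticAt ℂ (fun x : EN N => Q (e.symm (e x))) x := AnalyticAt.fun_comp (g := fun y : Fin (N + 1) → ℂ => Q (e.symm y)) (f := fun x : EN N => e x) h1 (e.toContinuousLinearMap.analyticAt x)
  simpa using h2

private theorem ms_cons (c : Vd (k + 1)) {ρ : ℝ} (t : ℂ) (v : Vd (k + 1)) :
    Pool.Agent.TG.ms c ρ (Fin.cons (α := fun _ => ℂ) t v) = c + (ρ : ℂ) • v := rfl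

private theorem local_data {X : Set (EN N)} {Λ : AddSubgroup (Vd (k + 1))} {u : EN N → Vd (k + 1)} {D B : Set (Vd (k + 1))} {Q : EN N → ℂ} {d : ℕ} {S : Set (Vd (k + 1) → MN N)}
    (G : Geo X Λ u D B) (hS : Csf X Λ u D S) (hQ : QD X Λ u D Q d) {Φ : Vd (k + 1) → MN N} (hΦ : Φ ∈ S) {y₀ : Vd (k + 1)} (hy₀ : y₀ ∉ D) :
    ∃ (χ : Chart (k + 2) X) (ρ : ℝ) (q₀ : Vd (k + 2)) (φ : Vd (k + 1) → ℂ) (R : ℝ), 0 < R ∧ Pool.Agent.TG.Str Λ u χ y₀ ρ ∧ q₀ ∈ ball (0 : Vd (k + 2)) 2 ∧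
      Pool.Agent.TG.ms y₀ ρ q₀ = y₀ ∧ AnalyticAt ℂ φ y₀ ∧ φ y₀ = q₀ 0 ∧
      (∀ᶠ y in 𝓝 y₀, Φ y = pr (χ.σ (Fin.cons (α := fun _ => ℂ) (φ y) ((ρ : ℂ)⁻¹ • (y - y₀))))) ∧
      (∀ p ∈ ball (0 : Vd (k + 2)) R, AnalyticAt ℂ (fun p : Vd (k + 2) => Q (χ.σ (Fin.cons (α := fun _ => ℂ) (φ (Pool.Agent.TG.ms y₀ ρ p) + p 0) (Pool.Agent.TG.tl p)))) p) ∧
      (∀ v : Vd (k + 1), ‖v‖ < R → y₀ + (ρ : ℂ) • v ∉ D ∧ ∀ j : ℕ, (OG X Λ u Q Φ j (y₀ + (ρ : ℂ) • v) ↔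
        (fun t : ℂ => Q (χ.σ (Fin.cons (α := fun _ => ℂ) (φ (y₀ + (ρ : ℂ) • v) + t) v))) =O[𝓝 (0 : ℂ)] (fun t : ℂ => t ^ j))) := by
  obtain ⟨φ', hφ', hev⟩ := hS.hol Φ hΦ y₀ hy₀
  have hx₀ := hev.self_of_nhds
  obtain ⟨hx₀X, hx₀Φ, hx₀u⟩ := hx₀
  obtain ⟨χ, ρ, r, hr, hcap⟩ := Pool.Agent.TG.exists_cap_at G hy₀ (m₀ := pr (φ' y₀)) ⟨φ' y₀, hx₀X, rfl, hx₀u⟩
  obtain ⟨hU, hq, hms⟩ := hcap.cap y₀ (mem_closedBall_self hr.le) (φ' y₀) hx₀X hx₀u (by rw [dist_self]; exact hr.le)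
  have hρ := hcap.str.pos
  have hρ' : (ρ : ℂ) ≠ 0 := by exact_mod_cast hρ.ne'
  have hq2 : χ.q (φ' y₀) ∈ ball (0 : Vd (k + 2)) 2 := closedBall_subset_ball (by norm_num) hq
  have hqa : AnalyticAt ℂ (fun y => χ.q (φ' y)) y₀ := AnalyticAt.fun_comp (g := χ.q) (f := φ') (χ.q_an _ hU) hφ'
  have hUe : ∀ᶠ y in 𝓝 y₀, φ' y ∈ χ.U := hφ'.continuousAt.eventually_mem (χ.isOpen_U.mem_nhds hU)
  have hmse : ∀ᶠ y in 𝓝 y₀, Pool.Agent.TG.ms y₀ ρ (χ.q (φ' y)) - y = 0 := by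
    refine disc_zero G.lat ?_ ?_ ?_
    · have h1 : ContinuousAt (Pool.Agent.TG.ms y₀ ρ) (χ.q (φ' y₀)) := (Pool.Agent.TG.ms_an y₀ ρ _).continuousAt
      exact (ContinuousAt.comp (g := Pool.Agent.TG.ms y₀ ρ) (f := fun y => χ.q (φ' y)) h1 hqa.continuousAt).sub continuousAt_id
    · rw [hms, sub_self]
    · filter_upwards [hUe, hev] with y h1 h2
      exact ms_mem G.tor hcap.str h2.1 h1 h2.2.2
  set φ : Vd (k + 1) → ℂ := fun y => χ.q (φ' y) 0 with hφ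
  have hφa : AnalyticAt ℂ φ y₀ := (analyticAt_pi_iff.1 hqa) 0
  have hcons : ∀ᶠ y in 𝓝 y₀, χ.q (φ' y) = Fin.cons (α := fun _ => ℂ) (φ y) ((ρ : ℂ)⁻¹ • (y - y₀)) := by
    filter_upwards [hmse] with y hy
    exact eq_cons hρ (sub_eq_zero.1 hy)
  have hqe : ∀ᶠ y in 𝓝 y₀, χ.q (φ' y) ∈ ball (0 : Vd (k + 2)) 2 := hqa.continuousAt.eventually_mem (isOpen_ball.mem_nhds hq2)
  have hpr : ∀ᶠ y in 𝓝 y₀, Φ y = pr (χ.σ (χ.q (φ' y))) := by
    filter_upwards [hev, hUe] with y h1 h2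
    rw [Pool.Agent.TG.pr_sigma_q χ h1.1 h2, h1.2.1]
  have hDe : ∀ᶠ y in 𝓝 y₀, y ∉ D := G.D_closed.isOpen_compl.mem_nhds hy₀
  -- the point `0`
  have hms0 : Pool.Agent.TG.ms y₀ ρ (0 : Vd (k + 2)) = y₀ := by
    unfold Pool.Agent.TG.ms
    have : Pool.Agent.TG.tl (0 : Vd (k + 2)) = 0 := rfl
    rw [this, smul_zero, add_zero]
  have hcons0 : (Fin.cons (α := fun _ => ℂ) (φ (Pool.Agent.TG.ms y₀ ρ (0 : Vd (k + 2))) + (0 : Vd (k + 2)) 0) (Pool.Agent.TG.tl (0 : Vd (k + 2))) : Vd (k + 2)) = χ.q (φ' y₀) := by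
    have h1 := hcons.self_of_nhds
    rw [h1, hms0, sub_self, smul_zero]
    have : Pool.Agent.TG.tl (0 : Vd (k + 2)) = 0 := rfl
    rw [this]
    simp
  have hKa : AnalyticAt ℂ (fun p : Vd (k + 2) => Q (χ.σ (Fin.cons (α := fun _ => ℂ) (φ (Pool.Agent.TG.ms y₀ ρ p) + p 0) (Pool.Agent.TG.tl p)))) 0 := by
    have h1 : AnalyticAt ℂ (fun p : Vd (k + 2) => φ (Pool.Agent.TG.ms y₀ ρ p)) 0 := by
      refine AnalyticAt.fun_comp (g := φ) (f := Pool.Agent.TG.ms y₀ ρ) ?_ (Pool.Agent.TG.ms_an y₀ ρ 0)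
      rw [hms0]
      exact hφa
    have h2 : AnalyticAt ℂ (fun p : Vd (k + 2) => p 0) 0 := (ContinuousLinearMap.proj (R := ℂ) (φ := fun _ : Fin (k + 2) => ℂ) 0).analyticAt 0
    have h3 : AnalyticAt ℂ (fun p : Vd (k + 2) => Pool.Agent.TG.tl p) 0 := Pool.Agent.TG.tlL.analyticAt 0
    have h4 := cons_an (h1.add h2) h3
    have h5 : AnalyticAt ℂ χ.σ ((fun p : Vd (k + 2) => (Fin.cons (α := fun _ => ℂ) (φ (Pool.Agent.TG.ms y₀ ρ p) + p 0) (Pool.Agent.TG.tl p) : Vd (k + 2))) 0) := by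
      simp only [hcons0]
      exact χ.σ_an _ hq2
    have h6 := AnalyticAt.fun_comp (g := χ.σ) (f := fun p : Vd (k + 2) => (Fin.cons (α := fun _ => ℂ) (φ (Pool.Agent.TG.ms y₀ ρ p) + p 0) (Pool.Agent.TG.tl p) : Vd (k + 2))) h5 h4
    exact AnalyticAt.fun_comp (g := Q) (an_of_diff hQ.diff _) h6
  obtain ⟨R₁, hR₁, hball₁⟩ := Metric.eventually_nhds_iff_ball.1 hKa.eventually_analyticAt
  obtain ⟨R₂, hR₂, hball₂⟩ := Metric.eventually_nhds_iff_ball.1 ((hcons.and hqe).and (hpr.and hDe))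
  have hR : 0 < min R₁ (R₂ / ρ) := lt_min hR₁ (div_pos hR₂ hρ)
  refine ⟨χ, ρ, χ.q (φ' y₀), φ, min R₁ (R₂ / ρ), hR, hcap.str, hq2, hms, hφa, rfl, ?_, ?_, ?_⟩
  · filter_upwards [hpr, hcons] with y h1 h2
    rw [h1, h2]
  · intro p hp
    exact hball₁ p (ball_subset_ball (min_le_left _ _) hp)
  · intro v hv
    have hvy : y₀ + (ρ : ℂ) • v ∈ ball y₀ R₂ := by
      rw [mem_ball, dist_eq_norm, add_sub_cancel_left, norm_smul, Complex.norm_real, Real.norm_of_nonneg hρ.le]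
      have h1 := hv.trans_le (min_le_right _ _)
      rw [lt_div_iff₀ hρ] at h1
      linarith
    obtain ⟨⟨h1, h2⟩, h3, h4⟩ := hball₂ _ hvy
    refine ⟨h4, fun j => ?_⟩
    have hv' : (ρ : ℂ)⁻¹ • (y₀ + (ρ : ℂ) • v - y₀) = v := by
      rw [add_sub_cancel_left, smul_smul, inv_mul_cancel₀ hρ', one_smul]
    rw [hv'] at h1
    rw [h1] at h2
    rw [og_iff G.cone G.tor G.lat hQ.hom hcap.str h2 (ms_cons y₀ (φ (y₀ + (ρ : ℂ) • v)) v) (by rw [← h1]; exact h3.symm) j]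
    have hfun : (fun t : ℂ => Q (χ.σ (Fin.cons (α := fun _ => ℂ) (φ (y₀ + (ρ : ℂ) • v)) v + t • (Pi.single 0 1 : Vd (k + 2))))) =
        (fun t : ℂ => Q (χ.σ (Fin.cons (α := fun _ => ℂ) (φ (y₀ + (ρ : ℂ) • v) + t) v))) := by
      funext t
      congr 2
      funext i
      refine Fin.cases ?_ (fun j => ?_) i
      · simp
      · simp
    rw [hfun]

/-- the orders are finite -/
private theorem ord_finite {X : Set (EN N)} {Λ : AddSubgroup (Vd (k + 1))} {u : EN N → Vd (k + 1)} {D B : Set (Vd (k + 1))} {Q : EN N → ℂ} {d : ℕ} {S : Set (Vd (k + 1) → MN N)}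
    (G : Geo X Λ u D B) (hS : Csf X Λ u D S) (hQ : QD X Λ u D Q d) (hQ0 : ∀ x ∈ X, ∃ᶠ x' in 𝓝 x, x' ∈ X ∧ Q x' ≠ 0) {Φ : Vd (k + 1) → MN N} (hΦ : Φ ∈ S) :
    ∃ j : ℕ, ∃ y ∉ D, ¬ OG X Λ u Q Φ j y := by
  by_contra hcon
  push Not at hcon
  obtain ⟨y₀, hy₀⟩ : ∃ y₀, y₀ ∉ D := by
    have h1 := Pool.Agent.TG.compl_dense G.D_thin
    obtain ⟨y, hy⟩ := h1.nonempty
    exact ⟨y, hy⟩
  obtain ⟨χ, ρ, q₀, φ, R, hR, hstr, hq₀, hms, hφa, hφ0, -, hKa, hv⟩ := local_data G hS hQ hΦ hy₀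
  set K : Vd (k + 2) → ℂ := fun p => Q (χ.σ (Fin.cons (α := fun _ => ℂ) (φ (Pool.Agent.TG.ms y₀ ρ p) + p 0) (Pool.Agent.TG.tl p))) with hK
  have hKcons : ∀ (t : ℂ) (v : Vd (k + 1)), K (Fin.cons (α := fun _ => ℂ) t v) = Q (χ.σ (Fin.cons (α := fun _ => ℂ) (φ (y₀ + (ρ : ℂ) • v) + t) v)) := fun t v => rfl
  have hK0 : ∀ p ∈ ball (0 : Vd (k + 2)) R, K p = 0 := by
    intro p hp
    have hpR : ‖p‖ < R := by simpa using hp
    set v : Vd (k + 1) := Pool.Agent.TG.tl p with hvd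
    have hvR : ‖v‖ < R := by
      rw [pi_norm_lt_iff hR]
      intro i
      exact (norm_le_pi_norm p i.succ).trans_lt hpR
    have hpv : p = Fin.cons (α := fun _ => ℂ) (p 0) v := by
      funext i
      refine Fin.cases ?_ (fun j => ?_) i
      · rfl
      · rfl
    obtain ⟨hvD, hvO⟩ := hv v hvR
    have hg : AnalyticOnNhd ℂ (fun t : ℂ => K (Fin.cons (α := fun _ => ℂ) t v)) (ball (0 : ℂ) R) := by
      intro t ht
      refine AnalyticAt.fun_comp (g := K) (f := fun t : ℂ => (Fin.cons (α := fun _ => ℂ) t v : Vd (k + 2))) (hKa _ (cons_mem (by simpa using ht) hvR)) (cons_diff v t)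
    have hflat : ∀ᶠ t in 𝓝 (0 : ℂ), K (Fin.cons (α := fun _ => ℂ) t v) = 0 := by
      refine flat (hg 0 (mem_ball_self hR)) fun j => ?_
      exact (hvO j).1 (hcon j _ hvD)
    have h1 := AnalyticOnNhd.eqOn_zero_of_preconnected_of_eventuallyEq_zero hg (convex_ball (0 : ℂ) R).isPreconnected (mem_ball_self hR) hflat
    have h2 := h1 (show p 0 ∈ ball (0 : ℂ) R by
      rw [mem_ball_zero_iff]
      exact (norm_le_pi_norm p 0).trans_lt hpR)
    simp only at h2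
    rw [hpv]
    exact h2
  -- `Q ∘ χ.σ = 0` near `q₀`
  have hcont : ContinuousAt (fun q : Vd (k + 2) => (Fin.cons (α := fun _ => ℂ) (q 0 - φ (Pool.Agent.TG.ms y₀ ρ q)) (Pool.Agent.TG.tl q) : Vd (k + 2))) q₀ := by
    have h1 : AnalyticAt ℂ (fun p : Vd (k + 2) => φ (Pool.Agent.TG.ms y₀ ρ p)) q₀ := by
      refine AnalyticAt.fun_comp (g := φ) (f := Pool.Agent.TG.ms y₀ ρ) ?_ (Pool.Agent.TG.ms_an y₀ ρ q₀)
      rw [hms]
      exact hφa
    have h2 : AnalyticAt ℂ (fun p : Vd (k + 2) => p 0) q₀ := (ContinuousLinearMap.proj (R := ℂ) (φ := fun _ : Fin (k + 2) => ℂ) 0).analyticAt q₀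
    have h3 : AnalyticAt ℂ (fun p : Vd (k + 2) => Pool.Agent.TG.tl p) q₀ := Pool.Agent.TG.tlL.analyticAt q₀
    exact (cons_an (h2.sub h1) h3).continuousAt
  have htl : Pool.Agent.TG.tl q₀ = 0 := by
    have h1 : (ρ : ℂ) • Pool.Agent.TG.tl q₀ = 0 := by
      have h2 := hms
      unfold Pool.Agent.TG.ms at h2
      exact left_eq_add.1 h2.symm
    have hρ' : (ρ : ℂ) ≠ 0 := by exact_mod_cast hstr.pos.ne'
    exact (smul_eq_zero.1 h1).resolve_left hρ'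
  have h00 : (Fin.cons (α := fun _ => ℂ) (q₀ 0 - φ (Pool.Agent.TG.ms y₀ ρ q₀)) (Pool.Agent.TG.tl q₀) : Vd (k + 2)) = 0 := by
    rw [hms, hφ0, sub_self, htl]
    funext i
    refine Fin.cases ?_ (fun j => ?_) i
    · rfl
    · rfl
  have hnear : ∀ᶠ q in 𝓝 q₀, Q (χ.σ q) = 0 := by
    have h1 := hcont.eventually_mem (by
      simp only [h00]
      exact ball_mem_nhds (0 : Vd (k + 2)) hR)
    filter_upwards [h1] with q hq
    have h2 := hK0 _ hq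
    have h3 : (Fin.cons (α := fun _ => ℂ) (φ (Pool.Agent.TG.ms y₀ ρ (Fin.cons (α := fun _ => ℂ) (q 0 - φ (Pool.Agent.TG.ms y₀ ρ q)) (Pool.Agent.TG.tl q))) +
        (Fin.cons (α := fun _ => ℂ) (q 0 - φ (Pool.Agent.TG.ms y₀ ρ q)) (Pool.Agent.TG.tl q) : Vd (k + 2)) 0)
        (Pool.Agent.TG.tl (Fin.cons (α := fun _ => ℂ) (q 0 - φ (Pool.Agent.TG.ms y₀ ρ q)) (Pool.Agent.TG.tl q))) : Vd (k + 2)) = q := by
      funext i
      refine Fin.cases ?_ (fun j => ?_) i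
      · show φ (Pool.Agent.TG.ms y₀ ρ q) + (q 0 - φ (Pool.Agent.TG.ms y₀ ρ q)) = q 0
        ring
      · rfl
    simp only [hK] at h2
    rw [h3] at h2
    exact h2
  obtain ⟨hσX, hσU, hσq⟩ := χ.σ_mem q₀ hq₀
  have hfr := hQ0 _ hσX
  refine hfr ?_
  have h1 : ∀ᶠ x in 𝓝 (χ.σ q₀), x ∈ χ.U := χ.isOpen_U.mem_nhds hσU
  have h2 : ∀ᶠ x in 𝓝 (χ.σ q₀), Q (χ.σ (χ.q x)) = 0 := by
    have h3 : Tendsto χ.q (𝓝 (χ.σ q₀)) (𝓝 q₀) := by
      have h4 := (χ.q_an _ hσU).continuousAt.tendsto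
      rwa [hσq] at h4
    exact h3.eventually hnear
  filter_upwards [h1, h2] with x hx1 hx2
  rintro ⟨hxX, hxQ⟩
  obtain ⟨-, b, -, hbe⟩ := χ.surj x hxX hx1
  apply hxQ
  rw [hbe, hQ.hom, hx2, mul_zero]

/-- the factorization -/
private theorem ordAt_of {X : Set (EN N)} {Λ : AddSubgroup (Vd (k + 1))} {u : EN N → Vd (k + 1)} {D B : Set (Vd (k + 1))} {Q : EN N → ℂ} {d : ℕ} {S : Set (Vd (k + 1) → MN N)}
    (G : Geo X Λ u D B) (hS : Csf X Λ u D S) (hQ : QD X Λ u D Q d) {Φ : Vd (k + 1) → MN N} (hΦ : Φ ∈ S) {μ : ℕ} (hμ : ∀ y ∉ D, OG X Λ u Q Φ μ y)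
    {y₀ : Vd (k + 1)} (hy₀ : y₀ ∉ D) : OrdAt X Λ u Q Φ μ {y | y ∉ D ∧ OG X Λ u Q Φ (μ + 1) y} y₀ := by
  obtain ⟨χ, ρ, q₀, φ, R, hR, hstr, hq₀, hms, hφa, hφ0, hpr, hKa, hv⟩ := local_data G hS hQ hΦ hy₀
  set K : Vd (k + 2) → ℂ := fun p => Q (χ.σ (Fin.cons (α := fun _ => ℂ) (φ (Pool.Agent.TG.ms y₀ ρ p) + p 0) (Pool.Agent.TG.tl p))) with hK
  have hKcons : ∀ (t : ℂ) (v : Vd (k + 1)), K (Fin.cons (α := fun _ => ℂ) t v) = Q (χ.σ (Fin.cons (α := fun _ => ℂ) (φ (y₀ + (ρ : ℂ) • v) + t) v)) := fun t v => rfl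
  obtain ⟨b, hb, hKb⟩ := div_pow hKa μ (fun v hvR => ((hv v hvR).2 μ).1 (hμ _ (hv v hvR).1))
  have hρ' : (ρ : ℂ) ≠ 0 := by exact_mod_cast hstr.pos.ne'
  have hsh : AnalyticAt ℂ (fun q : Vd (k + 2) => (Fin.cons (α := fun _ => ℂ) (q 0 - φ (Pool.Agent.TG.ms y₀ ρ q)) (Pool.Agent.TG.tl q) : Vd (k + 2))) q₀ := by
    have h1 : AnalyticAt ℂ (fun p : Vd (k + 2) => φ (Pool.Agent.TG.ms y₀ ρ p)) q₀ := by
      refine AnalyticAt.fun_comp (g := φ) (f := Pool.Agent.TG.ms y₀ ρ) ?_ (Pool.Agent.TG.ms_an y₀ ρ q₀)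
      rw [hms]
      exact hφa
    have h2 : AnalyticAt ℂ (fun p : Vd (k + 2) => p 0) q₀ := (ContinuousLinearMap.proj (R := ℂ) (φ := fun _ : Fin (k + 2) => ℂ) 0).analyticAt q₀
    have h3 : AnalyticAt ℂ (fun p : Vd (k + 2) => Pool.Agent.TG.tl p) q₀ := Pool.Agent.TG.tlL.analyticAt q₀
    exact cons_an (h2.sub h1) h3
  have htl : Pool.Agent.TG.tl q₀ = 0 := by
    have h1 : (ρ : ℂ) • Pool.Agent.TG.tl q₀ = 0 := by
      have h2 := hms
      unfold Pool.Agent.TG.ms at h2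
      exact left_eq_add.1 h2.symm
    exact (smul_eq_zero.1 h1).resolve_left hρ'
  have h00 : (Fin.cons (α := fun _ => ℂ) (q₀ 0 - φ (Pool.Agent.TG.ms y₀ ρ q₀)) (Pool.Agent.TG.tl q₀) : Vd (k + 2)) = 0 := by
    rw [hms, hφ0, sub_self, htl]
    funext i
    refine Fin.cases ?_ (fun j => ?_) i
    · rfl
    · rfl
  refine ⟨χ, y₀, ρ, q₀, φ, fun q => b (Fin.cons (α := fun _ => ℂ) (q 0 - φ (Pool.Agent.TG.ms y₀ ρ q)) (Pool.Agent.TG.tl q)), hstr, hq₀, hms, hφa, hφ0, ?_, hpr, ?_, ?_⟩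
  · refine AnalyticAt.fun_comp (g := b) (f := fun q : Vd (k + 2) => (Fin.cons (α := fun _ => ℂ) (q 0 - φ (Pool.Agent.TG.ms y₀ ρ q)) (Pool.Agent.TG.tl q) : Vd (k + 2))) ?_ hsh
    simp only [h00]
    exact hb 0 (mem_ball_self hR)
  · have h1 := hsh.continuousAt.eventually_mem (by
      simp only [h00]
      exact ball_mem_nhds (0 : Vd (k + 2)) hR)
    filter_upwards [h1] with q hq
    have h2 := hKb _ hq
    have h3 : (Fin.cons (α := fun _ => ℂ) (φ (Pool.Agent.TG.ms y₀ ρ (Fin.cons (α := fun _ => ℂ) (q 0 - φ (Pool.Agent.TG.ms y₀ ρ q)) (Pool.Agent.TG.tl q))) +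
        (Fin.cons (α := fun _ => ℂ) (q 0 - φ (Pool.Agent.TG.ms y₀ ρ q)) (Pool.Agent.TG.tl q) : Vd (k + 2)) 0)
        (Pool.Agent.TG.tl (Fin.cons (α := fun _ => ℂ) (q 0 - φ (Pool.Agent.TG.ms y₀ ρ q)) (Pool.Agent.TG.tl q))) : Vd (k + 2)) = q := by
      funext i
      refine Fin.cases ?_ (fun j => ?_) i
      · show φ (Pool.Agent.TG.ms y₀ ρ q) + (q 0 - φ (Pool.Agent.TG.ms y₀ ρ q)) = q 0
        ring
      · rfl
    simp only [hK] at h2
    rw [h3] at h2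
    rw [h2]
    rfl
  · have h1 : ∀ᶠ y in 𝓝 y₀, ‖(ρ : ℂ)⁻¹ • (y - y₀)‖ < R := by
      have h2 : Continuous fun y : Vd (k + 1) => ‖(ρ : ℂ)⁻¹ • (y - y₀)‖ := by fun_prop
      refine h2.continuousAt.eventually_lt_const ?_
      simpa using hR
    filter_upwards [h1] with y hy
    obtain ⟨hvD, hvO⟩ := hv _ hy
    have e1 : y₀ + (ρ : ℂ) • ((ρ : ℂ)⁻¹ • (y - y₀)) = y := by
      rw [smul_smul, mul_inv_cancel₀ hρ', one_smul, add_sub_cancel]
    have h3 := div_iff hb hKb hy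
    have h4 := hvO (μ + 1)
    have e2 : (fun t : ℂ => K (Fin.cons (α := fun _ => ℂ) t ((ρ : ℂ)⁻¹ • (y - y₀)))) =
        fun t : ℂ => Q (χ.σ (Fin.cons (α := fun _ => ℂ) (φ (y₀ + (ρ : ℂ) • ((ρ : ℂ)⁻¹ • (y - y₀))) + t) ((ρ : ℂ)⁻¹ • (y - y₀)))) := rfl
    rw [e2] at h3
    have h5 := h4.trans h3
    rw [e1] at h5 hvD
    have e3 : (Fin.cons (α := fun _ => ℂ) ((Fin.cons (α := fun _ => ℂ) (φ y) ((ρ : ℂ)⁻¹ • (y - y₀)) : Vd (k + 2)) 0 -
        φ (Pool.Agent.TG.ms y₀ ρ (Fin.cons (α := fun _ => ℂ) (φ y) ((ρ : ℂ)⁻¹ • (y - y₀))))) (Pool.Agent.TG.tl (Fin.cons (α := fun _ => ℂ) (φ y) ((ρ : ℂ)⁻¹ • (y - y₀)))) : Vd (k + 2)) =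
        Fin.cons (α := fun _ => ℂ) 0 ((ρ : ℂ)⁻¹ • (y - y₀)) := by
      rw [ms_cons, e1]
      funext i
      refine Fin.cases ?_ (fun j => ?_) i
      · show φ y - φ y = 0
        ring
      · rfl
    rw [e3]
    constructor
    · intro h
      exact h5.1 h.2
    · intro h
      exact ⟨hvD, h5.2 h⟩

private theorem count_of_isolated {s : Set ℂ} (h : ∀ z ∈ s, ∀ᶠ w in 𝓝[≠] z, w ∉ s) : s.Countable := by
  have hd : DiscreteTopology s := by
    rw [discreteTopology_subtype_iff]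
    intro z hz
    rw [Filter.inf_principal_eq_bot]
    exact h z hz
  rw [← Set.countable_coe_iff]
  exact countable_of_Lindelof_of_discrete

private theorem exists_form {a : Vd (1 + 1)} (ha : a ≠ 0) :
    ∃ (π : Vd (1 + 1) →L[ℂ] ℂ) (e : Vd (1 + 1)), π a = 0 ∧ (∀ y, π y = 0 → ∃ c : ℂ, y = c • a) ∧ π e = 1 := by
  set S : Submodule ℂ (Vd (1 + 1)) := Submodule.span ℂ {a} with hS
  have hfS : Module.finrank ℂ S = 1 := finrank_span_singleton ha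
  have hlt : S < ⊤ := by
    rw [lt_top_iff_ne_top]
    intro h
    rw [h, finrank_top, Module.finrank_fintype_fun_eq_card, Fintype.card_fin] at hfS
    omega
  obtain ⟨f, hf, hle⟩ := Submodule.exists_le_ker_of_lt_top _ hlt
  have hker : LinearMap.ker f = S := by
    refine (Submodule.eq_of_le_of_finrank_le hle ?_).symm
    have h1 := LinearMap.finrank_range_add_finrank_ker f
    rw [Module.finrank_fintype_fun_eq_card, Fintype.card_fin] at h1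
    have h2 : 1 ≤ Module.finrank ℂ (LinearMap.range f) := by
      rw [Nat.one_le_iff_ne_zero]
      intro h0
      rw [Submodule.finrank_eq_zero, LinearMap.range_eq_bot] at h0
      exact hf h0
    omega
  obtain ⟨y, hy⟩ : ∃ y, f y ≠ 0 := by
    by_contra hc
    push Not at hc
    exact hf (LinearMap.ext hc)
  refine ⟨LinearMap.toContinuousLinearMap f, (f y)⁻¹ • y, ?_, fun z hz => ?_, ?_⟩
  · exact hle (Submodule.mem_span_singleton_self a)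
  · have h3 : z ∈ S := by
      rw [← hker]
      exact hz
    obtain ⟨c, hc⟩ := Submodule.mem_span_singleton.1 h3
    exact ⟨c, hc.symm⟩
  · show f ((f y)⁻¹ • y) = 1
    rw [map_smul, smul_eq_mul, inv_mul_cancel₀ hy]

private theorem lines_count {Λ : AddSubgroup (Vd (1 + 1))} {D Z : Set (Vd (1 + 1))} (hΛ : Lat Λ) (hs : Simp Λ) (hL : LDi D) (hDc : IsClosed D)
    (hDi : ∀ y, ∀ l ∈ Λ, (y + l ∈ D ↔ y ∈ D))
    (hDt : ∀ y : Vd (1 + 1), ∃ h : Vd (1 + 1) → ℂ, AnalyticAt ℂ h y ∧ (∀ᶠ z in 𝓝 y, z ∈ D → h z = 0) ∧ ¬ ∀ᶠ z in 𝓝 y, h z = 0)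
    (hZD : ∀ y ∈ Z, y ∉ D) (hZ : ∀ y ∉ D, ∃ β : Vd (1 + 1) → ℂ, AnalyticAt ℂ β y ∧ ∀ᶠ z in 𝓝 y, (z ∈ Z ↔ β z = 0)) {M : ℕ} (hM : 1 ≤ M)
    (hp : ∀ y ∈ Z, ∀ l ∈ Λ, y + M • l ∈ Z) {ys : Vd (1 + 1)} (hys : ys ∉ D) (hys' : ys ∉ Z) {a : Vd (1 + 1)} (ha : a ≠ 0) (b : Vd (1 + 1)) :
    Set.Countable {z : ℂ | z • a + b ∈ D ∪ Z} := by
  have hcont : Continuous fun z : ℂ => z • a + b := by fun_prop
  have hline : ∀ z : ℂ, AnalyticAt ℂ (fun z : ℂ => z • a + b) z := fun z => by fun_prop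
  have hsD : Set.Countable {z : ℂ | z • a + b ∈ D} := count_of_isolated fun z _ => hL a ha b z
  have hun : {z : ℂ | z • a + b ∈ D ∪ Z} = {z : ℂ | z • a + b ∈ D} ∪ {z : ℂ | z • a + b ∈ Z} := rfl
  rw [hun]
  refine hsD.union ?_
  refine count_of_isolated ?_
  by_contra hcon
  push Not at hcon
  obtain ⟨z₀, hz₀, hfr⟩ := hcon
  have hz₀D : z₀ • a + b ∉ D := hZD _ hz₀
  -- the open set `W`
  set W : Set ℂ := {z | z • a + b ∉ D ∧ ∀ᶠ w in 𝓝 z, w • a + b ∈ Z} with hW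
  have hWo : IsOpen W := (hDc.isOpen_compl.preimage hcont).inter isOpen_setOf_eventually_nhds
  have hz₀W : z₀ ∈ W := by
    refine ⟨hz₀D, ?_⟩
    obtain ⟨β, hβ, hβZ⟩ := hZ _ hz₀D
    have h1 : ∀ᶠ w in 𝓝 z₀, (w • a + b ∈ Z ↔ β (w • a + b) = 0) := hcont.continuousAt.eventually hβZ
    have hg : AnalyticAt ℂ (fun w : ℂ => β (w • a + b)) z₀ := AnalyticAt.fun_comp (g := β) (f := fun z : ℂ => z • a + b) hβ (hline z₀)
    have h2 : ∃ᶠ w in 𝓝[≠] z₀, β (w • a + b) = 0 := by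
      intro h3
      apply hfr
      filter_upwards [h3, h1.filter_mono nhdsWithin_le_nhds] with w hw1 hw2
      intro hw3
      exact hw1 (hw2.1 hw3)
    have h3 := hg.frequently_zero_iff_eventually_zero.1 h2
    filter_upwards [h3, h1] with w hw1 hw2
    exact hw2.2 hw1
  have hUc : IsPreconnected {z : ℂ | z • a + b ∈ D}ᶜ :=
    (Set.Countable.isConnected_compl_of_one_lt_rank (E := ℂ) (by rw [Complex.rank_real_complex]; exact_mod_cast one_lt_two) hsD).isPreconnected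
  have hUW : {z : ℂ | z • a + b ∈ D}ᶜ ⊆ W := by
    refine hUc.subset_of_closure_inter_subset hWo ⟨z₀, hz₀D, hz₀W⟩ ?_
    rintro z ⟨hzc, hzD⟩
    obtain ⟨β, hβ, hβZ⟩ := hZ _ hzD
    have h1 : ∀ᶠ w in 𝓝 z, (w • a + b ∈ Z ↔ β (w • a + b) = 0) := hcont.continuousAt.eventually hβZ
    have hg : AnalyticAt ℂ (fun w : ℂ => β (w • a + b)) z := AnalyticAt.fun_comp (g := β) (f := fun z : ℂ => z • a + b) hβ (hline z)
    have h2 := mem_closure_iff_frequently.1 hzc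
    rcases hg.eventually_eq_zero_or_eventually_ne_zero with h3 | h3
    · refine ⟨hzD, ?_⟩
      filter_upwards [h3, h1] with w hw1 hw2
      exact hw2.2 hw1
    · rw [eventually_nhdsWithin_iff] at h3
      obtain ⟨w, hwW, hw1, hw2⟩ := (h2.and_eventually (h1.and h3)).exists
      have h4 : β (w • a + b) = 0 := hw1.1 hwW.2.self_of_nhds
      by_cases hwz : w = z
      · rw [← hwz]
        exact hwW
      · exact absurd h4 (hw2 hwz)
  have hall : ∀ (z : ℂ), ∀ l ∈ Λ, z • a + b + M • l ∉ D → z • a + b + M • l ∈ Z := by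
    intro z l hl hD
    have hMl : M • l ∈ Λ := Λ.nsmul_mem hl M
    rw [hDi _ _ hMl] at hD
    exact hp _ (hUW hD).2.self_of_nhds l hl
  -- near the point `y₁`
  set y₁ := z₀ • a + b with hy₁
  obtain ⟨β, hβ, hβZ⟩ := hZ y₁ hz₀D
  obtain ⟨π, e, hπa, hπ, hπe⟩ := exists_form ha
  have hDe : ∀ᶠ y in 𝓝 y₁, y ∉ D := hDc.isOpen_compl.mem_nhds hz₀D
  obtain ⟨r, hr, hball⟩ := Metric.eventually_nhds_iff_ball.1 (hβ.eventually_analyticAt.and (hβZ.and hDe))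
  have hzero : ∀ y ∈ ball y₁ r, ∀ l ∈ Λ, ∀ c w : ℂ, y = y₁ + w • a + (M : ℂ) • (l - c • a) → β y = 0 := by
    intro y hy l hl c w hyl
    obtain ⟨-, h2, h3⟩ := hball y hy
    apply h2.1
    have e1 : y = (z₀ + w - M * c) • a + b + M • l := by
      rw [hyl, hy₁, smul_sub, sub_smul, add_smul, smul_smul]
      have e2 : (M : ℂ) • l = M • l := Nat.cast_smul_eq_nsmul ℂ M l
      rw [e2]
      abel
    rw [e1]
    refine hall _ l hl ?_
    rw [← e1]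
    exact h3
  -- the zeros accumulate
  have hacc : ∀ y ∈ ball y₁ r, π (y - y₁) = 0 → ∃ᶠ s in 𝓝[≠] (0 : ℂ), β (y + s • e) = 0 := by
    intro y hy hπy
    rw [frequently_iff]
    intro V hV
    obtain ⟨w, hw⟩ := hπ _ hπy
    -- small `s`
    have h1 : ∀ᶠ s in 𝓝 (0 : ℂ), y + s • e ∈ ball y₁ r := by
      have h2 : Continuous fun s : ℂ => y + s • e := by fun_prop
      refine h2.continuousAt.eventually_mem ?_
      rw [zero_smul, add_zero]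
      exact isOpen_ball.mem_nhds hy
    have h2 : ∀ᶠ s in 𝓝 (0 : ℂ), s ≠ 0 → s ∈ V := by
      rw [mem_nhdsWithin_iff_eventually] at hV
      exact hV
    obtain ⟨δ, hδ, hδb⟩ := Metric.eventually_nhds_iff_ball.1 (h1.and h2)
    have hMpos : (0 : ℝ) < M := by exact_mod_cast hM
    have hden : 0 < δ / (M * (‖π‖ + 1)) := by positivity
    obtain ⟨l, hl, hla, c, hc⟩ := dens hΛ hs ha hden
    set s : ℂ := π ((M : ℂ) • (l - c • a)) with hsd
    have hsne : s ≠ 0 := by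
      intro h0
      rw [hsd, map_smul, smul_eq_mul] at h0
      have hMne : (M : ℂ) ≠ 0 := by
        have : M ≠ 0 := by omega
        exact_mod_cast this
      have h3 := (mul_eq_zero.1 h0).resolve_left hMne
      rw [map_sub, map_smul, hπa, smul_zero, sub_zero] at h3
      obtain ⟨c', hc'⟩ := hπ l h3
      exact hla c' hc'
    have hsδ : ‖s‖ < δ := by
      calc ‖s‖ ≤ ‖π‖ * ‖(M : ℂ) • (l - c • a)‖ := π.le_opNorm _
        _ = ‖π‖ * (M * ‖l - c • a‖) := by rw [norm_smul, Complex.norm_natCast]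
        _ ≤ (‖π‖ + 1) * (M * ‖l - c • a‖) := by
          refine mul_le_mul_of_nonneg_right (by linarith) (by positivity)
        _ < (‖π‖ + 1) * (M * (δ / (M * (‖π‖ + 1)))) := by
          have hπp : 0 < ‖π‖ + 1 := by positivity
          exact mul_lt_mul_of_pos_left (mul_lt_mul_of_pos_left hc hMpos) hπp
        _ = δ := by
          have hπp : ‖π‖ + 1 ≠ 0 := by positivity
          field_simp
    obtain ⟨h3, h4⟩ := hδb s (by simpa using hsδ)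
    refine ⟨s, h4 hsne, ?_⟩
    -- the difference is a multiple of `a`
    have h5 : π (s • e - (M : ℂ) • (l - c • a)) = 0 := by
      rw [map_sub, map_smul, hπe, smul_eq_mul, mul_one, ← hsd, sub_self]
    obtain ⟨w', hw'⟩ := hπ _ h5
    refine hzero _ h3 l hl c (w + w') ?_
    rw [add_smul, ← hw, ← hw']
    abel
  have hnear : ∀ᶠ y in 𝓝 y₁, β y = 0 := by
    have h1 : Continuous fun y : Vd (1 + 1) => y - (π (y - y₁)) • e := by fun_prop
    have h2 : ∀ᶠ y in 𝓝 y₁, y - (π (y - y₁)) • e ∈ ball y₁ r := by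
      refine h1.continuousAt.eventually_mem ?_
      rw [sub_self, map_zero, zero_smul, sub_zero]
      exact ball_mem_nhds _ hr
    filter_upwards [h2, ball_mem_nhds y₁ hr] with y hy hyr
    set y' := y - (π (y - y₁)) • e with hy'
    have h3 : π (y' - y₁) = 0 := by
      have e1 : y' - y₁ = (y - y₁) - (π (y - y₁)) • e := by
        rw [hy']
        abel
      rw [e1, map_sub, map_smul, hπe, smul_eq_mul, mul_one, sub_self]
    have hlc : Continuous fun s : ℂ => y' + s • e := by fun_prop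
    have hg : AnalyticOnNhd ℂ (fun s : ℂ => β (y' + s • e)) {s : ℂ | y' + s • e ∈ ball y₁ r} := by
      intro s hs
      exact AnalyticAt.fun_comp (g := β) (f := fun s : ℂ => y' + s • e) (hball _ hs).1 (by fun_prop)
    have h0m : (0 : ℂ) ∈ {s : ℂ | y' + s • e ∈ ball y₁ r} := by
      show y' + (0 : ℂ) • e ∈ ball y₁ r
      rw [zero_smul, add_zero]
      exact hy
    have h4 : ∀ᶠ s in 𝓝 (0 : ℂ), β (y' + s • e) = 0 :=
      (hg 0 h0m).frequently_zero_iff_eventually_zero.1 (hacc y' hy h3)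
    have hconv : Convex ℝ {s : ℂ | y' + s • e ∈ ball y₁ r} := by
      intro t ht t' ht' p q hp hq hpq
      show y' + (p • t + q • t') • e ∈ ball y₁ r
      have e2 : y' + (p • t + q • t') • e = p • (y' + t • e) + q • (y' + t' • e) := by
        have e1 : y' = p • y' + q • y' := by rw [← add_smul, hpq, one_smul]
        calc y' + (p • t + q • t') • e = (p • y' + q • y') + (p • t + q • t') • e := by rw [← e1]
          _ = p • (y' + t • e) + q • (y' + t' • e) := by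
            rw [add_smul, smul_assoc, smul_assoc, smul_add, smul_add]
            abel
      rw [e2]
      exact convex_ball y₁ r ht ht' hp hq hpq
    have h5 := AnalyticOnNhd.eqOn_zero_of_preconnected_of_eventuallyEq_zero hg hconv.isPreconnected h0m h4
    have h6 : y' + (π (y - y₁)) • e = y := by
      rw [hy']
      abel
    have h7 := h5 (show π (y - y₁) ∈ {s : ℂ | y' + s • e ∈ ball y₁ r} by
      show y' + (π (y - y₁)) • e ∈ ball y₁ r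
      rw [h6]
      exact hyr)
    simp only [h6] at h7
    exact h7
  -- open and closed
  set V : Set (Vd (1 + 1)) := {y | y ∉ D ∧ ∀ᶠ y' in 𝓝 y, y' ∈ Z} with hV
  have hVo : IsOpen V := hDc.isOpen_compl.inter isOpen_setOf_eventually_nhds
  have hy₁V : y₁ ∈ V := by
    refine ⟨hz₀D, ?_⟩
    filter_upwards [hnear, hβZ] with y h1 h2
    exact h2.2 h1
  have hDV : Dᶜ ⊆ V := by
    refine (Pool.Agent.TG.compl_conn hDc hDt).subset_of_closure_inter_subset hVo ⟨y₁, hz₀D, hy₁V⟩ ?_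
    rintro y ⟨hyc, hyD⟩
    refine ⟨hyD, ?_⟩
    obtain ⟨β', hβ', hβZ'⟩ := hZ y hyD
    obtain ⟨r', hr', hball'⟩ := Metric.eventually_nhds_iff_ball.1 (hβ'.eventually_analyticAt.and hβZ')
    obtain ⟨y', hy'V, hy'r⟩ := ((mem_closure_iff_frequently.1 hyc).and_eventually (ball_mem_nhds y hr')).exists
    have h1 : ∀ᶠ z in 𝓝 y', β' z = 0 := by
      filter_upwards [hy'V.2, isOpen_ball.mem_nhds hy'r] with z hz1 hz2
      exact (hball' z hz2).2.1 hz1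
    have h2 := AnalyticOnNhd.eqOn_zero_of_preconnected_of_eventuallyEq_zero (f := β') (U := ball y r') (fun z hz => (hball' z hz).1)
      (convex_ball y r').isPreconnected hy'r h1
    filter_upwards [ball_mem_nhds y hr'] with z hz
    exact (hball' z hz).2.2 (h2 hz)
  exact hys' (hDV hys).2.self_of_nhds

private theorem beta_of {X : Set (EN N)} {Λ : AddSubgroup (Vd (k + 1))} {u : EN N → Vd (k + 1)} {Q : EN N → ℂ} {Φ : Vd (k + 1) → MN N} {μ : ℕ} {Z : Set (Vd (k + 1))}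
    {y₀ : Vd (k + 1)} (h : OrdAt X Λ u Q Φ μ Z y₀) : ∃ β : Vd (k + 1) → ℂ, AnalyticAt ℂ β y₀ ∧ ∀ᶠ y in 𝓝 y₀, (y ∈ Z ↔ β y = 0) := by
  obtain ⟨χ, c, ρ, q₀, φ, b, hstr, hq₀, hms, hφ, hφ0, hb, -, -, hZ⟩ := h
  refine ⟨fun y => b (Fin.cons (α := fun _ => ℂ) (φ y) ((ρ : ℂ)⁻¹ • (y - c))), ?_, hZ⟩
  refine AnalyticAt.fun_comp (g := b) (f := fun y : Vd (k + 1) => (Fin.cons (α := fun _ => ℂ) (φ y) ((ρ : ℂ)⁻¹ • (y - c)) : Vd (k + 2))) ?_
    (cons_an hφ (by fun_prop))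
  have h1 := eq_cons hstr.pos hms
  simp only [hφ0]
  rw [← h1]
  exact hb

private theorem period {X : Set (EN N)} {Λ : AddSubgroup (Vd (k + 1))} {u : EN N → Vd (k + 1)} {D B : Set (Vd (k + 1))} {S : Set (Vd (k + 1) → MN N)}
    (G : Geo X Λ u D B) (hS : Csf X Λ u D S) {Φ : Vd (k + 1) → MN N} (hΦ : Φ ∈ S) : ∃ M : ℕ, 1 ≤ M ∧ ∀ l ∈ Λ, ∀ y ∉ D, Φ (y + M • l) = Φ y := by
  classical
  set T := hS.fin.toFinset with hT
  refine ⟨T.card.factorial, Nat.factorial_pos _, fun l hl => ?_⟩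
  have h1 : ∀ m : ℕ, ∃ f ∈ S, ∀ y ∉ D, f y = Φ (y + m • l) := fun m => hS.tr Φ hΦ (m • l) (Λ.nsmul_mem hl m)
  choose f hf hfe using h1
  obtain ⟨i, hi, j, hj, hij, hfij⟩ := Finset.exists_ne_map_eq_of_card_lt_of_maps_to (s := Finset.range (T.card + 1)) (t := T) (f := f)
    (by rw [Finset.card_range]; omega) (fun m _ => by rw [hT]; simpa using hf m)
  -- a period `m ≤ card`
  obtain ⟨m, hm1, hm2, hm⟩ : ∃ m : ℕ, 1 ≤ m ∧ m ≤ T.card ∧ ∀ y ∉ D, Φ (y + m • l) = Φ y := by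
    have key : ∀ i j : ℕ, i < j → j ≤ T.card → f i = f j → ∃ m : ℕ, 1 ≤ m ∧ m ≤ T.card ∧ ∀ y ∉ D, Φ (y + m • l) = Φ y := by
      intro i j hij hj hfij
      refine ⟨j - i, by omega, by omega, fun y hy => ?_⟩
      have hy' : y - i • l ∉ D := by
        intro h
        have h2 := G.D_inv _ h (i • l) (Λ.nsmul_mem hl i)
        rw [sub_add_cancel] at h2
        exact hy h2
      have h2 := hfe i _ hy'
      have h3 := hfe j _ hy'
      rw [hfij, h3] at h2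
      rw [sub_add_cancel] at h2
      rw [← h2]
      congr 1
      have e : j = i + (j - i) := by omega
      conv_rhs => rw [e, add_smul]
      abel
    rw [Finset.mem_range] at hi hj
    rcases lt_or_gt_of_ne hij with h | h
    · exact key i j h (by omega) hfij
    · exact key j i h (by omega) hfij.symm
  obtain ⟨n, hn⟩ := Nat.dvd_factorial hm1 hm2
  have h2 : ∀ t : ℕ, ∀ y ∉ D, Φ (y + (m * t) • l) = Φ y := by
    intro t
    induction t with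
    | zero =>
      intro y _
      rw [mul_zero, zero_smul, add_zero]
    | succ t ih =>
      intro y hy
      have hy' : y + (m * t) • l ∉ D := by
        intro h
        exact hy ((G.D_sub (Λ.nsmul_mem hl _)).1 h)
      rw [mul_add, mul_one, add_smul, ← add_assoc, hm _ hy', ih y hy]
  rw [hn]
  exact h2 n

theorem ordQ {N : ℕ} {X : Set (EN N)} {Λ : AddSubgroup (Vd (1 + 1))} {u : EN N → Vd (1 + 1)} {D B : Set (Vd (1 + 1))} {Q : EN N → ℂ} {d : ℕ} {S : Set (Vd (1 + 1) → MN N)}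
    (G : Geo X Λ u D B) (hs : Simp Λ) (hL : LDi D) (hS : Csf X Λ u D S) (hQ : QD X Λ u D Q d) (hQ0 : ∀ x ∈ X, ∃ᶠ x' in 𝓝 x, x' ∈ X ∧ Q x' ≠ 0)
    {Φ : Vd (1 + 1) → MN N} (hΦ : Φ ∈ S) (h0 : ∀ y ∉ D, ∀ x ∈ X, pr x = Φ y → Q x = 0) :
    ∃ (μ : ℕ) (Z : Set (Vd (1 + 1))), 1 ≤ μ ∧ (∀ y ∉ D, OrdAt X Λ u Q Φ μ Z y) ∧ (∃ M : ℕ, 1 ≤ M ∧ ∀ y ∈ Z, ∀ l ∈ Λ, y + M • l ∈ Z) ∧
      ∀ a : Vd (1 + 1), a ≠ 0 → ∀ b : Vd (1 + 1), Set.Countable {z : ℂ | z • a + b ∈ D ∪ Z} := by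
  classical
  have hfin := ord_finite G hS hQ hQ0 hΦ
  set j₀ := Nat.find hfin with hj₀
  obtain ⟨ys, hys, hysO⟩ := Nat.find_spec hfin
  have hmin : ∀ j < j₀, ∀ y ∉ D, OG X Λ u Q Φ j y := by
    intro j hj y hy
    by_contra hcon
    exact Nat.find_min hfin hj ⟨y, hy, hcon⟩
  have hOG1 : ∀ j : ℕ, j ≤ 1 → ∀ y ∉ D, OG X Λ u Q Φ j y := by
    intro j hj y hy γ hγ hγX hγ0
    have hx := hγX.self_of_nhds
    have hq0 : Q (γ 0) = 0 := h0 y hy _ hx.1 hγ0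
    have hd : DifferentiableAt ℂ (fun t => Q (γ t)) 0 := (hQ.diff _).comp (0 : ℂ) hγ.differentiableAt
    have h1 := O_of hd hq0 0
    have h2 : (fun t => Q (γ t)) =O[𝓝 (0 : ℂ)] (fun t : ℂ => t) := by simpa using h1
    interval_cases j
    · have h3 : (fun t : ℂ => t) =O[𝓝 (0 : ℂ)] (fun _ : ℂ => (1 : ℂ)) := continuousAt_id.isBigO_one ℂ
      simpa using h2.trans h3
    · simpa using h2
  have hj2 : 2 ≤ j₀ := by
    by_contra hlt
    push Not at hlt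
    exact hysO (hOG1 j₀ (by omega) ys hys)
  obtain ⟨μ, hμ⟩ : ∃ μ, j₀ = μ + 1 := ⟨j₀ - 1, by omega⟩
  have hμ1 : 1 ≤ μ := by omega
  have hμO : ∀ y ∉ D, OG X Λ u Q Φ μ y := hmin μ (by omega)
  obtain ⟨M, hM, hMΦ⟩ := period G hS hΦ
  have hord : ∀ y ∉ D, OrdAt X Λ u Q Φ μ {y | y ∉ D ∧ OG X Λ u Q Φ (μ + 1) y} y := fun y hy => ordAt_of G hS hQ hΦ hμO hy
  have hper : ∀ y ∈ {y | y ∉ D ∧ OG X Λ u Q Φ (μ + 1) y}, ∀ l ∈ Λ, y + M • l ∈ {y | y ∉ D ∧ OG X Λ u Q Φ (μ + 1) y} := by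
    rintro y ⟨hyD, hyO⟩ l hl
    have hMl : M • l ∈ Λ := Λ.nsmul_mem hl M
    refine ⟨fun h => hyD ((G.D_sub hMl).1 h), ?_⟩
    intro γ hγ hγX hγ0
    refine hyO γ hγ ?_ (hγ0.trans (hMΦ l hl y hyD))
    filter_upwards [hγX] with t ht
    refine ⟨ht.1, ?_⟩
    have h1 := Λ.add_mem ht.2 hMl
    convert h1 using 1
    abel
  refine ⟨μ, _, hμ1, hord, ⟨M, hM, hper⟩, fun a ha b => ?_⟩
  exact lines_count G.lat hs hL G.D_closed (fun y l hl => G.D_sub hl) G.D_thin (fun y hy => hy.1) (fun y hy => beta_of (hord y hy)) hM hper hys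
    (fun h => hysO (by rw [← hj₀, hμ]; exact h.2)) ha b

end Pool.Agent.G3
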